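import Mathlib
import Pool.Agent.Lib.MP_099f24_an.LF.Defs

/-!
# MP_099f24, part B6 (structure of blow-ups): definitions

A pair `(K, g)`: a closed set and a vector field off `K` (the gradient).  `resc x r` is the blow-up
at the centre `x` and the scale `r`.
-/

namespace Pool.Agent.MP099f24

open Filter Topology Set Metric
open scoped ComplexConjugate

/-- a set together with a field (only its values off the set matter) -/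
structure B6El where
  /-- the closed set -/
  K : Set ℂ
  /-- the gradient -/
  g : ℂ → ℂ

/-- blow-up with centre `x` and scale `r` -/
noncomputable def B6El.resc (P : B6El) (x : ℂ) (r : ℝ) : B6El where
  K := {z | x + r * z ∈ P.K}
  g := fun z => (Real.sqrt r : ℂ) * P.g (x + r * z)

/-- local Hausdorff convergence of the sets and locally uniform convergence of the fields off the
limit set -/
structure B6Conv (P : ℕ → B6El) (Q : B6El) : Prop where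
  u1 : ∀ R ε : ℝ, 0 < ε → ∀ᶠ j in atTop, ∀ y ∈ (P j).K, ‖y‖ ≤ R → ∃ z ∈ Q.K, ‖y - z‖ < ε
  u2 : ∀ R ε : ℝ, 0 < ε → ∀ᶠ j in atTop, ∀ z ∈ Q.K, ‖z‖ ≤ R → ∃ y ∈ (P j).K, ‖y - z‖ < ε
  g : ∀ R ε : ℝ, 0 < ε → ∀ᶠ j in atTop, ∀ y : ℂ, ‖y‖ ≤ R → (∀ z ∈ Q.K, ε ≤ ‖y - z‖) →
    ‖(P j).g y - Q.g y‖ ≤ ε

/-- the field is `≤ δ` in the unit disc, off the `δ`-neighbourhood of the set -/
def B6W (P : B6El) (δ : ℝ) : Prop :=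
  ∀ y : ℂ, ‖y‖ < 1 → (∀ z ∈ P.K, δ ≤ ‖y - z‖) → ‖P.g y‖ ≤ δ

/-- the field vanishes off the set -/
def B6Zero (Q : B6El) : Prop := ∀ z : ℂ, z ∉ Q.K → Q.g z = 0

/-- a line through the origin -/
def B6Line (K : Set ℂ) : Prop := ∃ e : ℂ, ‖e‖ = 1 ∧ K = {z | ∃ t : ℝ, z = t * e}

/-- a propeller with centre `c` -/
def B6Tri (K : Set ℂ) (c : ℂ) : Prop := ∃ e : ℂ, ‖e‖ = 1 ∧
  K = {z | ∃ (i : Fin 3) (t : ℝ), 0 ≤ t ∧ z = c + t * (om3 ^ (i : ℕ) * e)}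

/-- crack tip centred at the origin (only the modulus of the gradient is recorded) -/
def B6Tip (Q : B6El) : Prop := ∃ e : ℂ, ‖e‖ = 1 ∧ Q.K = {z | ∃ t : ℝ, 0 ≤ t ∧ z = t * e} ∧
  ∀ z : ℂ, z ∉ Q.K → ‖Q.g z‖ = 1 / Real.sqrt (2 * Real.pi * ‖z‖)

/-- The properties of the class of global elements used in the structure theorem.
`D Q r` is the Dirichlet integral of the disc of radius `r` around `0`, `e1 Q` the energy of the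
closed unit disc. -/
structure B6Class (G : Set B6El) (D : B6El → ℝ → ℝ) (e1 : B6El → ℝ) : Prop where
  resc0 : ∀ Q ∈ G, (0 : ℂ) ∈ Q.K → ∀ R : ℝ, 0 < R → Q.resc 0 R ∈ G
  cpt : ∀ Q : ℕ → B6El, (∀ j, Q j ∈ G) → (∀ j, (0 : ℂ) ∈ (Q j).K) →
    ∃ φ : ℕ → ℕ, StrictMono φ ∧ ∃ Q' ∈ G, (0 : ℂ) ∈ Q'.K ∧ B6Conv (fun j => Q (φ j)) Q'
  Dresc : ∀ Q ∈ G, (0 : ℂ) ∈ Q.K → ∀ R r : ℝ, 0 < R → 0 < r →
    D (Q.resc 0 R) r = D Q (R * r) / R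
  Dmono : ∀ Q ∈ G, (0 : ℂ) ∈ Q.K → ∀ r s : ℝ, 0 < r → r ≤ s → D Q r / r ≤ D Q s / s
  Dnn : ∀ Q ∈ G, (0 : ℂ) ∈ Q.K → ∀ r : ℝ, 0 < r → 0 ≤ D Q r
  Dbd : ∃ C : ℝ, ∀ Q ∈ G, (0 : ℂ) ∈ Q.K → ∀ r : ℝ, 0 < r → D Q r ≤ C * r
  Dcont : ∀ (Q : ℕ → B6El) (Q' : B6El), (∀ j, Q j ∈ G) → (∀ j, (0 : ℂ) ∈ (Q j).K) → Q' ∈ G →
    (0 : ℂ) ∈ Q'.K → B6Conv Q Q' → ∀ r : ℝ, 0 < r →
    Tendsto (fun j => D (Q j) r) atTop (𝓝 (D Q' r))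
  zero : ∀ Q ∈ G, (0 : ℂ) ∈ Q.K → B6Zero Q → ∀ r : ℝ, 0 < r → D Q r = 0
  cls : ∀ Q ∈ G, (0 : ℂ) ∈ Q.K → ∀ φ : ℝ, (∀ r : ℝ, 0 < r → D Q r = φ * r) →
    (φ = 0 ∧ B6Zero Q ∧ (B6Line Q.K ∨ ∃ c, B6Tri Q.K c)) ∨ (φ = 1 ∧ B6Tip Q)
  eline : ∀ Q ∈ G, B6Line Q.K → B6Zero Q → e1 Q ≤ 2
  etri : ∀ Q ∈ G, B6Tri Q.K 0 → B6Zero Q → e1 Q ≤ 3
  etip : ∀ Q ∈ G, B6Tip Q → D Q 1 = 1 → e1 Q ≤ 2

/-- Compactness of the blow-ups of `P` near the point `x0`. -/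
structure B6Loc (G : Set B6El) (e1 : B6El → ℝ) (P : B6El) (x0 : ℂ) : Prop where
  mem : x0 ∈ P.K
  cpt : ∀ (x : ℕ → ℂ) (r : ℕ → ℝ), (∀ j, x j ∈ P.K) → Tendsto x atTop (𝓝 x0) →
    (∀ j, 0 < r j) → Tendsto r atTop (𝓝 0) →
    ∃ φ : ℕ → ℕ, StrictMono φ ∧ ∃ Q ∈ G, (0 : ℂ) ∈ Q.K ∧
      B6Conv (fun j => P.resc (x (φ j)) (r (φ j))) Q ∧
      ∀ ε : ℝ, 0 < ε → ∀ᶠ j in atTop, e1 (P.resc (x (φ j)) (r (φ j))) ≤ e1 Q + ε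

/-- `P` is `δ`-close to a line at `(x, r)` -/
def B6LineGood (e1 : B6El → ℝ) (P : B6El) (δ : ℝ) (x : ℂ) (r : ℝ) : Prop :=
  FlatAt P.K x r δ ∧ B6W (P.resc x r) δ ∧ e1 (P.resc x r) ≤ 2 + δ

/-- `P` is `δ`-close to a centred propeller at `(x, r)` -/
def B6TriGood (e1 : B6El → ℝ) (P : B6El) (δ : ℝ) (x : ℂ) (r : ℝ) : Prop :=
  (∃ e, TripodDir P.K x r δ e) ∧ B6W (P.resc x r) δ ∧ e1 (P.resc x r) ≤ 3 + δ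

/-- `P` is `δ`-close to a crack tip with tip `x` at `(x, r)` -/
def B6TipGood (e1 : B6El → ℝ) (P : B6El) (δ : ℝ) (x : ℂ) (r : ℝ) : Prop :=
  (∃ e, RayDir P.K x r δ e) ∧ e1 (P.resc x r) ≤ 2 + δ

/-- all points near `x0` are flat at scales `≤ c |x - x0|` -/
def B6Near (e1 : B6El → ℝ) (P : B6El) (x0 : ℂ) : Prop :=
  ∀ δ : ℝ, 0 < δ → ∃ c : ℝ, 0 < c ∧ ∃ r1 : ℝ, 0 < r1 ∧ ∀ x ∈ P.K, x ≠ x0 → ‖x - x0‖ < r1 →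
    ∀ r : ℝ, 0 < r → r ≤ c * ‖x - x0‖ → B6LineGood e1 P δ x r

end Pool.Agent.MP099f24
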