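import Mathlib
import Pool.Agent.Lib.MP_099f24_an.B6.Defs

/-!
# MP_099f24, part B6: basic lemmas on rescaling, closeness and convergence
-/

namespace Pool.Agent.MP099f24

open Filter Topology Set Metric
open scoped ComplexConjugate

theorem b6_ext {P Q : B6El} (h1 : P.K = Q.K) (h2 : P.g = Q.g) : P = Q := by
  cases P; cases Q; simp_all

theorem b6_resc_resc (P : B6El) (x y : ℂ) (r t : ℝ) (hr : 0 ≤ r) :
    (P.resc x r).resc y t = P.resc (x + r * y) (r * t) := by
  apply b6_ext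
  · ext z
    simp only [B6El.resc, mem_ofPred_eq, Complex.ofReal_mul]
    rw [show x + (r : ℂ) * (y + t * z) = x + r * y + r * t * z by ring]
  · funext z
    simp only [B6El.resc, Complex.ofReal_mul]
    rw [show x + (r : ℂ) * (y + t * z) = x + r * y + r * t * z by ring, Real.sqrt_mul hr]
    push_cast
    ring

theorem b6_resc_resc0 (P : B6El) (x : ℂ) (r t : ℝ) (hr : 0 ≤ r) :
    (P.resc x r).resc 0 t = P.resc x (r * t) := by
  rw [b6_resc_resc P x 0 r t hr, mul_zero, add_zero]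

theorem b6_zero_mem (P : B6El) (x : ℂ) (r : ℝ) (hx : x ∈ P.K) : (0 : ℂ) ∈ (P.resc x r).K := by
  simpa [B6El.resc] using hx

theorem b6_resc0_one (Q : B6El) : Q.resc 0 1 = Q := by
  apply b6_ext
  · ext z; simp [B6El.resc]
  · funext z; simp [B6El.resc]

/-- smaller scale, larger constant -/
theorem b6_W_small {P : B6El} {x : ℂ} {r δ s : ℝ} (hs : 0 < s) (hsr : s ≤ r) (hδ : 0 ≤ δ)
    (h : B6W (P.resc x r) δ) : B6W (P.resc x s) (δ * (r / s)) := by
  have hr : 0 < r := lt_of_lt_of_le hs hsr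
  intro y hy hK
  have hrs : 1 ≤ r / s := (one_le_div hs).2 hsr
  have hsr' : s / r ≤ 1 := (div_le_one hr).2 hsr
  have hsr0 : 0 < s / r := div_pos hs hr
  have e1 : ∀ w : ℂ, x + (r : ℂ) * (((s / r : ℝ) : ℂ) * w) = x + s * w := by
    intro w
    rw [← mul_assoc, ← Complex.ofReal_mul, mul_div_cancel₀ _ hr.ne']
  have h1 := h (((s / r : ℝ) : ℂ) * y) (by
    rw [norm_mul, Complex.norm_real, Real.norm_of_nonneg hsr0.le]
    nlinarith [norm_nonneg y]) (by
    intro z hz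
    have hz' : x + (s : ℂ) * (((r / s : ℝ) : ℂ) * z) ∈ P.K := by
      have : x + (s : ℂ) * (((r / s : ℝ) : ℂ) * z) = x + r * z := by
        rw [← mul_assoc, ← Complex.ofReal_mul, mul_div_cancel₀ _ hs.ne']
      rw [this]; exact hz
    have h2 := hK (((r / s : ℝ) : ℂ) * z) hz'
    have h3 : ((s / r : ℝ) : ℂ) * y - z = ((s / r : ℝ) : ℂ) * (y - ((r / s : ℝ) : ℂ) * z) := by
      rw [mul_sub, ← mul_assoc, ← Complex.ofReal_mul]
      have : s / r * (r / s) = 1 := by field_simp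
      rw [this]; simp
    rw [h3, norm_mul, Complex.norm_real, Real.norm_of_nonneg hsr0.le]
    calc δ = s / r * (δ * (r / s)) := by field_simp
      _ ≤ _ := by gcongr)
  simp only [B6El.resc] at h1 ⊢
  rw [e1] at h1
  rw [norm_mul, Complex.norm_real, Real.norm_of_nonneg (Real.sqrt_nonneg _)] at h1 ⊢
  calc √s * ‖P.g (x + s * y)‖ ≤ √r * ‖P.g (x + s * y)‖ := by
        gcongr
    _ ≤ δ := h1
    _ ≤ δ * (r / s) := by nlinarith

theorem b6_W_mono {P : B6El} {δ δ' : ℝ} (h : B6W P δ) (hd : δ ≤ δ') : B6W P δ' := by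
  intro y hy hK
  exact (h y hy (fun z hz => hd.trans (hK z hz))).trans hd

/-- `B6W` is open -/
theorem b6_W_open {P : ℕ → B6El} {Q : B6El} (hc : B6Conv P Q) {δ : ℝ} (hδ : 0 < δ)
    (h : B6W Q (δ / 2)) : ∀ᶠ j in atTop, B6W (P j) δ := by
  filter_upwards [hc.u2 (1 + δ) (δ / 4) (by positivity), hc.g 1 (δ / 2) (by positivity)]
    with j h2 hg y hy hK
  have hQ : ∀ z ∈ Q.K, δ / 2 ≤ ‖y - z‖ := by
    intro z hz
    by_contra hlt
    push Not at hlt
    have hz1 : ‖z‖ ≤ 1 + δ := by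
      have : ‖z‖ ≤ ‖y‖ + ‖y - z‖ := by
        have := norm_sub_le y (y - z)
        simpa using this
      linarith
    obtain ⟨w, hw, hw2⟩ := h2 z hz hz1
    have := hK w hw
    have h3 : ‖y - w‖ ≤ ‖y - z‖ + ‖w - z‖ := by
      have := norm_sub_le (y - z) (w - z)
      simpa using this
    linarith
  have h1 := h y hy hQ
  have h3 := hg y hy.le hQ
  have h4 : ‖(P j).g y‖ ≤ ‖Q.g y‖ + ‖(P j).g y - Q.g y‖ := by
    have := norm_add_le (Q.g y) ((P j).g y - Q.g y)
    simpa using this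
  linarith

theorem b6_W_of_zero {Q : B6El} (h : B6Zero Q) {δ : ℝ} (hδ : 0 < δ) : B6W Q δ := by
  intro y _ hK
  have : y ∉ Q.K := by
    intro hy
    have := hK y hy
    simp at this
    linarith
  rw [h y this]
  simp [hδ.le]

/-- `B6W` is closed -/
theorem b6_W_closed {P : ℕ → B6El} {Q : B6El} (hc : B6Conv P Q) {δ δ' : ℝ} (hδ : 0 ≤ δ)
    (hd : δ < δ') (h : ∃ᶠ j in atTop, B6W (P j) δ) : B6W Q δ' := by
  intro y hy hK
  have key : ∀ ε : ℝ, 0 < ε → ε ≤ δ' → ‖Q.g y‖ ≤ δ + ε := by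
    intro ε hε hε'
    obtain ⟨j, hj, h1, hg⟩ := (h.and_eventually
      ((hc.u1 (1 + δ') (δ' - δ) (by linarith)).and (hc.g 1 ε hε))).exists
    have hKj : ∀ z ∈ (P j).K, δ ≤ ‖y - z‖ := by
      intro z hz
      by_cases hzn : ‖z‖ ≤ 1 + δ'
      · obtain ⟨w, hw, hw2⟩ := h1 z hz hzn
        have h3 := hK w hw
        have h4 : ‖y - w‖ ≤ ‖y - z‖ + ‖z - w‖ := by
          have := norm_add_le (y - z) (z - w)
          simpa using this
        linarith
      · push Not at hzn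
        have : ‖z‖ ≤ ‖y‖ + ‖y - z‖ := by
          have := norm_sub_le y (y - z)
          simpa using this
        linarith
    have h5 := hj y hy hKj
    have h6 := hg y hy.le (fun z hz => hε'.trans (hK z hz))
    have h7 : ‖Q.g y‖ ≤ ‖(P j).g y‖ + ‖(P j).g y - Q.g y‖ := by
      have := norm_sub_le ((P j).g y) ((P j).g y - Q.g y)
      simpa using this
    linarith
  have hd' : 0 < δ' := lt_of_le_of_lt hδ hd
  have := key (min (δ' - δ) δ') (lt_min (by linarith) hd') (min_le_right _ _)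
  have h2 : min (δ' - δ) δ' ≤ δ' - δ := min_le_left _ _
  linarith

/-- convergence and centred rescaling -/
theorem b6_conv_resc {P : ℕ → B6El} {Q : B6El} (hc : B6Conv P Q) {R : ℝ} (hR : 0 < R) :
    B6Conv (fun j => (P j).resc 0 R) (Q.resc 0 R) := by
  have hinv : ∀ w : ℂ, (0 : ℂ) + R * (((R⁻¹ : ℝ) : ℂ) * w) = w := by
    intro w
    rw [← mul_assoc, ← Complex.ofReal_mul, mul_inv_cancel₀ hR.ne']
    simp
  have hnR : ∀ w : ℂ, ‖(R : ℂ) * w‖ = R * ‖w‖ := by
    intro w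
    rw [norm_mul, Complex.norm_real, Real.norm_of_nonneg hR.le]
  have hnRi : ∀ w : ℂ, ‖((R⁻¹ : ℝ) : ℂ) * w‖ = R⁻¹ * ‖w‖ := by
    intro w
    rw [norm_mul, Complex.norm_real, Real.norm_of_nonneg (inv_pos.2 hR).le]
  have hsub : ∀ y w : ℂ, y - ((R⁻¹ : ℝ) : ℂ) * w = ((R⁻¹ : ℝ) : ℂ) * ((R : ℂ) * y - w) := by
    intro y w
    rw [mul_sub, ← mul_assoc, ← Complex.ofReal_mul, inv_mul_cancel₀ hR.ne']
    simp
  refine ⟨?_, ?_, ?_⟩
  · intro S ε hε
    filter_upwards [hc.u1 (R * S) (R * ε) (by positivity)] with j h y hy hyn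
    obtain ⟨w, hw, hw2⟩ := h ((R : ℂ) * y) (by simpa [B6El.resc] using hy) (by
      rw [hnR]; gcongr)
    refine ⟨((R⁻¹ : ℝ) : ℂ) * w, ?_, ?_⟩
    · simp only [B6El.resc, mem_ofPred_eq, hinv]
      exact hw
    · rw [hsub, hnRi]
      calc R⁻¹ * ‖(R : ℂ) * y - w‖ < R⁻¹ * (R * ε) := by
            have := inv_pos.2 hR
            gcongr
        _ = ε := by field_simp
  · intro S ε hε
    filter_upwards [hc.u2 (R * S) (R * ε) (by positivity)] with j h z hz hzn
    obtain ⟨w, hw, hw2⟩ := h ((R : ℂ) * z) (by simpa [B6El.resc] using hz) (by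
      rw [hnR]; gcongr)
    refine ⟨((R⁻¹ : ℝ) : ℂ) * w, ?_, ?_⟩
    · simp only [B6El.resc, mem_ofPred_eq, hinv]
      exact hw
    · rw [norm_sub_rev, hsub, hnRi, norm_sub_rev]
      calc R⁻¹ * ‖w - (R : ℂ) * z‖ < R⁻¹ * (R * ε) := by
            have := inv_pos.2 hR
            gcongr
        _ = ε := by field_simp
  · intro S ε hε
    have hsR : 0 < √R := Real.sqrt_pos.2 hR
    set ε' := min (R * ε) (ε / √R) with hε'
    have hε'0 : 0 < ε' := lt_min (by positivity) (by positivity)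
    filter_upwards [hc.g (R * S) ε' hε'0] with j h y hyn hK
    have h1 := h ((R : ℂ) * y) (by rw [hnR]; gcongr) (by
      intro z hz
      have h2 := hK (((R⁻¹ : ℝ) : ℂ) * z) (by
        simp only [B6El.resc, mem_ofPred_eq, hinv]
        exact hz)
      rw [hsub, hnRi] at h2
      have h3 : R * ε ≤ ‖(R : ℂ) * y - z‖ := by
        calc R * ε ≤ R * (R⁻¹ * ‖(R : ℂ) * y - z‖) := by gcongr
          _ = _ := by field_simp
      exact (min_le_left _ _).trans h3)
    simp only [B6El.resc, zero_add]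
    rw [← mul_sub, norm_mul, Complex.norm_real, Real.norm_of_nonneg hsR.le]
    calc √R * ‖(P j).g (R * y) - Q.g (R * y)‖ ≤ √R * (ε / √R) := by
          gcongr
          exact h1.trans (min_le_right _ _)
      _ = ε := by field_simp

/-- convergence passes to subsequences -/
theorem b6_conv_sub {P : ℕ → B6El} {Q : B6El} (hc : B6Conv P Q) {φ : ℕ → ℕ}
    (hφ : Tendsto φ atTop atTop) : B6Conv (fun j => P (φ j)) Q :=
  ⟨fun R ε hε => hφ.eventually (hc.u1 R ε hε), fun R ε hε => hφ.eventually (hc.u2 R ε hε),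
    fun R ε hε => hφ.eventually (hc.g R ε hε)⟩

theorem b6_line_resc {K : Set ℂ} (h : B6Line K) {R : ℝ} (hR : 0 < R) :
    {z : ℂ | (0 : ℂ) + R * z ∈ K} = K := by
  obtain ⟨e, he, rfl⟩ := h
  ext z
  simp only [zero_add, mem_ofPred_eq]
  constructor
  · rintro ⟨t, ht⟩
    refine ⟨R⁻¹ * t, ?_⟩
    have hR' : (R : ℂ) ≠ 0 := by exact_mod_cast hR.ne'
    push_cast
    rw [mul_assoc, ← ht]
    field_simp
  · rintro ⟨t, ht⟩
    exact ⟨R * t, by rw [ht]; push_cast; ring⟩

end Pool.Agent.MP099f24
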