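import Mathlib
import Pool.Agent.Lib.MP_099f24_an.B6.Basic

/-!
# MP_099f24, part B6: flatness and rescaling
-/

namespace Pool.Agent.MP099f24

open Filter Topology Set Metric
open scoped ComplexConjugate

theorem b6_im_le (z e : ℂ) (he : ‖e‖ = 1) : |(z * conj e).im| ≤ ‖z‖ := by
  calc |(z * conj e).im| ≤ ‖z * conj e‖ := Complex.abs_im_le_norm _
    _ = ‖z‖ := by rw [norm_mul, Complex.norm_conj, he, mul_one]

theorem b6_im_real (t : ℝ) (e : ℂ) : (((t : ℂ) * e) * conj e).im = 0 := by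
  rw [mul_assoc, Complex.mul_conj, ← Complex.ofReal_mul, Complex.ofReal_im]

theorem b6_flatDir_resc {K : Set ℂ} {x y : ℂ} {r t ε : ℝ} (hr : 0 < r) {e : ℂ}
    (h : FlatDir {z : ℂ | x + r * z ∈ K} y t ε e) : FlatDir K (x + r * y) (r * t) ε e := by
  obtain ⟨he, h1, h2⟩ := h
  have hr' : (r : ℂ) ≠ 0 := by exact_mod_cast hr.ne'
  have hn : ∀ w : ℂ, ‖(r : ℂ) * w‖ = r * ‖w‖ := by
    intro w
    rw [norm_mul, Complex.norm_real, Real.norm_of_nonneg hr.le]
  refine ⟨he, ?_, ?_⟩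
  · intro z hz hzn
    have e1 : x + (r : ℂ) * (((z - x) / r)) = z := by field_simp; ring
    have e2 : z - (x + r * y) = r * ((z - x) / r - y) := by field_simp; ring
    have h3 := h1 ((z - x) / r) (by simp only [mem_ofPred_eq, e1]; exact hz) (by
      rw [e2, hn] at hzn
      exact le_of_mul_le_mul_left hzn hr)
    rw [e2, mul_assoc, Complex.im_ofReal_mul, abs_mul, abs_of_pos hr]
    calc r * |(((z - x) / r - y) * conj e).im| ≤ r * (ε * t) := by gcongr
      _ = _ := by ring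
  · intro s hs
    obtain ⟨w, hw, hw2⟩ := h2 (s / r) (by
      rw [abs_div, abs_of_pos hr, div_le_iff₀ hr]; linarith)
    refine ⟨x + r * w, hw, ?_⟩
    have e3 : x + r * w - (x + r * y + s * e) = r * (w - (y + ((s / r : ℝ) : ℂ) * e)) := by
      push_cast; field_simp; ring
    rw [e3, hn]
    calc r * ‖w - (y + ((s / r : ℝ) : ℂ) * e)‖ ≤ r * (ε * t) := by gcongr
      _ = _ := by ring

theorem b6_flatDir_unresc {K : Set ℂ} {x y : ℂ} {r t ε : ℝ} (hr : 0 < r) {e : ℂ}
    (h : FlatDir K (x + r * y) (r * t) ε e) : FlatDir {z : ℂ | x + r * z ∈ K} y t ε e := by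
  obtain ⟨he, h1, h2⟩ := h
  have hr' : (r : ℂ) ≠ 0 := by exact_mod_cast hr.ne'
  have hn : ∀ w : ℂ, ‖(r : ℂ) * w‖ = r * ‖w‖ := by
    intro w
    rw [norm_mul, Complex.norm_real, Real.norm_of_nonneg hr.le]
  refine ⟨he, ?_, ?_⟩
  · intro z hz hzn
    have e2 : x + r * z - (x + r * y) = r * (z - y) := by ring
    have h3 := h1 (x + r * z) hz (by
      rw [e2, hn]; gcongr)
    rw [e2, mul_assoc, Complex.im_ofReal_mul, abs_mul, abs_of_pos hr] at h3
    refine le_of_mul_le_mul_left (h3.trans (le_of_eq ?_)) hr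
    ring
  · intro s hs
    obtain ⟨w, hw, hw2⟩ := h2 (r * s) (by
      rw [abs_mul, abs_of_pos hr]; gcongr)
    have e1 : x + (r : ℂ) * (((w - x) / r)) = w := by field_simp; ring
    refine ⟨(w - x) / r, by simp only [mem_ofPred_eq, e1]; exact hw, ?_⟩
    have e3 : w - (x + r * y + ((r * s : ℝ) : ℂ) * e) = r * ((w - x) / r - (y + s * e)) := by
      push_cast; field_simp; ring
    rw [e3, hn] at hw2
    refine le_of_mul_le_mul_left (hw2.trans (le_of_eq ?_)) hr
    ring

theorem b6_flatAt_resc {P : B6El} {x y : ℂ} {r t ε : ℝ} (hr : 0 < r) :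
    FlatAt (P.resc x r).K y t ε ↔ FlatAt P.K (x + r * y) (r * t) ε :=
  ⟨fun ⟨e, h⟩ => ⟨e, b6_flatDir_resc hr h⟩, fun ⟨e, h⟩ => ⟨e, b6_flatDir_unresc hr h⟩⟩

theorem b6_flatAt_resc1 {P : B6El} {x : ℂ} {r ε : ℝ} (hr : 0 < r) :
    FlatAt (P.resc x r).K 0 1 ε ↔ FlatAt P.K x r ε := by
  rw [b6_flatAt_resc hr, mul_zero, add_zero, mul_one]

/-- smaller scale, larger constant -/
theorem b6_flat_small {K : Set ℂ} {x : ℂ} {r δ s : ℝ} (hs : 0 < s) (hsr : s ≤ r)
    (h : FlatAt K x r δ) : FlatAt K x s (δ * (r / s)) := by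
  obtain ⟨e, he, h1, h2⟩ := h
  have e1 : δ * (r / s) * s = δ * r := by field_simp
  refine ⟨e, he, ?_, ?_⟩
  · intro y hy hyn
    rw [e1]
    exact h1 y hy (hyn.trans hsr)
  · intro t ht
    rw [e1]
    exact h2 t (ht.trans hsr)

theorem b6_flat_mono {K : Set ℂ} {x : ℂ} {r δ δ' : ℝ} (hr : 0 ≤ r) (h : FlatAt K x r δ)
    (hd : δ ≤ δ') : FlatAt K x r δ' := by
  obtain ⟨e, he, h1, h2⟩ := h
  have : δ * r ≤ δ' * r := by gcongr
  refine ⟨e, he, fun y hy hyn => (h1 y hy hyn).trans this, ?_⟩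
  intro t ht
  obtain ⟨y, hy, hy2⟩ := h2 t ht
  exact ⟨y, hy, hy2.trans this⟩

/-- flatness is open at a line -/
theorem b6_flat_open {P : ℕ → B6El} {Q : B6El} (hc : B6Conv P Q) (hl : B6Line Q.K) {δ : ℝ}
    (hδ : 0 < δ) : ∀ᶠ j in atTop, FlatAt (P j).K 0 1 δ := by
  obtain ⟨e, he, hK⟩ := hl
  filter_upwards [hc.u1 1 δ hδ, hc.u2 1 δ hδ] with j h1 h2
  refine ⟨e, he, ?_, ?_⟩
  · intro y hy hyn
    rw [sub_zero] at hyn ⊢
    obtain ⟨z, hz, hyz⟩ := h1 y hy hyn
    rw [hK] at hz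
    obtain ⟨t, rfl⟩ := hz
    have e1 : (y * conj e).im = ((y - t * e) * conj e).im := by
      rw [sub_mul, Complex.sub_im, b6_im_real, sub_zero]
    rw [e1, mul_one]
    exact (b6_im_le _ e he).trans hyz.le
  · intro t ht
    obtain ⟨y, hy, hy2⟩ := h2 (t * e) (by rw [hK]; exact ⟨t, rfl⟩) (by
      rw [norm_mul, he, Complex.norm_real, mul_one]; exact ht)
    exact ⟨y, hy, by rw [zero_add, mul_one]; exact hy2.le⟩

/-- two-point flatness test -/
def B6T (K : Set ℂ) (δ : ℝ) : Prop :=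
  ∀ a ∈ K, ∀ b ∈ K, ‖a‖ < 1 → ‖b‖ < 1 → |(a * conj b).im| ≤ 2 * δ

theorem b6_T_of_flat {K : Set ℂ} {δ : ℝ} (h : FlatAt K 0 1 δ) : B6T K δ := by
  obtain ⟨e, he, h1, -⟩ := h
  intro a ha b hb han hbn
  have h3 := h1 a ha (by simpa using han.le)
  have h4 := h1 b hb (by simpa using hbn.le)
  rw [sub_zero, mul_one] at h3 h4
  have hee : e * conj e = 1 := by
    rw [Complex.mul_conj, Complex.normSq_eq_norm_sq, he]; simp
  have e1 : a * conj b = (a * conj e) * conj (b * conj e) := by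
    rw [map_mul, Complex.conj_conj]
    calc a * conj b = a * conj b * (e * conj e) := by rw [hee, mul_one]
      _ = _ := by ring
  have hd : 0 ≤ δ := (abs_nonneg _).trans h3
  rw [e1, Complex.mul_im]
  simp only [Complex.conj_re, Complex.conj_im]
  have ha2 : |(a * conj e).re| ≤ 1 := by
    calc |(a * conj e).re| ≤ ‖a * conj e‖ := Complex.abs_re_le_norm _
      _ = ‖a‖ := by rw [norm_mul, Complex.norm_conj, he, mul_one]
      _ ≤ 1 := han.le
  have hb2 : |(b * conj e).re| ≤ 1 := by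
    calc |(b * conj e).re| ≤ ‖b * conj e‖ := Complex.abs_re_le_norm _
      _ = ‖b‖ := by rw [norm_mul, Complex.norm_conj, he, mul_one]
      _ ≤ 1 := hbn.le
  calc |(a * conj e).re * -(b * conj e).im + (a * conj e).im * (b * conj e).re|
      ≤ |(a * conj e).re * -(b * conj e).im| + |(a * conj e).im * (b * conj e).re| :=
        abs_add_le _ _
    _ = |(a * conj e).re| * |(b * conj e).im| + |(a * conj e).im| * |(b * conj e).re| := by
        rw [abs_mul, abs_mul, abs_neg]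
    _ ≤ 1 * δ + δ * 1 := by gcongr
    _ = 2 * δ := by ring

/-- the two-point flatness test is closed -/
theorem b6_T_closed {P : ℕ → B6El} {Q : B6El} (hc : B6Conv P Q) {δ : ℝ}
    (h : ∃ᶠ j in atTop, B6T (P j).K δ) : B6T Q.K δ := by
  intro a ha b hb han hbn
  refine le_of_forall_pos_le_add fun η hη => ?_
  set ε := min (η / 2) (min (1 - ‖a‖) (1 - ‖b‖)) with hε
  have hε0 : 0 < ε := lt_min (by positivity) (lt_min (by linarith) (by linarith))
  obtain ⟨j, hj, h2⟩ := (h.and_eventually (hc.u2 1 ε hε0)).exists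
  obtain ⟨a', ha', haa⟩ := h2 a ha han.le
  obtain ⟨b', hb', hbb⟩ := h2 b hb hbn.le
  have hεa : ε ≤ 1 - ‖a‖ := (min_le_right _ _).trans (min_le_left _ _)
  have hεb : ε ≤ 1 - ‖b‖ := (min_le_right _ _).trans (min_le_right _ _)
  have hεη : ε ≤ η / 2 := min_le_left _ _
  have han' : ‖a'‖ < 1 := by
    have := norm_add_le (a' - a) a
    rw [sub_add_cancel] at this
    linarith
  have hbn' : ‖b'‖ < 1 := by
    have := norm_add_le (b' - b) b
    rw [sub_add_cancel] at this
    linarith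
  have h5 := hj a' ha' b' hb' han' hbn'
  have e1 : a * conj b = a' * conj b' - ((a' - a) * conj b' + a * conj (b' - b)) := by
    rw [map_sub]; ring
  rw [e1, Complex.sub_im]
  have h6 : |((a' - a) * conj b' + a * conj (b' - b)).im| ≤ η := by
    calc |((a' - a) * conj b' + a * conj (b' - b)).im|
        ≤ ‖(a' - a) * conj b' + a * conj (b' - b)‖ := Complex.abs_im_le_norm _
      _ ≤ ‖(a' - a) * conj b'‖ + ‖a * conj (b' - b)‖ := norm_add_le _ _
      _ = ‖a' - a‖ * ‖b'‖ + ‖a‖ * ‖b' - b‖ := by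
          rw [norm_mul, norm_mul, Complex.norm_conj, Complex.norm_conj]
      _ ≤ (η / 2) * 1 + 1 * (η / 2) := by
          gcongr
          · exact haa.le.trans hεη
          · exact hbb.le.trans hεη
      _ = η := by ring
  calc |(a' * conj b').im - ((a' - a) * conj b' + a * conj (b' - b)).im|
      ≤ |(a' * conj b').im| + |((a' - a) * conj b' + a * conj (b' - b)).im| := abs_sub _ _
    _ ≤ 2 * δ + η := by gcongr

theorem b6_om3_im : (conj om3).im = -(Real.sqrt 3 / 2) := by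
  have h : om3 = ((Real.cos (2 * Real.pi / 3) : ℝ) : ℂ) +
      ((Real.sin (2 * Real.pi / 3) : ℝ) : ℂ) * Complex.I := by
    rw [om3, Complex.exp_mul_I]
    push_cast
    rfl
  have hs : Real.sin (2 * Real.pi / 3) = Real.sqrt 3 / 2 := by
    rw [show 2 * Real.pi / 3 = Real.pi - Real.pi / 3 by ring, Real.sin_pi_sub,
      Real.sin_pi_div_three]
  rw [Complex.conj_im, h, Complex.add_im, Complex.ofReal_im, Complex.im_ofReal_mul, Complex.I_im,
    hs]
  ring

theorem b6_om3_norm : ‖om3‖ = 1 := by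
  rw [om3, show (2 * Real.pi / 3 * Complex.I : ℂ) = ((2 * Real.pi / 3 : ℝ) : ℂ) * Complex.I by
    push_cast; ring]
  exact Complex.norm_exp_ofReal_mul_I _

/-- a propeller is not flat at infinity -/
theorem b6_tri_not_flat {Q : B6El} {c : ℂ} (hQ : B6Tri Q.K c) {R0 : ℝ}
    (h : ∀ R : ℝ, R0 ≤ R → 0 < R → B6T (Q.resc 0 R).K (1 / 20)) : False := by
  obtain ⟨e, he, hK⟩ := hQ
  set R := max (max R0 1) (40 * ‖c‖ + 1) with hR
  have hR0 : R0 ≤ R := (le_max_left _ _).trans (le_max_left _ _)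
  have hR1 : 1 ≤ R := (le_max_right _ _).trans (le_max_left _ _)
  have hRc : 40 * ‖c‖ + 1 ≤ R := le_max_right _ _
  have hRp : 0 < R := by linarith
  have hR' : (R : ℂ) ≠ 0 := by exact_mod_cast hRp.ne'
  have ha : ∀ i : Fin 3, (c + ((R / 2 : ℝ) : ℂ) * (om3 ^ (i : ℕ) * e)) / R ∈ (Q.resc 0 R).K := by
    intro i
    simp only [B6El.resc, mem_ofPred_eq, zero_add]
    rw [mul_div_cancel₀ _ hR', hK]
    exact ⟨i, R / 2, by positivity, rfl⟩
  have han : ∀ i : Fin 3, ‖(c + ((R / 2 : ℝ) : ℂ) * (om3 ^ (i : ℕ) * e)) / R‖ < 1 := by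
    intro i
    rw [norm_div, Complex.norm_real, Real.norm_of_nonneg hRp.le, div_lt_one hRp]
    calc ‖c + ((R / 2 : ℝ) : ℂ) * (om3 ^ (i : ℕ) * e)‖
        ≤ ‖c‖ + ‖((R / 2 : ℝ) : ℂ) * (om3 ^ (i : ℕ) * e)‖ := norm_add_le _ _
      _ = ‖c‖ + R / 2 := by
          rw [norm_mul, norm_mul, norm_pow, b6_om3_norm, he, Complex.norm_real,
            Real.norm_of_nonneg (by positivity)]
          simp
      _ < R := by linarith
  have h1 := h R hR0 hRp _ (ha 0) _ (ha 1) (han 0) (han 1)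
  simp only [Fin.val_zero, pow_zero, one_mul, Fin.val_one, pow_one] at h1
  have hee : e * conj e = 1 := by
    rw [Complex.mul_conj, Complex.normSq_eq_norm_sq, he]; simp
  set T : ℂ := ((R / 2 : ℝ) : ℂ) with hT
  have hTT : (R : ℂ) = 2 * T := by rw [hT]; push_cast; ring
  have hcT : conj T = T := by rw [hT, Complex.conj_ofReal]
  have e1 : (c + T * e) / R * conj ((c + T * (om3 * e)) / R)
      = (c * conj c + T * (c * conj om3 * conj e + e * conj c)) / (R * R) + conj om3 / 4 := by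
    rw [map_div₀, map_add, map_mul, map_mul, hcT, Complex.conj_ofReal]
    have hT0 : T ≠ 0 := by
      intro h0
      rw [h0, mul_zero] at hTT
      exact hR' hTT
    rw [hTT]
    field_simp
    have : e * conj e = 1 := hee
    linear_combination (4 * T ^ 2 * conj om3) * hee
  rw [e1, Complex.add_im] at h1
  have h2 : |((c * conj c + T * (c * conj om3 * conj e + e * conj c)) / (R * R)).im| ≤ 1 / 30 := by
    calc |((c * conj c + T * (c * conj om3 * conj e + e * conj c)) / (R * R)).im|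
        ≤ ‖(c * conj c + T * (c * conj om3 * conj e + e * conj c)) / (R * R)‖ :=
          Complex.abs_im_le_norm _
      _ ≤ (‖c‖ * ‖c‖ + R / 2 * (‖c‖ + ‖c‖)) / (R * R) := by
          rw [norm_div, norm_mul (R : ℂ), Complex.norm_real, Real.norm_of_nonneg hRp.le]
          gcongr
          refine (norm_add_le _ _).trans ?_
          rw [norm_mul, norm_mul T, Complex.norm_conj, hT, Complex.norm_real,
            Real.norm_of_nonneg (by positivity)]
          gcongr
          refine (norm_add_le _ _).trans ?_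
          rw [norm_mul, norm_mul, norm_mul, Complex.norm_conj, Complex.norm_conj,
            Complex.norm_conj, b6_om3_norm, he]
          simp
      _ ≤ 1 / 30 := by
          rw [div_le_iff₀ (by positivity)]
          nlinarith [norm_nonneg c]
  have h3 : (conj om3 / 4).im = -(Real.sqrt 3 / 8) := by
    have : (conj om3 / 4 : ℂ) = ((1 / 4 : ℝ) : ℂ) * conj om3 := by push_cast; ring
    rw [this, Complex.im_ofReal_mul, b6_om3_im]; ring
  have h4 : (1.7 : ℝ) ≤ Real.sqrt 3 := by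
    apply Real.le_sqrt_of_sq_le
    norm_num
  rw [h3] at h1
  have h5 := abs_le.1 h1
  have h6 := abs_le.1 h2
  norm_num at h4
  linarith [h5.1, h5.2, h6.1, h6.2]

end Pool.Agent.MP099f24
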