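import Mathlib
import Pool.Agent.Lib.MP_099f24_an.B6.Flat

/-!
# MP_099f24, part B6: blow-downs, blow-ups of global elements and inward stability
-/

namespace Pool.Agent.MP099f24

open Filter Topology Set Metric
open scoped ComplexConjugate

variable {G : Set B6El} {D : B6El → ℝ → ℝ} {e1 : B6El → ℝ}

/-- blow-down of a global element -/
theorem b6_blowdown (hG : B6Class G D e1) {Q : B6El} (hQ : Q ∈ G) (h0 : (0 : ℂ) ∈ Q.K) :
    ∃ Q' ∈ G, (0 : ℂ) ∈ Q'.K ∧ ∃ R : ℕ → ℝ, (∀ k, 0 < R k) ∧ Tendsto R atTop atTop ∧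
      B6Conv (fun k => Q.resc 0 (R k)) Q' ∧
      ∃ φ : ℝ, (∀ r : ℝ, 0 < r → D Q' r = φ * r) ∧ ∀ s : ℝ, 0 < s → D Q s / s ≤ φ := by
  obtain ⟨ψ, hψ, Q', hQ', h0', hc⟩ := hG.cpt (fun k => Q.resc 0 ((k : ℝ) + 1))
    (fun k => hG.resc0 Q hQ h0 _ (by positivity)) (fun k => by simpa [B6El.resc] using h0)
  obtain ⟨C, hC⟩ := hG.Dbd
  -- the limit of the ratio
  set f : ℝ → ℝ := fun s => D Q (max s 1) / max s 1 with hf
  have hfm : Monotone f := by
    intro s t hst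
    exact hG.Dmono Q hQ h0 _ _ (lt_of_lt_of_le one_pos (le_max_right _ _))
      (max_le_max_right _ hst)
  have hfb : BddAbove (range f) := by
    refine ⟨C, ?_⟩
    rintro _ ⟨s, rfl⟩
    have hm : 0 < max s 1 := lt_of_lt_of_le one_pos (le_max_right _ _)
    exact (div_le_iff₀ hm).2 (hC Q hQ h0 _ hm)
  have hlim := tendsto_atTop_ciSup hfm hfb
  set φ := ⨆ i, f i with hφ
  refine ⟨Q', hQ', h0', fun k => (ψ k : ℝ) + 1, fun k => by positivity, ?_, hc, φ, ?_, ?_⟩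
  · exact tendsto_atTop_add_const_right _ _
      (tendsto_natCast_atTop_atTop.comp hψ.tendsto_atTop)
  · intro r hr
    have h1 := hG.Dcont _ _ (fun k => hG.resc0 Q hQ h0 ((ψ k : ℝ) + 1) (by positivity))
      (fun k => by simpa [B6El.resc] using h0) hQ' h0' hc r hr
    have hR : Tendsto (fun k => ((ψ k : ℝ) + 1)) atTop atTop :=
      tendsto_atTop_add_const_right _ _ (tendsto_natCast_atTop_atTop.comp hψ.tendsto_atTop)
    have hR2 : Tendsto (fun k => ((ψ k : ℝ) + 1) * r) atTop atTop := hR.atTop_mul_const hr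
    have h2 : Tendsto (fun k => f (((ψ k : ℝ) + 1) * r) * r) atTop (𝓝 (φ * r)) :=
      (hlim.comp hR2).mul_const r
    refine tendsto_nhds_unique h1 (h2.congr' ?_)
    filter_upwards [hR2.eventually_ge_atTop 1] with k hk
    have hk0 : (0 : ℝ) < (ψ k : ℝ) + 1 := by positivity
    rw [hG.Dresc Q hQ h0 _ _ hk0 hr]
    simp only [hf, max_eq_left hk]
    field_simp
  · intro s hs
    calc D Q s / s ≤ f s := hG.Dmono Q hQ h0 _ _ hs (le_max_left _ _)
      _ ≤ φ := le_ciSup hfb s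

/-- blow-up of a global element at the origin -/
theorem b6_blowup (hG : B6Class G D e1) {Q : B6El} (hQ : Q ∈ G) (h0 : (0 : ℂ) ∈ Q.K) :
    ∃ Q' ∈ G, (0 : ℂ) ∈ Q'.K ∧ ∃ R : ℕ → ℝ, (∀ k, 0 < R k) ∧ Tendsto R atTop (𝓝 0) ∧
      B6Conv (fun k => Q.resc 0 (R k)) Q' ∧
      ∃ φ : ℝ, (∀ r : ℝ, 0 < r → D Q' r = φ * r) ∧ ∀ s : ℝ, 0 < s → φ ≤ D Q s / s := by
  have hpos : ∀ k : ℕ, (0 : ℝ) < 1 / ((k : ℝ) + 1) := fun k => by positivity
  obtain ⟨ψ, hψ, Q', hQ', h0', hc⟩ := hG.cpt (fun k => Q.resc 0 (1 / ((k : ℝ) + 1)))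
    (fun k => hG.resc0 Q hQ h0 _ (hpos k)) (fun k => by simpa [B6El.resc] using h0)
  set f : ℝ → ℝ := fun s => - (D Q (1 / max s 1) / (1 / max s 1)) with hf
  have hmx : ∀ s : ℝ, 0 < max s 1 := fun s => lt_of_lt_of_le one_pos (le_max_right _ _)
  have hfm : Monotone f := by
    intro s t hst
    simp only [hf, neg_le_neg_iff]
    exact hG.Dmono Q hQ h0 _ _ (by have := hmx t; positivity)
      (one_div_le_one_div_of_le (hmx s) (max_le_max_right _ hst))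
  have hfb : BddAbove (range f) := by
    refine ⟨0, ?_⟩
    rintro _ ⟨s, rfl⟩
    simp only [hf, Left.neg_nonpos_iff]
    have hm : 0 < 1 / max s 1 := by have := hmx s; positivity
    exact div_nonneg (hG.Dnn Q hQ h0 _ hm) hm.le
  have hlim := tendsto_atTop_ciSup hfm hfb
  set φ := ⨆ i, f i with hφ
  have hR : Tendsto (fun k => 1 / ((ψ k : ℝ) + 1)) atTop (𝓝 0) := by
    have h := tendsto_one_div_add_atTop_nhds_zero_nat (𝕜 := ℝ)
    exact h.comp hψ.tendsto_atTop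
  refine ⟨Q', hQ', h0', fun k => 1 / ((ψ k : ℝ) + 1), fun k => hpos _, hR, hc, -φ, ?_, ?_⟩
  · intro r hr
    have h1 := hG.Dcont _ _ (fun k => hG.resc0 Q hQ h0 (1 / ((ψ k : ℝ) + 1)) (hpos _))
      (fun k => by simpa [B6El.resc] using h0) hQ' h0' hc r hr
    have hR1 : Tendsto (fun k => ((ψ k : ℝ) + 1)) atTop atTop :=
      tendsto_atTop_add_const_right _ _ (tendsto_natCast_atTop_atTop.comp hψ.tendsto_atTop)
    have hR2 : Tendsto (fun k => ((ψ k : ℝ) + 1) / r) atTop atTop := hR1.atTop_div_const hr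
    have h2 : Tendsto (fun k => (-f (((ψ k : ℝ) + 1) / r)) * r) atTop (𝓝 (-φ * r)) :=
      ((hlim.comp hR2).neg).mul_const r
    refine tendsto_nhds_unique h1 (h2.congr' ?_)
    filter_upwards [hR2.eventually_ge_atTop 1] with k hk
    rw [hG.Dresc Q hQ h0 _ _ (hpos _) hr]
    simp only [hf, max_eq_left hk, neg_neg]
    rw [show 1 / (((ψ k : ℝ) + 1) / r) = 1 / ((ψ k : ℝ) + 1) * r by field_simp]
    have : (0 : ℝ) < (ψ k : ℝ) + 1 := by positivity
    field_simp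
  · intro s hs
    have h1 : f (1 / s) ≤ φ := le_ciSup hfb _
    have h2 : D Q (1 / max (1 / s) 1) / (1 / max (1 / s) 1) ≤ D Q s / s := by
      apply hG.Dmono Q hQ h0 _ _ (by have := hmx (1 / s); positivity)
      calc 1 / max (1 / s) 1 ≤ 1 / (1 / s) :=
            one_div_le_one_div_of_le (by positivity) (le_max_left _ _)
        _ = s := by field_simp
    simp only [hf] at h1
    linarith

theorem b6_tip_not_W {Q : B6El} (h : B6Tip Q) : ¬ B6W Q (1 / 2) := by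
  obtain ⟨e, he, hK, hg⟩ := h
  intro hW
  have hn : ‖-(((1 / 2 : ℝ) : ℂ) * e)‖ = 1 / 2 := by
    rw [norm_neg, norm_mul, he, Complex.norm_real, Real.norm_of_nonneg (by norm_num)]
    norm_num
  have he0 : e ≠ 0 := by
    intro h; rw [h, norm_zero] at he; norm_num at he
  have hy : -(((1 / 2 : ℝ) : ℂ) * e) ∉ Q.K := by
    rw [hK]
    rintro ⟨t, ht, hte⟩
    have h2 : ((t + 1 / 2 : ℝ) : ℂ) * e = 0 := by
      push_cast at hte ⊢
      rw [add_mul, ← hte]; ring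
    rcases mul_eq_zero.1 h2 with h3 | h3
    · have : t + 1 / 2 = 0 := by exact_mod_cast h3
      linarith
    · exact he0 h3
  have h1 := hW (-(((1 / 2 : ℝ) : ℂ) * e)) (by rw [hn]; norm_num) (by
    intro z hz
    rw [hK] at hz
    obtain ⟨t, ht, rfl⟩ := hz
    have : -(((1 / 2 : ℝ) : ℂ) * e) - t * e = -(((1 / 2 + t : ℝ) : ℂ) * e) := by
      push_cast; ring
    rw [this, norm_neg, norm_mul, he, Complex.norm_real, Real.norm_of_nonneg (by positivity)]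
    linarith)
  rw [hg _ hy, hn] at h1
  have h2 : Real.sqrt (2 * Real.pi * (1 / 2)) < 2 := by
    rw [show 2 * Real.pi * (1 / 2) = Real.pi by ring]
    rw [Real.sqrt_lt' (by norm_num)]
    have := Real.pi_lt_four
    linarith
  have h3 : 0 < Real.sqrt (2 * Real.pi * (1 / 2)) := by
    apply Real.sqrt_pos.2
    have := Real.pi_pos
    positivity
  have h4 : 1 / 2 < 1 / Real.sqrt (2 * Real.pi * (1 / 2)) := one_div_lt_one_div_of_lt h3 h2
  linarith

/-- a global element with small gradient at all large scales has zero gradient -/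
theorem b6_key (hG : B6Class G D e1) {Q : B6El} (hQ : Q ∈ G) (h0 : (0 : ℂ) ∈ Q.K) {R0 : ℝ}
    (hW : ∀ R : ℝ, R0 ≤ R → 0 < R → B6W (Q.resc 0 R) (1 / 3)) :
    B6Zero Q ∧ (B6Line Q.K ∨ ∃ c, B6Tri Q.K c) := by
  obtain ⟨Q', hQ', h0', R, hR0, hR, hc, φ, hφ, hφ2⟩ := b6_blowdown hG hQ h0
  have hW' : B6W Q' (1 / 2) := by
    refine b6_W_closed hc (δ := 1 / 3) (by norm_num) (by norm_num) ?_
    exact (((hR.eventually_ge_atTop R0).mono fun k hk => hW (R k) hk (hR0 k))).frequently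
  rcases hG.cls Q' hQ' h0' φ hφ with ⟨h1, -, -⟩ | ⟨-, h1⟩
  · have h2 : ∀ r : ℝ, 0 < r → D Q r = 0 * r := by
      intro r hr
      have h3 := hφ2 r hr
      rw [h1] at h3
      have h4 := hG.Dnn Q hQ h0 r hr
      have h5 : D Q r ≤ 0 := by
        have := (div_le_iff₀ hr).1 h3
        linarith
      rw [zero_mul]
      exact le_antisymm h5 h4
    rcases hG.cls Q hQ h0 0 h2 with ⟨-, h5, h6⟩ | ⟨h5, -⟩
    · exact ⟨h5, h6⟩
    · norm_num at h5
  · exact absurd hW' (b6_tip_not_W h1)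

/-- the largest bad scale -/
theorem b6_bad (r : ℕ → ℝ) (Good : ℕ → ℝ → Prop)
    (h1 : ∀ ε : ℝ, 0 < ε → ∀ᶠ m in atTop, ∀ s, ε * r m ≤ s → s ≤ r m → Good m s)
    (h2 : ∀ (φ : ℕ → ℕ) (σ : ℕ → ℝ), StrictMono φ → (∀ k, 0 < σ k) → (∀ k, σ k ≤ r (φ k)) →
      (∀ ε : ℝ, 0 < ε → ∀ᶠ k in atTop, σ k ≤ ε * r (φ k)) →
      (∀ k, ∀ s, 2 * σ k ≤ s → s ≤ r (φ k) → Good (φ k) s) → ∃ k, Good (φ k) (σ k)) :
    ∀ᶠ m in atTop, ∀ s, 0 < s → s ≤ r m → Good m s := by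
  by_contra hcon
  have hfr : ∃ᶠ m in atTop, ∃ σ, 0 < σ ∧ σ ≤ r m ∧ ¬ Good m σ ∧
      ∀ s, 2 * σ ≤ s → s ≤ r m → Good m s := by
    rw [Filter.not_eventually] at hcon
    refine hcon.mono fun m hm => ?_
    push Not at hm
    obtain ⟨s0, hs0, hs0r, hs0b⟩ := hm
    set S : Set ℝ := {s | 0 < s ∧ s ≤ r m ∧ ¬ Good m s} with hS
    have hSn : S.Nonempty := ⟨s0, hs0, hs0r, hs0b⟩
    have hSb : BddAbove S := ⟨r m, fun s hs => hs.2.1⟩
    have hsup : 0 < sSup S := lt_of_lt_of_le hs0 (le_csSup hSb ⟨hs0, hs0r, hs0b⟩)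
    obtain ⟨σ, hσ, hσ2⟩ := exists_lt_of_lt_csSup hSn (half_lt_self hsup)
    refine ⟨σ, hσ.1, hσ.2.1, hσ.2.2, ?_⟩
    intro s hs hsr
    by_contra hb
    have : s ≤ sSup S := le_csSup hSb ⟨lt_of_lt_of_le (by linarith [hσ.1]) hs, hsr, hb⟩
    linarith
  obtain ⟨φ, hφ, hφ2⟩ := extraction_of_frequently_atTop hfr
  choose σ hσ0 hσr hσb hσg using hφ2
  obtain ⟨k, hk⟩ := h2 φ σ hφ hσ0 hσr (by
    intro ε hε
    filter_upwards [hφ.tendsto_atTop.eventually (h1 ε hε)] with k hk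
    by_contra hlt
    push Not at hlt
    exact hσb k (hk (σ k) hlt.le (hσr k))) hσg
  exact hσb k hk

/-- **Inward stability of small gradients.** -/
theorem b6_isW (hG : B6Class G D e1) {P : B6El} {x0 : ℂ} (hP : B6Loc G e1 P x0)
    {x : ℕ → ℂ} {r δ : ℕ → ℝ} (hx : ∀ m, x m ∈ P.K) (hx0 : Tendsto x atTop (𝓝 x0))
    (hr : ∀ m, 0 < r m) (hr0 : Tendsto r atTop (𝓝 0)) (hδ : ∀ m, 0 ≤ δ m)
    (hδ0 : Tendsto δ atTop (𝓝 0)) (hW : ∀ m, B6W (P.resc (x m) (r m)) (δ m)) :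
    ∀ᶠ m in atTop, ∀ s, 0 < s → s ≤ r m → B6W (P.resc (x m) s) (1 / 4) := by
  apply b6_bad r (fun m s => B6W (P.resc (x m) s) (1 / 4))
  · intro ε hε
    have h1 : ∀ᶠ m in atTop, δ m < ε / 4 := hδ0.eventually_lt_const (by positivity)
    filter_upwards [h1] with m hm s hs hsr
    have hs0 : 0 < s := lt_of_lt_of_le (mul_pos hε (hr m)) hs
    refine b6_W_mono (b6_W_small hs0 hsr (hδ m) (hW m)) ?_
    have h3 : r m / s ≤ 1 / ε := by
      rw [div_le_div_iff₀ hs0 hε]; linarith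
    calc δ m * (r m / s) ≤ (ε / 4) * (1 / ε) := by
          have := hδ m
          have : 0 < r m / s := div_pos (hr m) hs0
          gcongr
      _ = 1 / 4 := by field_simp
  · intro φ σ hφ hσ0 hσr hσs hgood
    have hσlim : Tendsto σ atTop (𝓝 0) := by
      refine squeeze_zero (fun k => (hσ0 k).le) hσr (hr0.comp hφ.tendsto_atTop)
    obtain ⟨ψ, hψ, Q, hQ, h0, hc, -⟩ := hP.cpt (fun k => x (φ k)) σ (fun k => hx _)
      (hx0.comp hφ.tendsto_atTop) hσ0 hσlim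
    have hz : B6Zero Q := by
      refine (b6_key hG hQ h0 (R0 := 2) ?_).1
      intro R hR2 hR
      refine b6_W_closed (b6_conv_resc hc hR) (δ := 1 / 4) (by norm_num) (by norm_num) ?_
      refine Eventually.frequently ?_
      filter_upwards [hψ.tendsto_atTop.eventually (hσs (1 / R) (by positivity))] with k hk
      rw [b6_resc_resc0 _ _ _ _ (hσ0 _).le]
      apply hgood
      · nlinarith [hσ0 (ψ k)]
      · rw [one_div, ← div_eq_inv_mul, le_div_iff₀ hR] at hk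
        exact hk
    have hev := b6_W_open hc (δ := 1 / 4) (by norm_num) (b6_W_of_zero hz (by norm_num))
    obtain ⟨k, hk⟩ := hev.exists
    exact ⟨ψ k, hk⟩

/-- limits at much smaller scales have zero gradient -/
theorem b6_lim_zero (hG : B6Class G D e1) {P : B6El} {x0 : ℂ} (hP : B6Loc G e1 P x0)
    {x : ℕ → ℂ} {r δ s : ℕ → ℝ} (hx : ∀ m, x m ∈ P.K) (hx0 : Tendsto x atTop (𝓝 x0))
    (hr : ∀ m, 0 < r m) (hr0 : Tendsto r atTop (𝓝 0)) (hδ : ∀ m, 0 ≤ δ m)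
    (hδ0 : Tendsto δ atTop (𝓝 0)) (hW : ∀ m, B6W (P.resc (x m) (r m)) (δ m))
    (hs : ∀ m, 0 < s m) (hsr : ∀ ε : ℝ, 0 < ε → ∀ᶠ m in atTop, s m ≤ ε * r m)
    {Q : B6El} (hQ : Q ∈ G) (h0 : (0 : ℂ) ∈ Q.K)
    (hc : B6Conv (fun m => P.resc (x m) (s m)) Q) :
    B6Zero Q ∧ (B6Line Q.K ∨ ∃ c, B6Tri Q.K c) := by
  have h1 := b6_isW hG hP hx hx0 hr hr0 hδ hδ0 hW
  refine b6_key hG hQ h0 (R0 := 0) ?_
  intro R _ hR
  refine b6_W_closed (b6_conv_resc hc hR) (δ := 1 / 4) (by norm_num) (by norm_num) ?_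
  refine Eventually.frequently ?_
  filter_upwards [h1, hsr (1 / R) (by positivity)] with m hm hk
  rw [b6_resc_resc0 _ _ _ _ (hs m).le]
  apply hm _ (mul_pos (hs m) hR)
  rw [one_div, ← div_eq_inv_mul, le_div_iff₀ hR] at hk
  exact hk

/-- **Inward stability of flatness.** -/
theorem b6_isF (hG : B6Class G D e1) {P : B6El} {x0 : ℂ} (hP : B6Loc G e1 P x0)
    {x : ℕ → ℂ} {r δ : ℕ → ℝ} (hx : ∀ m, x m ∈ P.K) (hx0 : Tendsto x atTop (𝓝 x0))
    (hr : ∀ m, 0 < r m) (hr0 : Tendsto r atTop (𝓝 0)) (hδ : ∀ m, 0 ≤ δ m)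
    (hδ0 : Tendsto δ atTop (𝓝 0)) (hW : ∀ m, B6W (P.resc (x m) (r m)) (δ m))
    (hF : ∀ m, FlatAt P.K (x m) (r m) (δ m)) :
    ∀ᶠ m in atTop, ∀ s, 0 < s → s ≤ r m → FlatAt P.K (x m) s (1 / 20) := by
  apply b6_bad r (fun m s => FlatAt P.K (x m) s (1 / 20))
  · intro ε hε
    have h1 : ∀ᶠ m in atTop, δ m < ε / 20 := hδ0.eventually_lt_const (by positivity)
    filter_upwards [h1] with m hm s hs hsr
    have hs0 : 0 < s := lt_of_lt_of_le (mul_pos hε (hr m)) hs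
    refine b6_flat_mono hs0.le (b6_flat_small hs0 hsr (hF m)) ?_
    have h3 : r m / s ≤ 1 / ε := by
      rw [div_le_div_iff₀ hs0 hε]; linarith
    calc δ m * (r m / s) ≤ (ε / 20) * (1 / ε) := by
          have := hδ m
          have : 0 < r m / s := div_pos (hr m) hs0
          gcongr
      _ = 1 / 20 := by field_simp
  · intro φ σ hφ hσ0 hσr hσs hgood
    have hσlim : Tendsto σ atTop (𝓝 0) := by
      refine squeeze_zero (fun k => (hσ0 k).le) hσr (hr0.comp hφ.tendsto_atTop)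
    obtain ⟨ψ, hψ, Q, hQ, h0, hc, -⟩ := hP.cpt (fun k => x (φ k)) σ (fun k => hx _)
      (hx0.comp hφ.tendsto_atTop) hσ0 hσlim
    have hφψ : Tendsto (fun k => φ (ψ k)) atTop atTop :=
      hφ.tendsto_atTop.comp hψ.tendsto_atTop
    have hz := b6_lim_zero hG hP (x := fun k => x (φ (ψ k))) (r := fun k => r (φ (ψ k)))
      (δ := fun k => δ (φ (ψ k))) (s := fun k => σ (ψ k)) (fun k => hx _) (hx0.comp hφψ)
      (fun k => hr _) (hr0.comp hφψ) (fun k => hδ _) (hδ0.comp hφψ) (fun k => hW _)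
      (fun k => hσ0 _) (fun ε hε => hψ.tendsto_atTop.eventually (hσs ε hε)) hQ h0 hc
    have hT : ∀ R : ℝ, 2 ≤ R → 0 < R → B6T (Q.resc 0 R).K (1 / 20) := by
      intro R hR2 hR
      refine b6_T_closed (b6_conv_resc hc hR) ?_
      refine Eventually.frequently ?_
      filter_upwards [hψ.tendsto_atTop.eventually (hσs (1 / R) (by positivity))] with k hk
      rw [b6_resc_resc0 _ _ _ _ (hσ0 _).le]
      apply b6_T_of_flat
      rw [b6_flatAt_resc1 (mul_pos (hσ0 _) hR)]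
      apply hgood
      · nlinarith [hσ0 (ψ k)]
      · rw [one_div, ← div_eq_inv_mul, le_div_iff₀ hR] at hk
        exact hk
    have hl : B6Line Q.K := by
      rcases hz.2 with h | ⟨c, hc'⟩
      · exact h
      · exact (b6_tri_not_flat hc' (R0 := 2) hT).elim
    obtain ⟨k, hk⟩ := (b6_flat_open hc hl (δ := 1 / 20) (by norm_num)).exists
    refine ⟨ψ k, ?_⟩
    rwa [b6_flatAt_resc1 (hσ0 _)] at hk

/-- limits at much smaller scales are lines -/
theorem b6_lim_line (hG : B6Class G D e1) {P : B6El} {x0 : ℂ} (hP : B6Loc G e1 P x0)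
    {x : ℕ → ℂ} {r δ s : ℕ → ℝ} (hx : ∀ m, x m ∈ P.K) (hx0 : Tendsto x atTop (𝓝 x0))
    (hr : ∀ m, 0 < r m) (hr0 : Tendsto r atTop (𝓝 0)) (hδ : ∀ m, 0 ≤ δ m)
    (hδ0 : Tendsto δ atTop (𝓝 0)) (hW : ∀ m, B6W (P.resc (x m) (r m)) (δ m))
    (hF : ∀ m, FlatAt P.K (x m) (r m) (δ m))
    (hs : ∀ m, 0 < s m) (hsr : ∀ ε : ℝ, 0 < ε → ∀ᶠ m in atTop, s m ≤ ε * r m)
    {Q : B6El} (hQ : Q ∈ G) (h0 : (0 : ℂ) ∈ Q.K)
    (hc : B6Conv (fun m => P.resc (x m) (s m)) Q) :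
    B6Zero Q ∧ B6Line Q.K := by
  have hz := b6_lim_zero hG hP hx hx0 hr hr0 hδ hδ0 hW hs hsr hQ h0 hc
  have h1 := b6_isF hG hP hx hx0 hr hr0 hδ hδ0 hW hF
  refine ⟨hz.1, ?_⟩
  rcases hz.2 with h | ⟨c, hc'⟩
  · exact h
  · exfalso
    refine b6_tri_not_flat hc' (R0 := 0) ?_
    intro R _ hR
    refine b6_T_closed (b6_conv_resc hc hR) ?_
    refine Eventually.frequently ?_
    filter_upwards [h1, hsr (1 / R) (by positivity)] with m hm hk
    rw [b6_resc_resc0 _ _ _ _ (hs m).le]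
    apply b6_T_of_flat
    rw [b6_flatAt_resc1 (mul_pos (hs _) hR)]
    apply hm _ (mul_pos (hs m) hR)
    rw [one_div, ← div_eq_inv_mul, le_div_iff₀ hR] at hk
    exact hk

end Pool.Agent.MP099f24
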