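import Mathlib
import Pool.Agent.Lib.MP_099f24_an.B6.Key

/-!
# MP_099f24, part B6: near-flatness of the models away from the centre, recentring, openness
-/

namespace Pool.Agent.MP099f24

open Filter Topology Set Metric
open scoped ComplexConjugate

theorem b6_om3_eq : om3 = ⟨-(1 / 2), Real.sqrt 3 / 2⟩ := by
  have h : om3 = ((Real.cos (2 * Real.pi / 3) : ℝ) : ℂ) +
      ((Real.sin (2 * Real.pi / 3) : ℝ) : ℂ) * Complex.I := by
    rw [om3, Complex.exp_mul_I]
    push_cast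
    rfl
  have hs : Real.sin (2 * Real.pi / 3) = Real.sqrt 3 / 2 := by
    rw [show 2 * Real.pi / 3 = Real.pi - Real.pi / 3 by ring, Real.sin_pi_sub,
      Real.sin_pi_div_three]
  have hcs : Real.cos (2 * Real.pi / 3) = -(1 / 2) := by
    rw [show 2 * Real.pi / 3 = Real.pi - Real.pi / 3 by ring, Real.cos_pi_sub,
      Real.cos_pi_div_three]
  rw [h, hs, hcs]
  apply Complex.ext
  · rw [Complex.add_re, Complex.ofReal_re, Complex.re_ofReal_mul, Complex.I_re]; ring
  · rw [Complex.add_im, Complex.ofReal_im, Complex.im_ofReal_mul, Complex.I_im]; ring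

theorem b6_om3_sq : om3 ^ 2 = ⟨-(1 / 2), -(Real.sqrt 3 / 2)⟩ := by
  have h3 : Real.sqrt 3 * Real.sqrt 3 = 3 := Real.mul_self_sqrt (by norm_num)
  rw [sq, b6_om3_eq]
  apply Complex.ext
  · rw [Complex.mul_re]
    simp only
    nlinarith
  · rw [Complex.mul_im]
    simp only
    ring

theorem b6_om3_re (i j : Fin 3) (hij : i ≠ j) :
    (om3 ^ (i : ℕ) * conj (om3 ^ (j : ℕ))).re = -(1 / 2) := by
  have h3 : Real.sqrt 3 * Real.sqrt 3 = 3 := Real.mul_self_sqrt (by norm_num)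
  fin_cases i <;> fin_cases j <;>
    first
      | exact absurd rfl hij
      | (simp only [pow_zero, pow_one, sq, b6_om3_eq, Complex.mul_re, Complex.mul_im,
          Complex.conj_re, Complex.conj_im, Complex.one_re, Complex.one_im, map_one]
         nlinarith)

theorem b6_om3_pow_norm (i : ℕ) : ‖om3 ^ i‖ = 1 := by
  rw [norm_pow, b6_om3_norm, one_pow]

/-- distance of points on two different arms -/
theorem b6_arms {e : ℂ} (he : ‖e‖ = 1) {i j : Fin 3} (hij : i ≠ j) {s t : ℝ} (hs : 0 ≤ s)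
    (ht : 0 ≤ t) : s ≤ ‖((t : ℂ) * (om3 ^ (j : ℕ) * e)) - (s : ℂ) * (om3 ^ (i : ℕ) * e)‖ := by
  have h1 : ((t : ℂ) * (om3 ^ (j : ℕ) * e)) - (s : ℂ) * (om3 ^ (i : ℕ) * e)
      = (t * om3 ^ (j : ℕ) - s * om3 ^ (i : ℕ)) * e := by ring
  rw [h1, norm_mul, he, mul_one]
  have h2 : ‖(t : ℂ) * om3 ^ (j : ℕ) - s * om3 ^ (i : ℕ)‖ ^ 2 = t ^ 2 + s ^ 2 + t * s := by
    rw [← Complex.normSq_eq_norm_sq, Complex.normSq_sub, Complex.normSq_mul, Complex.normSq_mul,
      Complex.normSq_eq_norm_sq (om3 ^ (j : ℕ)), Complex.normSq_eq_norm_sq (om3 ^ (i : ℕ)),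
      b6_om3_pow_norm, b6_om3_pow_norm, Complex.normSq_ofReal, Complex.normSq_ofReal]
    have h3 : ((t : ℂ) * om3 ^ (j : ℕ) * conj ((s : ℂ) * om3 ^ (i : ℕ))).re = t * s * (-(1 / 2)) := by
      rw [map_mul, Complex.conj_ofReal]
      have : (t : ℂ) * om3 ^ (j : ℕ) * ((s : ℂ) * conj (om3 ^ (i : ℕ)))
          = ((t * s : ℝ) : ℂ) * (om3 ^ (j : ℕ) * conj (om3 ^ (i : ℕ))) := by push_cast; ring
      rw [this, Complex.re_ofReal_mul, b6_om3_re j i (Ne.symm hij)]
    rw [h3]; ring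
  have h4 : s ^ 2 ≤ ‖(t : ℂ) * om3 ^ (j : ℕ) - s * om3 ^ (i : ℕ)‖ ^ 2 := by
    rw [h2]; nlinarith [mul_nonneg ht hs, sq_nonneg t]
  exact (sq_le_sq₀ hs (norm_nonneg _)).1 h4

/-- near every point of modulus about `1` the set is a line and the field is bounded -/
def B6NF (Q : B6El) : Prop := ∃ C : ℝ, 0 ≤ C ∧ ∀ z0 ∈ Q.K, 3 / 4 ≤ ‖z0‖ →
  ∃ e : ℂ, ‖e‖ = 1 ∧ (∀ z ∈ Q.K, ‖z - z0‖ ≤ 1 / 2 → ∃ t : ℝ, z = z0 + t * e) ∧
    (∀ t : ℝ, |t| ≤ 1 / 2 → z0 + t * e ∈ Q.K) ∧
    ∀ z : ℂ, z ∉ Q.K → ‖z - z0‖ ≤ 1 / 2 → ‖Q.g z‖ ≤ C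

theorem b6_tip_NF {Q : B6El} (h : B6Tip Q) : B6NF Q := by
  obtain ⟨e, he, hK, hg⟩ := h
  refine ⟨1, zero_le_one, ?_⟩
  intro z0 hz0 hn
  rw [hK] at hz0
  obtain ⟨τ, hτ, rfl⟩ := hz0
  rw [norm_mul, he, Complex.norm_real, Real.norm_of_nonneg hτ, mul_one] at hn
  refine ⟨e, he, ?_, ?_, ?_⟩
  · intro z hz _
    rw [hK] at hz
    obtain ⟨t, ht, rfl⟩ := hz
    exact ⟨t - τ, by push_cast; ring⟩
  · intro t ht
    rw [hK]
    refine ⟨τ + t, ?_, by push_cast; ring⟩
    have := (abs_le.1 ht).1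
    linarith
  · intro z hz hzn
    rw [hg z hz]
    have h1 : 1 / 4 ≤ ‖z‖ := by
      have h2 : ‖(τ : ℂ) * e‖ = τ := by
        rw [norm_mul, he, Complex.norm_real, Real.norm_of_nonneg hτ, mul_one]
      have h3 : ‖(τ : ℂ) * e‖ ≤ ‖z‖ + ‖z - τ * e‖ := by
        have := norm_sub_le z (z - τ * e)
        simpa using this
      linarith
    have h2 : 1 ≤ Real.sqrt (2 * Real.pi * ‖z‖) := by
      rw [Real.one_le_sqrt]
      have := Real.pi_gt_three
      nlinarith
    rw [div_le_one (by linarith)]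
    exact h2

theorem b6_tri_NF {Q : B6El} (h : B6Tri Q.K 0) (hz : B6Zero Q) : B6NF Q := by
  obtain ⟨e, he, hK⟩ := h
  refine ⟨0, le_refl _, ?_⟩
  intro z0 hz0 hn
  rw [hK] at hz0
  obtain ⟨i, τ, hτ, rfl⟩ := hz0
  rw [zero_add] at hn ⊢
  have hτn : ‖(τ : ℂ) * (om3 ^ (i : ℕ) * e)‖ = τ := by
    rw [norm_mul, norm_mul, b6_om3_pow_norm, he, Complex.norm_real, Real.norm_of_nonneg hτ]
    ring
  rw [hτn] at hn
  refine ⟨om3 ^ (i : ℕ) * e, by rw [norm_mul, b6_om3_pow_norm, he, one_mul], ?_, ?_, ?_⟩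
  · intro z hz hzn
    rw [hK] at hz
    obtain ⟨j, t, ht, rfl⟩ := hz
    rw [zero_add] at hzn ⊢
    by_cases hij : i = j
    · subst hij
      exact ⟨t - τ, by push_cast; ring⟩
    · exfalso
      have := b6_arms he hij hτ ht
      linarith
  · intro t ht
    rw [hK]
    refine ⟨i, τ + t, ?_, by push_cast; ring⟩
    have := (abs_le.1 ht).1
    linarith
  · intro z hzK _
    rw [hz z hzK, norm_zero]

/-- near flatness passes to nearby elements -/
theorem b6_NF_conv {Q : B6El} (h : B6NF Q) {δ : ℝ} (hδ : 0 < δ) : ∃ t0 : ℝ, 0 < t0 ∧ t0 ≤ 1 / 4 ∧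
    ∀ t : ℝ, 0 < t → t ≤ t0 → ∀ P : ℕ → B6El, B6Conv P Q → ∀ᶠ j in atTop, ∀ y ∈ (P j).K,
      ‖y‖ = 1 → B6W ((P j).resc y t) δ ∧ FlatAt (P j).K y t δ := by
  obtain ⟨C, hC, hN⟩ := h
  refine ⟨min (1 / 4) ((δ / (C + 1)) ^ 2), lt_min (by norm_num) (by positivity),
    min_le_left _ _, ?_⟩
  intro t ht ht0 P hc
  have ht4 : t ≤ 1 / 4 := ht0.trans (min_le_left _ _)
  have htC : t ≤ (δ / (C + 1)) ^ 2 := ht0.trans (min_le_right _ _)
  have hsq : √t * (C + 1) ≤ δ := by
    have h1 : √t ≤ δ / (C + 1) := by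
      rw [Real.sqrt_le_iff]
      exact ⟨by positivity, htC⟩
    calc √t * (C + 1) ≤ δ / (C + 1) * (C + 1) := by gcongr
      _ = δ := by field_simp
  set ε := min (δ * t / 4) (1 / 8) with hε
  have hε0 : 0 < ε := lt_min (by positivity) (by norm_num)
  have hε1 : ε ≤ δ * t / 4 := min_le_left _ _
  have hε2 : ε ≤ 1 / 8 := min_le_right _ _
  filter_upwards [hc.u1 2 ε hε0, hc.u2 (2 + δ) ε hε0,
    hc.g 2 (min (δ * t / 2) 1) (lt_min (by positivity) one_pos)] with j h1 h2 h3 y hy hyn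
  obtain ⟨z0, hz0, hyz⟩ := h1 y hy (by rw [hyn]; norm_num)
  have hz0n : 3 / 4 ≤ ‖z0‖ := by
    have : ‖y‖ ≤ ‖z0‖ + ‖y - z0‖ := by
      have := norm_add_le z0 (y - z0)
      simpa using this
    linarith
  have hz0n' : ‖z0‖ ≤ 9 / 8 := by
    have : ‖z0‖ ≤ ‖y‖ + ‖y - z0‖ := by
      have := norm_sub_le y (y - z0)
      simpa using this
    linarith
  obtain ⟨e, he, hline, hfull, hgC⟩ := hN z0 hz0 hz0n
  constructor
  · intro v hv hvK
    set p : ℂ := y + t * v with hp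
    have hpy : ‖p - y‖ ≤ t := by
      rw [hp, add_sub_cancel_left, norm_mul, Complex.norm_real, Real.norm_of_nonneg ht.le]
      nlinarith [norm_nonneg v]
    have hpn : ‖p‖ ≤ 5 / 4 := by
      have : ‖p‖ ≤ ‖y‖ + ‖p - y‖ := by
        have := norm_add_le y (p - y)
        simpa using this
      linarith
    have hpK : ∀ w ∈ (P j).K, δ * t ≤ ‖p - w‖ := by
      intro w hw
      have ht' : (t : ℂ) ≠ 0 := by exact_mod_cast ht.ne'
      have h5 := hvK ((w - y) / t) (by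
        simp only [B6El.resc, mem_ofPred_eq]
        rw [show y + (t : ℂ) * ((w - y) / t) = w by field_simp; ring]
        exact hw)
      have h6 : p - w = t * (v - (w - y) / t) := by rw [hp]; field_simp; ring
      rw [h6, norm_mul, Complex.norm_real, Real.norm_of_nonneg ht.le]
      nlinarith
    have hpQ : ∀ z ∈ Q.K, δ * t / 2 ≤ ‖p - z‖ := by
      intro z hz
      by_contra hlt
      push Not at hlt
      have hzn : ‖z‖ ≤ 2 + δ := by
        have : ‖z‖ ≤ ‖p‖ + ‖p - z‖ := by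
          have := norm_sub_le p (p - z)
          simpa using this
        nlinarith
      obtain ⟨w, hw, hwz⟩ := h2 z hz hzn
      have h5 := hpK w hw
      have h6 : ‖p - w‖ ≤ ‖p - z‖ + ‖w - z‖ := by
        have := norm_sub_le (p - z) (w - z)
        simpa using this
      nlinarith [mul_pos hδ ht]
    have h7 := h3 p (by linarith) (fun z hz => (min_le_left _ _).trans (hpQ z hz))
    have hpz : ‖p - z0‖ ≤ 1 / 2 := by
      have : ‖p - z0‖ ≤ ‖p - y‖ + ‖y - z0‖ := by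
        have := norm_add_le (p - y) (y - z0)
        simpa using this
      linarith
    have hpnot : p ∉ Q.K := by
      intro hpQK
      have := hpQ p hpQK
      rw [sub_self, norm_zero] at this
      nlinarith [mul_pos hδ ht]
    have h8 := hgC p hpnot hpz
    have h9 : ‖(P j).g p‖ ≤ C + 1 := by
      have h10 : ‖(P j).g p‖ ≤ ‖Q.g p‖ + ‖(P j).g p - Q.g p‖ := by
        have := norm_add_le (Q.g p) ((P j).g p - Q.g p)
        simpa using this
      have := h7.trans (min_le_right _ _)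
      linarith
    simp only [B6El.resc]
    rw [norm_mul, Complex.norm_real, Real.norm_of_nonneg (Real.sqrt_nonneg _)]
    calc √t * ‖(P j).g (y + t * v)‖ ≤ √t * (C + 1) := by gcongr
      _ ≤ δ := hsq
  · refine ⟨e, he, ?_, ?_⟩
    · intro w hw hwy
      have hwn : ‖w‖ ≤ 2 := by
        have : ‖w‖ ≤ ‖y‖ + ‖w - y‖ := by
          have := norm_add_le y (w - y)
          simpa using this
        linarith
      obtain ⟨z, hz, hwz⟩ := h1 w hw hwn
      have hzz0 : ‖z - z0‖ ≤ 1 / 2 := by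
        have h5 : z - z0 = -(w - z) + (w - y) + (y - z0) := by ring
        have h6 : ‖z - z0‖ ≤ ‖w - z‖ + ‖w - y‖ + ‖y - z0‖ := by
          rw [h5]
          refine (norm_add_le _ _).trans ?_
          have := norm_add_le (-(w - z)) (w - y)
          rw [norm_neg] at this
          linarith
        linarith
      obtain ⟨s, hs⟩ := hline z hz hzz0
      have h5 : w - y = (w - z) + s * e + (z0 - y) := by rw [hs]; ring
      rw [h5, add_mul, add_mul, Complex.add_im, Complex.add_im, b6_im_real, add_zero]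
      calc |((w - z) * conj e).im + ((z0 - y) * conj e).im|
          ≤ |((w - z) * conj e).im| + |((z0 - y) * conj e).im| := abs_add_le _ _
        _ ≤ ‖w - z‖ + ‖z0 - y‖ := add_le_add (b6_im_le _ e he) (b6_im_le _ e he)
        _ ≤ ε + ε := by rw [norm_sub_rev z0 y]; linarith
        _ ≤ δ * t := by nlinarith [mul_pos hδ ht]
    · intro s hs
      obtain ⟨w, hw, hwz⟩ := h2 (z0 + s * e) (hfull s (by linarith)) (by
        refine (norm_add_le _ _).trans ?_
        rw [norm_mul, he, Complex.norm_real, mul_one, Real.norm_eq_abs]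
        linarith)
      refine ⟨w, hw, ?_⟩
      have h5 : w - (y + s * e) = (w - (z0 + s * e)) - (y - z0) := by ring
      rw [h5]
      refine (norm_sub_le _ _).trans ?_
      nlinarith [mul_pos hδ ht]

/-- recentring of the gradient bound -/
theorem b6_W_recentre {P : B6El} {x x' : ℂ} {r δ : ℝ} (hr : 0 < r) (hd : ‖x' - x‖ ≤ r / 2)
    (hδ : 0 ≤ δ) (h : B6W (P.resc x r) δ) : B6W (P.resc x' (r / 2)) (2 * δ) := by
  intro v hv hvK
  have hr' : (r : ℂ) ≠ 0 := by exact_mod_cast hr.ne'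
  set u : ℂ := (x' - x) / r + v / 2 with hu
  have hxu : x + r * u = x' + ((r / 2 : ℝ) : ℂ) * v := by
    rw [hu]; push_cast; field_simp; ring
  have hun : ‖u‖ < 1 := by
    calc ‖u‖ ≤ ‖(x' - x) / r‖ + ‖v / 2‖ := norm_add_le _ _
      _ ≤ 1 / 2 + ‖v‖ / 2 := by
          rw [norm_div, norm_div, Complex.norm_real, Real.norm_of_nonneg hr.le]
          have h1 : ‖x' - x‖ / r ≤ 1 / 2 := by
            rw [div_le_iff₀ hr]; linarith
          have h2 : ‖(2 : ℂ)‖ = 2 := by norm_num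
          rw [h2]
          linarith
      _ < 1 := by linarith
  have h1 := h u hun (by
    intro z hz
    simp only [B6El.resc, mem_ofPred_eq] at hz
    have h2 := hvK (2 * (z - (x' - x) / r)) (by
      simp only [B6El.resc, mem_ofPred_eq]
      have : x' + ((r / 2 : ℝ) : ℂ) * (2 * (z - (x' - x) / r)) = x + r * z := by
        push_cast; field_simp; ring
      rw [this]; exact hz)
    have h3 : v - 2 * (z - (x' - x) / r) = 2 * (u - z) := by rw [hu]; ring
    rw [h3, norm_mul] at h2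
    have h4 : ‖(2 : ℂ)‖ = 2 := by norm_num
    rw [h4] at h2
    linarith)
  simp only [B6El.resc] at h1 ⊢
  rw [hxu, norm_mul, Complex.norm_real, Real.norm_of_nonneg (Real.sqrt_nonneg _)] at h1
  rw [norm_mul, Complex.norm_real, Real.norm_of_nonneg (Real.sqrt_nonneg _)]
  calc √(r / 2) * ‖P.g (x' + ((r / 2 : ℝ) : ℂ) * v)‖
      ≤ √r * ‖P.g (x' + ((r / 2 : ℝ) : ℂ) * v)‖ := by
        have : √(r / 2) ≤ √r := Real.sqrt_le_sqrt (by linarith)
        gcongr
    _ ≤ δ := h1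
    _ ≤ 2 * δ := by linarith

/-- recentring of flatness -/
theorem b6_flat_recentre {K : Set ℂ} {x x' : ℂ} {r δ : ℝ} (hr : 0 < r) (hx' : x' ∈ K)
    (hd : ‖x' - x‖ ≤ r / 2) (h : FlatAt K x r δ) : FlatAt K x' (r / 2) (4 * δ) := by
  obtain ⟨e, he, h1, h2⟩ := h
  have hx'1 := h1 x' hx' (by linarith)
  have hee : conj e * e = 1 := by
    rw [mul_comm, Complex.mul_conj, Complex.normSq_eq_norm_sq, he]; simp
  refine ⟨e, he, ?_, ?_⟩
  · intro y hy hyn
    have h3 := h1 y hy (by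
      have : ‖y - x‖ ≤ ‖y - x'‖ + ‖x' - x‖ := by
        have := norm_add_le (y - x') (x' - x)
        simpa using this
      linarith)
    have h4 : ((y - x') * conj e).im = ((y - x) * conj e).im - ((x' - x) * conj e).im := by
      rw [← Complex.sub_im]; congr 1; ring
    rw [h4]
    calc |((y - x) * conj e).im - ((x' - x) * conj e).im|
        ≤ |((y - x) * conj e).im| + |((x' - x) * conj e).im| := abs_sub _ _
      _ ≤ δ * r + δ * r := add_le_add h3 hx'1
      _ = 4 * δ * (r / 2) := by ring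
  · intro t ht
    set t0 : ℝ := ((x' - x) * conj e).re with ht0
    have ht0n : |t0| ≤ r / 2 := by
      calc |t0| ≤ ‖(x' - x) * conj e‖ := Complex.abs_re_le_norm _
        _ = ‖x' - x‖ := by rw [norm_mul, Complex.norm_conj, he, mul_one]
        _ ≤ r / 2 := hd
    obtain ⟨y, hy, hy2⟩ := h2 (t0 + t) ((abs_add_le _ _).trans (by linarith))
    refine ⟨y, hy, ?_⟩
    have h5 : x' - (x + t0 * e) = (((x' - x) * conj e).im : ℂ) * Complex.I * e := by
      have h6 : (x' - x) = ((x' - x) * conj e) * e := by rw [mul_assoc, hee, mul_one]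
      have h7 : ((x' - x) * conj e) = (t0 : ℂ) + (((x' - x) * conj e).im : ℂ) * Complex.I :=
        (Complex.re_add_im _).symm
      have h8 : x' - x = (t0 : ℂ) * e + (((x' - x) * conj e).im : ℂ) * Complex.I * e := by
        calc x' - x = ((x' - x) * conj e) * e := h6
          _ = ((t0 : ℂ) + (((x' - x) * conj e).im : ℂ) * Complex.I) * e := by rw [← h7]
          _ = _ := by ring
      linear_combination h8
    have h9 : ‖x' - (x + t0 * e)‖ ≤ δ * r := by
      rw [h5, norm_mul, norm_mul, he, Complex.norm_I, Complex.norm_real, mul_one, mul_one]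
      exact hx'1
    have h10 : y - (x' + t * e) = (y - (x + ((t0 + t : ℝ) : ℂ) * e)) - (x' - (x + t0 * e)) := by
      push_cast; ring
    rw [h10]
    refine (norm_sub_le _ _).trans ?_
    linarith

/-- flatness is open at elements which are lines in the disc of radius 2 -/
theorem b6_flat_open_loc {P : ℕ → B6El} {Q : B6El} (hc : B6Conv P Q) {e : ℂ} (he : ‖e‖ = 1)
    (h1 : ∀ z ∈ Q.K, ‖z‖ < 2 → ∃ t : ℝ, z = t * e) (h2 : ∀ t : ℝ, |t| ≤ 1 → (t : ℂ) * e ∈ Q.K)
    {δ : ℝ} (hδ : 0 < δ) : ∀ᶠ j in atTop, FlatAt (P j).K 0 1 δ := by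
  filter_upwards [hc.u1 1 (min δ 1) (lt_min hδ one_pos), hc.u2 1 δ hδ] with j h3 h4
  refine ⟨e, he, ?_, ?_⟩
  · intro y hy hyn
    rw [sub_zero] at hyn ⊢
    obtain ⟨z, hz, hyz⟩ := h3 y hy hyn
    have hzn : ‖z‖ < 2 := by
      have : ‖z‖ ≤ ‖y‖ + ‖y - z‖ := by
        have := norm_sub_le y (y - z)
        simpa using this
      have := min_le_right δ 1
      linarith
    obtain ⟨t, rfl⟩ := h1 z hz hzn
    have e1 : (y * conj e).im = ((y - t * e) * conj e).im := by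
      rw [sub_mul, Complex.sub_im, b6_im_real, sub_zero]
    rw [e1, mul_one]
    exact (b6_im_le _ e he).trans (hyz.le.trans (min_le_left _ _))
  · intro t ht
    obtain ⟨y, hy, hy2⟩ := h4 (t * e) (h2 t ht) (by
      rw [norm_mul, he, Complex.norm_real, mul_one]; exact ht)
    exact ⟨y, hy, by rw [zero_add, mul_one]; exact hy2.le⟩

/-- the propeller is open -/
theorem b6_tri_open {P : ℕ → B6El} {Q : B6El} (hc : B6Conv P Q) (hl : B6Tri Q.K 0) {δ : ℝ}
    (hδ : 0 < δ) : ∀ᶠ j in atTop, ∃ e, TripodDir (P j).K 0 1 δ e := by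
  obtain ⟨e, he, hK⟩ := hl
  filter_upwards [hc.u1 1 δ hδ, hc.u2 1 δ hδ] with j h1 h2
  refine ⟨e, he, ?_, ?_⟩
  · intro y hy hyn
    rw [sub_zero] at hyn
    obtain ⟨z, hz, hyz⟩ := h1 y hy hyn
    rw [hK] at hz
    obtain ⟨i, t, ht, rfl⟩ := hz
    exact ⟨i, t, ht, by rw [mul_one]; exact hyz.le⟩
  · intro i t ht ht1
    obtain ⟨y, hy, hy2⟩ := h2 (0 + t * (om3 ^ (i : ℕ) * e)) (by rw [hK]; exact ⟨i, t, ht, rfl⟩) (by
      rw [zero_add, norm_mul, norm_mul, b6_om3_pow_norm, he, Complex.norm_real,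
        Real.norm_of_nonneg ht]
      linarith)
    exact ⟨y, hy, by rw [mul_one]; exact hy2.le⟩

/-- the ray is open -/
theorem b6_ray_open {P : ℕ → B6El} {Q : B6El} (hc : B6Conv P Q) (hl : B6Tip Q) {δ : ℝ}
    (hδ : 0 < δ) : ∀ᶠ j in atTop, ∃ e, RayDir (P j).K 0 1 δ e := by
  obtain ⟨e, he, hK, -⟩ := hl
  filter_upwards [hc.u1 1 δ hδ, hc.u2 1 δ hδ] with j h1 h2
  refine ⟨e, he, ?_, ?_⟩
  · intro y hy hyn
    rw [sub_zero] at hyn
    obtain ⟨z, hz, hyz⟩ := h1 y hy hyn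
    rw [hK] at hz
    obtain ⟨t, ht, rfl⟩ := hz
    exact ⟨t, ht, by rw [mul_one, zero_add]; exact hyz.le⟩
  · intro t ht ht1
    obtain ⟨y, hy, hy2⟩ := h2 (t * e) (by rw [hK]; exact ⟨t, ht, rfl⟩) (by
      rw [norm_mul, he, Complex.norm_real, Real.norm_of_nonneg ht]
      linarith)
    exact ⟨y, hy, by rw [mul_one, zero_add]; exact hy2.le⟩

theorem b6_tripod_resc {K : Set ℂ} {x : ℂ} {r ε : ℝ} (hr : 0 < r) {e : ℂ}
    (h : TripodDir {z : ℂ | x + r * z ∈ K} 0 1 ε e) : TripodDir K x r ε e := by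
  obtain ⟨he, h1, h2⟩ := h
  have hr' : (r : ℂ) ≠ 0 := by exact_mod_cast hr.ne'
  have hn : ∀ w : ℂ, ‖(r : ℂ) * w‖ = r * ‖w‖ := by
    intro w
    rw [norm_mul, Complex.norm_real, Real.norm_of_nonneg hr.le]
  refine ⟨he, ?_, ?_⟩
  · intro z hz hzn
    have e1 : x + (r : ℂ) * (((z - x) / r)) = z := by field_simp; ring
    have e2 : z - x = r * ((z - x) / r - 0) := by field_simp; ring
    obtain ⟨i, t, ht, h3⟩ := h1 ((z - x) / r) (by simp only [mem_ofPred_eq, e1]; exact hz) (by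
      rw [e2, hn] at hzn
      have : r * ‖(z - x) / r - 0‖ ≤ r * 1 := by linarith
      exact le_of_mul_le_mul_left this hr)
    refine ⟨i, r * t, by positivity, ?_⟩
    have e3 : z - (x + ((r * t : ℝ) : ℂ) * (om3 ^ (i : ℕ) * e))
        = r * ((z - x) / r - (0 + t * (om3 ^ (i : ℕ) * e))) := by
      push_cast; field_simp; ring
    rw [e3, hn]
    nlinarith
  · intro i t ht ht1
    obtain ⟨w, hw, hw2⟩ := h2 i (t / r) (by positivity) (by rw [div_le_one hr]; exact ht1)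
    refine ⟨x + r * w, hw, ?_⟩
    have e3 : x + r * w - (x + t * (om3 ^ (i : ℕ) * e))
        = r * (w - (0 + ((t / r : ℝ) : ℂ) * (om3 ^ (i : ℕ) * e))) := by
      push_cast; field_simp; ring
    rw [e3, hn]
    nlinarith

theorem b6_ray_resc {K : Set ℂ} {x : ℂ} {r ε : ℝ} (hr : 0 < r) {e : ℂ}
    (h : RayDir {z : ℂ | x + r * z ∈ K} 0 1 ε e) : RayDir K x r ε e := by
  obtain ⟨he, h1, h2⟩ := h
  have hr' : (r : ℂ) ≠ 0 := by exact_mod_cast hr.ne'
  have hn : ∀ w : ℂ, ‖(r : ℂ) * w‖ = r * ‖w‖ := by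
    intro w
    rw [norm_mul, Complex.norm_real, Real.norm_of_nonneg hr.le]
  refine ⟨he, ?_, ?_⟩
  · intro z hz hzn
    have e1 : x + (r : ℂ) * (((z - x) / r)) = z := by field_simp; ring
    have e2 : z - x = r * ((z - x) / r - 0) := by field_simp; ring
    obtain ⟨t, ht, h3⟩ := h1 ((z - x) / r) (by simp only [mem_ofPred_eq, e1]; exact hz) (by
      rw [e2, hn] at hzn
      have : r * ‖(z - x) / r - 0‖ ≤ r * 1 := by linarith
      exact le_of_mul_le_mul_left this hr)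
    refine ⟨r * t, by positivity, ?_⟩
    have e3 : z - (x + ((r * t : ℝ) : ℂ) * e) = r * ((z - x) / r - (0 + t * e)) := by
      push_cast; field_simp; ring
    rw [e3, hn]
    nlinarith
  · intro t ht ht1
    obtain ⟨w, hw, hw2⟩ := h2 (t / r) (by positivity) (by rw [div_le_one hr]; exact ht1)
    refine ⟨x + r * w, hw, ?_⟩
    have e3 : x + r * w - (x + t * e) = r * (w - (0 + ((t / r : ℝ) : ℂ) * e)) := by
      push_cast; field_simp; ring
    rw [e3, hn]
    nlinarith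

end Pool.Agent.MP099f24
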