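import Mathlib
import Pool.Agent.Lib.MP_099f24_an.B6.Near

/-!
# MP_099f24, part B6: the structure theorem for blow-ups
-/

namespace Pool.Agent.MP099f24

open Filter Topology Set Metric
open scoped ComplexConjugate

variable {G : Set B6El} {D : B6El → ℝ → ℝ} {e1 : B6El → ℝ}

/-- there are arbitrarily small scales with small gradient -/
def B6H0 (P : B6El) (x0 : ℂ) : Prop :=
  ∀ δ ρ : ℝ, 0 < δ → 0 < ρ → ∃ r : ℝ, 0 < r ∧ r < ρ ∧ B6W (P.resc x0 r) δ

/-- there are arbitrarily small scales with small gradient and small flatness -/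
def B6H0L (P : B6El) (x0 : ℂ) : Prop :=
  ∀ δ ρ : ℝ, 0 < δ → 0 < ρ → ∃ r : ℝ, 0 < r ∧ r < ρ ∧ B6W (P.resc x0 r) δ ∧ FlatAt P.K x0 r δ

theorem b6_inv_tendsto (a : ℝ) : Tendsto (fun n : ℕ => a / ((n : ℝ) + 1)) atTop (𝓝 0) := by
  have h := (tendsto_one_div_add_atTop_nhds_zero_nat (𝕜 := ℝ)).const_mul a
  rw [mul_zero] at h
  refine h.congr fun n => ?_
  ring

theorem b6_extract {x : ℕ → ℂ} {x0 : ℂ} (hx0 : Tendsto x atTop (𝓝 x0)) {s : ℕ → ℝ}
    (hs0 : Tendsto s atTop (𝓝 0)) {r : ℕ → ℝ} (hr : ∀ i, 0 < r i) :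
    ∃ φ : ℕ → ℕ, StrictMono φ ∧ ∀ i, ‖x (φ i) - x0‖ ≤ r i / 2 ∧
      s (φ i) ≤ r i / ((i : ℝ) + 1) := by
  refine extraction_forall_of_eventually
    (P := fun i j => ‖x j - x0‖ ≤ r i / 2 ∧ s j ≤ r i / ((i : ℝ) + 1)) ?_
  intro i
  have h1 : ∀ᶠ j in atTop, ‖x j - x0‖ < r i / 2 := by
    have := (tendsto_iff_norm_sub_tendsto_zero.1 hx0)
    exact this.eventually_lt_const (by have := hr i; positivity)
  have h2 : ∀ᶠ j in atTop, s j < r i / ((i : ℝ) + 1) :=
    hs0.eventually_lt_const (by have := hr i; positivity)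
  filter_upwards [h1, h2] with j hj1 hj2
  exact ⟨hj1.le, hj2.le⟩

theorem b6_hsr {r s : ℕ → ℝ} (hr : ∀ i, 0 < r i) (h : ∀ i : ℕ, s i ≤ r i / ((i : ℝ) + 1)) :
    ∀ ε : ℝ, 0 < ε → ∀ᶠ m in atTop, s m ≤ ε * (r m / 2) := by
  intro ε hε
  filter_upwards [(b6_inv_tendsto 2).eventually_lt_const hε] with m hm
  have hm1 : (0 : ℝ) < (m : ℝ) + 1 := by positivity
  calc s m ≤ r m / ((m : ℝ) + 1) := h m
    _ = (2 / ((m : ℝ) + 1)) * (r m / 2) := by field_simp
    _ ≤ ε * (r m / 2) := by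
        have := hr m
        gcongr

/-- all limits near `x0` have zero gradient -/
theorem b6_near_zero (hG : B6Class G D e1) {P : B6El} {x0 : ℂ} (hP : B6Loc G e1 P x0)
    (hH : B6H0 P x0) {x : ℕ → ℂ} {s : ℕ → ℝ} (hx : ∀ j, x j ∈ P.K)
    (hx0 : Tendsto x atTop (𝓝 x0)) (hs : ∀ j, 0 < s j) (hs0 : Tendsto s atTop (𝓝 0))
    {Q : B6El} (hQ : Q ∈ G) (h0 : (0 : ℂ) ∈ Q.K)
    (hc : B6Conv (fun j => P.resc (x j) (s j)) Q) :
    B6Zero Q ∧ (B6Line Q.K ∨ ∃ c, B6Tri Q.K c) := by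
  have hpos : ∀ i : ℕ, (0 : ℝ) < 1 / ((i : ℝ) + 1) := fun i => by positivity
  choose r hr hr1 hrW using fun i : ℕ => hH (1 / ((i : ℝ) + 1)) (1 / ((i : ℝ) + 1)) (hpos i) (hpos i)
  have hr0 : Tendsto (fun i => r i / 2) atTop (𝓝 0) := by
    refine squeeze_zero (fun i => by have := hr i; positivity) (fun i => ?_) (b6_inv_tendsto 1)
    have := hr i
    have := hr1 i
    linarith
  obtain ⟨φ, hφ, hφ2⟩ := b6_extract hx0 hs0 hr
  refine b6_lim_zero hG hP (x := fun i => x (φ i)) (r := fun i => r i / 2)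
    (δ := fun i => 2 * (1 / ((i : ℝ) + 1))) (s := fun i => s (φ i)) (fun i => hx _)
    (hx0.comp hφ.tendsto_atTop) (fun i => by have := hr i; positivity) hr0
    (fun i => by positivity) ?_ ?_ (fun i => hs _) (b6_hsr hr (fun i => (hφ2 i).2)) hQ h0
    (b6_conv_sub hc hφ.tendsto_atTop)
  · have h := (b6_inv_tendsto 1).const_mul 2
    rwa [mul_zero] at h
  · intro i
    exact b6_W_recentre (hr i) (hφ2 i).1 (hpos i).le (hrW i)

/-- all limits near `x0` are lines -/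
theorem b6_near_line (hG : B6Class G D e1) {P : B6El} {x0 : ℂ} (hP : B6Loc G e1 P x0)
    (hH : B6H0L P x0) {x : ℕ → ℂ} {s : ℕ → ℝ} (hx : ∀ j, x j ∈ P.K)
    (hx0 : Tendsto x atTop (𝓝 x0)) (hs : ∀ j, 0 < s j) (hs0 : Tendsto s atTop (𝓝 0))
    {Q : B6El} (hQ : Q ∈ G) (h0 : (0 : ℂ) ∈ Q.K)
    (hc : B6Conv (fun j => P.resc (x j) (s j)) Q) :
    B6Zero Q ∧ B6Line Q.K := by
  have hpos : ∀ i : ℕ, (0 : ℝ) < 1 / ((i : ℝ) + 1) := fun i => by positivity
  choose r hr hr1 hrW hrF using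
    fun i : ℕ => hH (1 / ((i : ℝ) + 1)) (1 / ((i : ℝ) + 1)) (hpos i) (hpos i)
  have hr0 : Tendsto (fun i => r i / 2) atTop (𝓝 0) := by
    refine squeeze_zero (fun i => by have := hr i; positivity) (fun i => ?_) (b6_inv_tendsto 1)
    have := hr i
    have := hr1 i
    linarith
  obtain ⟨φ, hφ, hφ2⟩ := b6_extract hx0 hs0 hr
  refine b6_lim_line hG hP (x := fun i => x (φ i)) (r := fun i => r i / 2)
    (δ := fun i => 4 * (1 / ((i : ℝ) + 1))) (s := fun i => s (φ i)) (fun i => hx _)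
    (hx0.comp hφ.tendsto_atTop) (fun i => by have := hr i; positivity) hr0
    (fun i => by positivity) ?_ ?_ ?_ (fun i => hs _) (b6_hsr hr (fun i => (hφ2 i).2)) hQ h0
    (b6_conv_sub hc hφ.tendsto_atTop)
  · have h := (b6_inv_tendsto 1).const_mul 4
    rwa [mul_zero] at h
  · intro i
    refine b6_W_mono (b6_W_recentre (hr i) (hφ2 i).1 (hpos i).le (hrW i)) ?_
    have := hpos i
    linarith
  · intro i
    exact b6_flat_recentre (hr i) (hx _) (hφ2 i).1 (hrF i)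

/-- at a line limit the sequence is eventually line-good -/
theorem b6_lineGood_of_lim (hG : B6Class G D e1) {P : B6El} {x : ℕ → ℂ} {s : ℕ → ℝ}
    (hs : ∀ j, 0 < s j) {Q : B6El} (hQ : Q ∈ G) (hz : B6Zero Q) (hl : B6Line Q.K)
    (hc : B6Conv (fun j => P.resc (x j) (s j)) Q)
    (he : ∀ ε : ℝ, 0 < ε → ∀ᶠ j in atTop, e1 (P.resc (x j) (s j)) ≤ e1 Q + ε) {δ : ℝ}
    (hδ : 0 < δ) : ∀ᶠ j in atTop, B6LineGood e1 P δ (x j) (s j) := by
  have he2 := hG.eline Q hQ hl hz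
  filter_upwards [b6_flat_open hc hl hδ, b6_W_open hc hδ (b6_W_of_zero hz (half_pos hδ)),
    he δ hδ] with j h1 h2 h3
  exact ⟨(b6_flatAt_resc1 (hs j)).1 h1, h2, by linarith⟩

/-- the near-flatness conclusion -/
theorem b6_near_of_NF (hG : B6Class G D e1) {P : B6El} {x0 : ℂ} (hP : B6Loc G e1 P x0)
    (hall : ∀ (r : ℕ → ℝ) (Q : B6El), (∀ j, 0 < r j) → Tendsto r atTop (𝓝 0) → Q ∈ G →
      (0 : ℂ) ∈ Q.K → B6Conv (fun j => P.resc x0 (r j)) Q → B6NF Q) : B6Near e1 P x0 := by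
  intro δ hδ
  by_contra hcon
  push Not at hcon
  have hpos : ∀ i : ℕ, (0 : ℝ) < 1 / ((i : ℝ) + 1) := fun i => by positivity
  choose x hxK hxne hxr r hr hrc hbad using
    fun i : ℕ => hcon (1 / ((i : ℝ) + 1)) (hpos i) (1 / ((i : ℝ) + 1)) (hpos i)
  set ρ : ℕ → ℝ := fun i => ‖x i - x0‖ with hρ
  have hρ0 : ∀ i, 0 < ρ i := fun i => norm_pos_iff.2 (sub_ne_zero.2 (hxne i))
  have hρlim : Tendsto ρ atTop (𝓝 0) :=
    squeeze_zero (fun i => (hρ0 i).le) (fun i => (hxr i).le) (b6_inv_tendsto 1)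
  obtain ⟨φ, hφ, Q, hQ, h0, hc, -⟩ := hP.cpt (fun _ => x0) ρ (fun _ => hP.mem)
    tendsto_const_nhds hρ0 hρlim
  have hNF : B6NF Q := hall (fun j => ρ (φ j)) Q (fun j => hρ0 _) (hρlim.comp hφ.tendsto_atTop)
    hQ h0 hc
  choose t0 ht0 ht04 hT using fun k : ℕ => b6_NF_conv hNF (hpos k)
  -- diagonal subsequence
  have hdiag : ∀ k : ℕ, ∀ᶠ j in atTop,
      (∀ y ∈ (P.resc x0 (ρ (φ j))).K, ‖y‖ = 1 →
        B6W ((P.resc x0 (ρ (φ j))).resc y (t0 k)) (1 / ((k : ℝ) + 1)) ∧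
        FlatAt (P.resc x0 (ρ (φ j))).K y (t0 k) (1 / ((k : ℝ) + 1))) ∧
      r (φ j) ≤ (ρ (φ j) * t0 k) / ((k : ℝ) + 1) := by
    intro k
    have h1 := hT k (t0 k) (ht0 k) le_rfl _ hc
    have h2 : ∀ᶠ j in atTop, 1 / ((φ j : ℝ) + 1) < t0 k / ((k : ℝ) + 1) := by
      have h3 := (b6_inv_tendsto 1).comp hφ.tendsto_atTop
      exact h3.eventually_lt_const (by have := ht0 k; positivity)
    filter_upwards [h1, h2] with j hj1 hj2
    refine ⟨hj1, ?_⟩
    calc r (φ j) ≤ 1 / ((φ j : ℝ) + 1) * ρ (φ j) := hrc (φ j)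
      _ ≤ t0 k / ((k : ℝ) + 1) * ρ (φ j) := by
          have := (hρ0 (φ j)).le
          gcongr
      _ = _ := by ring
  obtain ⟨ψ, hψ, hψ2⟩ := extraction_forall_of_eventually hdiag
  have hφψ : Tendsto (fun k => φ (ψ k)) atTop atTop := hφ.tendsto_atTop.comp hψ.tendsto_atTop
  have hxlim : Tendsto x atTop (𝓝 x0) :=
    tendsto_iff_norm_sub_tendsto_zero.2 hρlim
  -- the unit point
  have hy : ∀ i : ℕ, ‖(x i - x0) / (ρ i : ℂ)‖ = 1 ∧ x0 + (ρ i : ℂ) * ((x i - x0) / (ρ i : ℂ)) = x i ∧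
      (x i - x0) / (ρ i : ℂ) ∈ (P.resc x0 (ρ i)).K := by
    intro i
    have hne : (ρ i : ℂ) ≠ 0 := by exact_mod_cast (hρ0 i).ne'
    have e2 : x0 + (ρ i : ℂ) * ((x i - x0) / (ρ i : ℂ)) = x i := by field_simp; ring
    refine ⟨?_, e2, ?_⟩
    · rw [norm_div, Complex.norm_real, Real.norm_of_nonneg (hρ0 i).le]
      exact div_self (hρ0 i).ne'
    · simp only [B6El.resc, mem_ofPred_eq, e2]
      exact hxK i
  have hW : ∀ k, B6W (P.resc (x (φ (ψ k))) (ρ (φ (ψ k)) * t0 k)) (1 / ((k : ℝ) + 1)) := by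
    intro k
    have h1 := ((hψ2 k).1 _ (hy (φ (ψ k))).2.2 (hy (φ (ψ k))).1).1
    rwa [b6_resc_resc _ _ _ _ _ (hρ0 _).le, (hy (φ (ψ k))).2.1] at h1
  have hF : ∀ k, FlatAt P.K (x (φ (ψ k))) (ρ (φ (ψ k)) * t0 k) (1 / ((k : ℝ) + 1)) := by
    intro k
    have h1 := ((hψ2 k).1 _ (hy (φ (ψ k))).2.2 (hy (φ (ψ k))).1).2
    rwa [b6_flatAt_resc (hρ0 _), (hy (φ (ψ k))).2.1] at h1
  have hrlim : Tendsto r atTop (𝓝 0) := by
    refine squeeze_zero (fun i => (hr i).le) (fun i => ?_) hρlim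
    calc r i ≤ 1 / ((i : ℝ) + 1) * ρ i := hrc i
      _ ≤ 1 * ρ i := by
          have := (hρ0 i).le
          have h1 : 1 / ((i : ℝ) + 1) ≤ 1 := by
            rw [div_le_one (by positivity)]
            have : (0 : ℝ) ≤ i := by positivity
            linarith
          gcongr
      _ = ρ i := one_mul _
  obtain ⟨χ, hχ, Q', hQ', h0', hc', he'⟩ := hP.cpt (fun k => x (φ (ψ k))) (fun k => r (φ (ψ k)))
    (fun k => hxK _) (hxlim.comp hφψ) (fun k => hr _) (hrlim.comp hφψ)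
  have hχt := hχ.tendsto_atTop
  have hρt : Tendsto (fun k => ρ (φ (ψ k)) * t0 k) atTop (𝓝 0) := by
    refine squeeze_zero (fun k => mul_nonneg (hρ0 _).le (ht0 k).le) (fun k => ?_)
      (hρlim.comp hφψ)
    have h1 := (hρ0 (φ (ψ k))).le
    have h2 := ht04 k
    have h3 := (ht0 k).le
    simp only [Function.comp_apply]
    nlinarith
  have hline := b6_lim_line hG hP (x := fun k => x (φ (ψ (χ k))))
    (r := fun k => ρ (φ (ψ (χ k))) * t0 (χ k)) (δ := fun k => 1 / ((χ k : ℝ) + 1))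
    (s := fun k => r (φ (ψ (χ k)))) (fun k => hxK _) ((hxlim.comp hφψ).comp hχt)
    (fun k => mul_pos (hρ0 _) (ht0 _)) (hρt.comp hχt) (fun k => (hpos _).le)
    ((b6_inv_tendsto 1).comp hχt) (fun k => hW (χ k)) (fun k => hF (χ k)) (fun k => hr _)
    (by
      intro ε hε
      filter_upwards [((b6_inv_tendsto 1).comp hχt).eventually_lt_const hε] with k hk
      have h1 := (hψ2 (χ k)).2
      simp only [Function.comp_apply] at hk
      calc r (φ (ψ (χ k))) ≤ (ρ (φ (ψ (χ k))) * t0 (χ k)) / ((χ k : ℝ) + 1) := h1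
        _ = 1 / ((χ k : ℝ) + 1) * (ρ (φ (ψ (χ k))) * t0 (χ k)) := by ring
        _ ≤ ε * (ρ (φ (ψ (χ k))) * t0 (χ k)) := by
            have := (mul_pos (hρ0 (φ (ψ (χ k)))) (ht0 (χ k))).le
            gcongr) hQ' h0' hc'
  obtain ⟨k, hk⟩ := (b6_lineGood_of_lim hG (fun j => hr _) hQ' hline.1 hline.2 hc' he' hδ).exists
  exact hbad _ hk

/-- blow-ups at a point without small gradients are crack tips -/
theorem b6_tip_lim (hG : B6Class G D e1) {P : B6El} {x0 : ℂ}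
    (hH : ¬ B6H0 P x0) {r : ℕ → ℝ} (hr : ∀ j, 0 < r j) (hr0 : Tendsto r atTop (𝓝 0))
    {Q : B6El} (hQ : Q ∈ G) (h0 : (0 : ℂ) ∈ Q.K)
    (hc : B6Conv (fun j => P.resc x0 (r j)) Q) : B6Tip Q ∧ D Q 1 = 1 := by
  unfold B6H0 at hH
  push Not at hH
  obtain ⟨δ0, ρ0, hδ0, hρ0, hbad⟩ := hH
  have h1 : ∀ R : ℝ, 0 < R → ¬ B6W (Q.resc 0 R) (δ0 / 2) := by
    intro R hR hW
    have h2 := b6_W_open (b6_conv_resc hc hR) hδ0 hW
    have h3 : ∀ᶠ j in atTop, r j * R < ρ0 := by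
      have := hr0.mul_const R
      rw [zero_mul] at this
      exact this.eventually_lt_const hρ0
    obtain ⟨j, hj, hj2⟩ := (h2.and h3).exists
    rw [b6_resc_resc0 _ _ _ _ (hr j).le] at hj
    exact hbad _ (mul_pos (hr j) hR) hj2 hj
  obtain ⟨Q0, hQ0, h00, R, hR0, hR, hcR, φ0, hφ0, hφ02⟩ := b6_blowup hG hQ h0
  have hφ01 : φ0 = 1 := by
    rcases hG.cls Q0 hQ0 h00 φ0 hφ0 with ⟨-, hz, -⟩ | ⟨h2, -⟩
    · exfalso
      have h2 := b6_W_open hcR (half_pos hδ0) (b6_W_of_zero hz (half_pos (half_pos hδ0)))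
      obtain ⟨k, hk⟩ := h2.exists
      exact h1 _ (hR0 k) hk
    · exact h2
  obtain ⟨Q1, hQ1, h01, R', hR0', hR', hcR', φ1, hφ1, hφ12⟩ := b6_blowdown hG hQ h0
  have hφ11 : φ1 = 1 := by
    rcases hG.cls Q1 hQ1 h01 φ1 hφ1 with ⟨h2, -, -⟩ | ⟨h2, -⟩
    · exfalso
      have h3 := hφ02 1 one_pos
      have h4 := hφ12 1 one_pos
      rw [hφ01] at h3
      rw [h2] at h4
      linarith
    · exact h2
  have h5 : ∀ s : ℝ, 0 < s → D Q s = 1 * s := by
    intro s hs
    have h3 := hφ02 s hs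
    have h4 := hφ12 s hs
    rw [hφ01] at h3
    rw [hφ11] at h4
    have h6 : D Q s / s = 1 := le_antisymm h4 h3
    rw [div_eq_iff hs.ne'] at h6
    exact h6
  rcases hG.cls Q hQ h0 1 h5 with ⟨h6, -, -⟩ | ⟨-, h6⟩
  · norm_num at h6
  · exact ⟨h6, by rw [h5 1 one_pos, one_mul]⟩

/-- **Structure theorem for blow-ups (section 6).** -/
theorem b6_main (hG : B6Class G D e1) {P : B6El} {x0 : ℂ} (hP : B6Loc G e1 P x0) :
    (∀ δ : ℝ, 0 < δ → ∃ r1 : ℝ, 0 < r1 ∧ ∀ x ∈ P.K, ‖x - x0‖ < r1 → ∀ r : ℝ, 0 < r → r < r1 →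
      B6LineGood e1 P δ x r) ∨
    ((∀ δ : ℝ, 0 < δ → ∃ r1 : ℝ, 0 < r1 ∧ ∀ r : ℝ, 0 < r → r < r1 → B6TriGood e1 P δ x0 r) ∧
      B6Near e1 P x0 ∧
      (∀ δ : ℝ, 0 < δ → ∃ r1 : ℝ, 0 < r1 ∧ ∀ x ∈ P.K, ‖x - x0‖ < r1 → ∀ r : ℝ, 0 < r → r < r1 →
        B6W (P.resc x r) δ)) ∨
    ((∀ δ : ℝ, 0 < δ → ∃ r1 : ℝ, 0 < r1 ∧ ∀ r : ℝ, 0 < r → r < r1 → B6TipGood e1 P δ x0 r) ∧
      B6Near e1 P x0) := by
  have hpos : ∀ i : ℕ, (0 : ℝ) < 1 / ((i : ℝ) + 1) := fun i => by positivity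
  by_cases hH : B6H0 P x0
  · by_cases hL : B6H0L P x0
    · -- flat point
      left
      intro δ hδ
      by_contra hcon
      push Not at hcon
      choose x hxK hxr r hr hr1 hbad using fun i : ℕ => hcon (1 / ((i : ℝ) + 1)) (hpos i)
      have hxlim : Tendsto x atTop (𝓝 x0) := tendsto_iff_norm_sub_tendsto_zero.2
        (squeeze_zero (fun i => norm_nonneg _) (fun i => (hxr i).le) (b6_inv_tendsto 1))
      have hrlim : Tendsto r atTop (𝓝 0) :=
        squeeze_zero (fun i => (hr i).le) (fun i => (hr1 i).le) (b6_inv_tendsto 1)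
      obtain ⟨φ, hφ, Q, hQ, h0, hc, he⟩ := hP.cpt x r hxK hxlim hr hrlim
      have h1 := b6_near_line hG hP hL (x := fun j => x (φ j)) (s := fun j => r (φ j))
        (fun j => hxK _) (hxlim.comp hφ.tendsto_atTop) (fun j => hr _)
        (hrlim.comp hφ.tendsto_atTop) hQ h0 hc
      obtain ⟨k, hk⟩ := (b6_lineGood_of_lim hG (fun j => hr _) hQ h1.1 h1.2 hc he hδ).exists
      exact hbad _ hk
    · -- triple point
      right; left
      have hall : ∀ (r : ℕ → ℝ) (Q : B6El), (∀ j, 0 < r j) → Tendsto r atTop (𝓝 0) → Q ∈ G →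
          (0 : ℂ) ∈ Q.K → B6Conv (fun j => P.resc x0 (r j)) Q → B6Zero Q ∧ B6Tri Q.K 0 := by
        intro r Q hr hr0 hQ h0 hc
        have h1 := b6_near_zero hG hP hH (x := fun _ => x0) (s := r) (fun _ => hP.mem)
          tendsto_const_nhds hr hr0 hQ h0 hc
        refine ⟨h1.1, ?_⟩
        unfold B6H0L at hL
        push Not at hL
        obtain ⟨δ0, ρ0, hδ0, hρ0, hbad⟩ := hL
        -- no flat scale
        have hno : ∀ (t : ℝ) (e : ℂ), 0 < t → ‖e‖ = 1 →
            (∀ z ∈ (Q.resc 0 t).K, ‖z‖ < 2 → ∃ τ : ℝ, z = τ * e) →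
            (∀ τ : ℝ, |τ| ≤ 1 → (τ : ℂ) * e ∈ (Q.resc 0 t).K) → False := by
          intro t e ht he ha hb
          have hct := b6_conv_resc hc ht
          have hz : B6Zero (Q.resc 0 t) := by
            intro z hz
            simp only [B6El.resc]
            rw [h1.1 (0 + t * z) (by simpa [B6El.resc] using hz), mul_zero]
          have h3 : ∀ᶠ j in atTop, r j * t < ρ0 := by
            have := hr0.mul_const t
            rw [zero_mul] at this
            exact this.eventually_lt_const hρ0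
          obtain ⟨j, hj1, hj2, hj3⟩ := (h3.and ((b6_W_open hct hδ0
            (b6_W_of_zero hz (half_pos hδ0))).and (b6_flat_open_loc hct he ha hb hδ0))).exists
          rw [b6_resc_resc0 _ _ _ _ (hr j).le] at hj2 hj3
          rw [b6_flatAt_resc1 (mul_pos (hr j) ht)] at hj3
          exact hbad _ (mul_pos (hr j) ht) hj1 hj2 hj3
        rcases h1.2 with ⟨e, he, hK⟩ | ⟨c, hc'⟩
        · exfalso
          refine hno 1 e one_pos he ?_ ?_
          · intro z hz _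
            rw [b6_resc0_one, hK] at hz
            exact hz
          · intro τ _
            rw [b6_resc0_one, hK]
            exact ⟨τ, rfl⟩
        · by_cases hc0 : c = 0
          · rwa [hc0] at hc'
          · exfalso
            obtain ⟨e, he, hK⟩ := hc'
            have h0' := h0
            rw [hK] at h0'
            obtain ⟨i, t0, ht0, ht0e⟩ := h0'
            have hc1 : c = -((t0 : ℂ) * (om3 ^ (i : ℕ) * e)) := by
              linear_combination -ht0e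
            have hcn : ‖c‖ = t0 := by
              rw [hc1, norm_neg, norm_mul, norm_mul, b6_om3_pow_norm, he, Complex.norm_real,
                Real.norm_of_nonneg ht0]
              ring
            have ht0p : 0 < t0 := by
              rw [← hcn]; exact norm_pos_iff.2 hc0
            refine hno (t0 / 3) (om3 ^ (i : ℕ) * e) (by positivity)
              (by rw [norm_mul, b6_om3_pow_norm, he, one_mul]) ?_ ?_
            · intro z hz hzn
              simp only [B6El.resc, mem_ofPred_eq, zero_add] at hz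
              rw [hK] at hz
              obtain ⟨j, t, ht, htz⟩ := hz
              by_cases hij : i = j
              · subst hij
                refine ⟨(t - t0) / (t0 / 3), ?_⟩
                have ht0c : (t0 : ℂ) ≠ 0 := by exact_mod_cast ht0p.ne'
                rw [hc1] at htz
                push_cast at htz ⊢
                field_simp
                linear_combination 3 * htz
              · exfalso
                have h4 := b6_arms he hij ht0 ht
                have h5 : ((t : ℂ) * (om3 ^ (j : ℕ) * e)) - (t0 : ℂ) * (om3 ^ (i : ℕ) * e)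
                    = ((t0 / 3 : ℝ) : ℂ) * z := by
                  rw [htz, hc1]; ring
                rw [h5, norm_mul, Complex.norm_real, Real.norm_of_nonneg (by positivity)] at h4
                nlinarith
            · intro τ hτ
              simp only [B6El.resc, mem_ofPred_eq, zero_add]
              rw [hK]
              refine ⟨i, t0 / 3 * τ + t0, ?_, ?_⟩
              · have := (abs_le.1 hτ).1
                nlinarith
              · rw [hc1]; push_cast; ring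
      refine ⟨?_, ?_, ?_⟩
      · intro δ hδ
        by_contra hcon
        push Not at hcon
        choose r hr hr1 hbad using fun i : ℕ => hcon (1 / ((i : ℝ) + 1)) (hpos i)
        have hrlim : Tendsto r atTop (𝓝 0) :=
          squeeze_zero (fun i => (hr i).le) (fun i => (hr1 i).le) (b6_inv_tendsto 1)
        obtain ⟨φ, hφ, Q, hQ, h0, hc, he⟩ := hP.cpt (fun _ => x0) r (fun _ => hP.mem)
          tendsto_const_nhds hr hrlim
        have h1 := hall (fun j => r (φ j)) Q (fun j => hr _) (hrlim.comp hφ.tendsto_atTop)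
          hQ h0 hc
        have he2 := hG.etri Q hQ h1.2 h1.1
        obtain ⟨k, ⟨e, hk1⟩, hk2, hk3⟩ := ((b6_tri_open hc h1.2 hδ).and ((b6_W_open hc hδ
          (b6_W_of_zero h1.1 (half_pos hδ))).and (he δ hδ))).exists
        exact hbad _ ⟨⟨e, b6_tripod_resc (hr _) hk1⟩, hk2, by linarith⟩
      · exact b6_near_of_NF hG hP fun r Q hr hr0 hQ h0 hc =>
          b6_tri_NF (hall r Q hr hr0 hQ h0 hc).2 (hall r Q hr hr0 hQ h0 hc).1
      · intro δ hδ
        by_contra hcon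
        push Not at hcon
        choose x hxK hxr r hr hr1 hbad using fun i : ℕ => hcon (1 / ((i : ℝ) + 1)) (hpos i)
        have hxlim : Tendsto x atTop (𝓝 x0) := tendsto_iff_norm_sub_tendsto_zero.2
          (squeeze_zero (fun i => norm_nonneg _) (fun i => (hxr i).le) (b6_inv_tendsto 1))
        have hrlim : Tendsto r atTop (𝓝 0) :=
          squeeze_zero (fun i => (hr i).le) (fun i => (hr1 i).le) (b6_inv_tendsto 1)
        obtain ⟨φ, hφ, Q, hQ, h0, hc, -⟩ := hP.cpt x r hxK hxlim hr hrlim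
        have h1 := b6_near_zero hG hP hH (x := fun j => x (φ j)) (s := fun j => r (φ j))
          (fun j => hxK _) (hxlim.comp hφ.tendsto_atTop) (fun j => hr _)
          (hrlim.comp hφ.tendsto_atTop) hQ h0 hc
        obtain ⟨k, hk⟩ := (b6_W_open hc hδ (b6_W_of_zero h1.1 (half_pos hδ))).exists
        exact hbad _ hk
  · -- tip
    right; right
    refine ⟨?_, ?_⟩
    · intro δ hδ
      by_contra hcon
      push Not at hcon
      choose r hr hr1 hbad using fun i : ℕ => hcon (1 / ((i : ℝ) + 1)) (hpos i)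
      have hrlim : Tendsto r atTop (𝓝 0) :=
        squeeze_zero (fun i => (hr i).le) (fun i => (hr1 i).le) (b6_inv_tendsto 1)
      obtain ⟨φ, hφ, Q, hQ, h0, hc, he⟩ := hP.cpt (fun _ => x0) r (fun _ => hP.mem)
        tendsto_const_nhds hr hrlim
      have h1 := b6_tip_lim hG hH (fun j => hr (φ j)) (hrlim.comp hφ.tendsto_atTop) hQ h0 hc
      have he2 := hG.etip Q hQ h1.1 h1.2
      obtain ⟨k, ⟨e, hk1⟩, hk2⟩ := ((b6_ray_open hc h1.1 hδ).and (he δ hδ)).exists
      exact hbad _ ⟨⟨e, b6_ray_resc (hr _) hk1⟩, by linarith⟩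
    · exact b6_near_of_NF hG hP fun r Q hr hr0 hQ h0 hc =>
        b6_tip_NF (b6_tip_lim hG hH hr hr0 hQ h0 hc).1

end Pool.Agent.MP099f24
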