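import Mathlib
import Pool.Agent.Lib.MP_099f24_an.B6.Main
import Pool.Agent.Lib.MP_099f24_an.TM.Bas
import Pool.Agent.Lib.MP_099f24_an.E2.Defs
import Pool.Agent.Lib.MP_099f24_an.SD.Defs

/-!
# MP_099f24, part B6: the concrete class of global elements
-/

set_option autoImplicit false

namespace Pool.Agent.MP099f24

open MeasureTheory Filter Topology Set Metric
open scoped ENNReal ContDiff

/-- the pair `(K, ∇u)` -/
noncomputable def b6of (u : ℂ → ℝ) (K : Set ℂ) : B6El := ⟨K, tgr u K⟩

/-- the class of global elements -/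
def b6G : Set B6El := {Q | ∃ (u : ℂ → ℝ) (K : Set ℂ), TGlob u K ∧ Q = b6of u K}

/-- the Dirichlet integral of the disc of radius `r` -/
noncomputable def b6D (Q : B6El) (r : ℝ) : ℝ := Dq Q.g 0 r

/-- the energy of the closed unit disc -/
noncomputable def b6E (Q : B6El) : ℝ≥0∞ :=
  (∫⁻ x in closedBall 0 1 \ Q.K, ‖Q.g x‖ₑ ^ 2) + (μH[1] : Measure ℂ) (Q.K ∩ closedBall 0 1)

/-- the energy of the closed unit disc, as a real number -/
noncomputable def b6e (Q : B6El) : ℝ := (b6E Q).toReal

theorem b6E_of (u : ℂ → ℝ) (K : Set ℂ) (hK : MeasurableSet K) :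
    b6E (b6of u K) = cen u K (closedBall 0 1) := by
  unfold b6E cen b6of
  congr 1
  refine setLIntegral_congr_fun (measurableSet_closedBall.diff hK) ?_
  intro x hx
  simp only
  rw [tgr_of_notMem hx.2]

/-- rescaling of concrete elements -/
theorem b6of_resc (u : ℂ → ℝ) (K : Set ℂ) (a : ℂ) {r : ℝ} (hr : 0 < r) :
    (b6of u K).resc a r =
      b6of (fun x => u (a + r • x) / Real.sqrt r) ((fun x : ℂ => a + r • x) ⁻¹' K) := by
  have hs : ∀ z : ℂ, a + r • z = a + (r : ℂ) * z := fun z => by rw [Complex.real_smul]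
  apply b6_ext
  · ext z
    simp only [B6El.resc, b6of, mem_ofPred_eq, mem_preimage, hs]
  · funext z
    simp only [B6El.resc, b6of]
    by_cases hz : a + (r : ℂ) * z ∈ K
    · rw [tgr_of_mem hz, tgr_of_mem (by simpa only [mem_preimage, hs] using hz), mul_zero]
    · rw [tgr_of_notMem hz, tgr_of_notMem (by simpa only [mem_preimage, hs] using hz)]
      have h1 : (fun x : ℂ => u (a + r • x) / Real.sqrt r)
          = fun x => (Real.sqrt r)⁻¹ * (fun y : ℂ => u (a + r • y)) x := by
        funext x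
        rw [div_eq_inv_mul]
      have hsr : Real.sqrt r ≠ 0 := (Real.sqrt_pos.2 hr).ne'
      have hsrc : ((Real.sqrt r : ℝ) : ℂ) ≠ 0 := by exact_mod_cast hsr
      rw [h1, cgr_const_mul, cgr_affine u a hr, hs]
      have h2 : (r : ℂ) = (Real.sqrt r : ℂ) * (Real.sqrt r : ℂ) := by
        rw [← Complex.ofReal_mul, Real.mul_self_sqrt hr.le]
      rw [← mul_assoc]
      congr 1
      push_cast
      field_simp
      rw [sq, ← h2]

end Pool.Agent.MP099f24
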