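import Mathlib
import Pool.Agent.Lib.MP_099f24_an.B6.Elem

/-!
# MP_099f24, part B6: energies of the models, scaling of the Dirichlet integral
-/

set_option autoImplicit false

namespace Pool.Agent.MP099f24

open MeasureTheory Filter Topology Set Metric
open scoped ENNReal ContDiff Pointwise

/-- the Dirichlet integral as a lower integral -/
theorem b6_ofReal_Dq {Ω : Set ℂ} {u : ℂ → ℝ} {l : ℂ → Set ℂ} {K : Set ℂ} (h : TConf Ω u l K)
    {a : ℂ} {r : ℝ} (hr : closedBall a r ⊆ Ω) :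
    ENNReal.ofReal (Dq (tgr u K) a r) = ∫⁻ x in ball a r \ K, ‖cgr u x‖ₑ ^ 2 := by
  have hK := h.measurableSet
  have h1 : ∫⁻ x in ball a r, ‖tgr u K x‖ₑ ^ 2 = ∫⁻ x in ball a r \ K, ‖cgr u x‖ₑ ^ 2 := by
    have h2 : (fun x => ‖tgr u K x‖ₑ ^ 2) = Kᶜ.indicator (fun x => ‖cgr u x‖ₑ ^ 2) := by
      funext x
      by_cases hx : x ∈ K
      · rw [tgr_of_mem hx, indicator_of_notMem (by simpa using hx)]
        simp
      · rw [tgr_of_notMem hx, indicator_of_mem (by simpa using hx)]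
    rw [h2, lintegral_indicator hK.compl, Measure.restrict_restrict hK.compl,
      inter_comm, ← sdiff_eq]
  have h3 : ∫⁻ x in ball a r \ K, ‖cgr u x‖ₑ ^ 2 < ⊤ :=
    lt_of_le_of_lt (lintegral_mono_set (sdiff_subset_sdiff_left ball_subset_closedBall))
      (h.lint_lt (isCompact_closedBall a r) hr)
  have h4 : IntegrableOn (fun x => ‖tgr u K x‖ ^ 2) (ball a r) := by
    refine tm_integrable (measurable_tgr u hK).aestronglyMeasurable ?_
    rw [h1]; exact h3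
  rw [← h1, tm_lint_eq h4]
  rfl

theorem b6_Dq_nonneg (g : ℂ → ℂ) (a : ℂ) (r : ℝ) : 0 ≤ Dq g a r :=
  integral_nonneg fun x => by positivity

theorem b6_dresc' (Q : B6El) {R r : ℝ} (hR : 0 < R) :
    b6D (Q.resc 0 R) r = b6D Q (R * r) / R := by
  unfold b6D Dq B6El.resc
  simp only
  have h1 : ∀ x : ℂ, ‖(Real.sqrt R : ℂ) * Q.g (0 + R * x)‖ ^ 2
      = (fun y => R * ‖Q.g y‖ ^ 2) (R • x) := by
    intro x
    simp only [zero_add]
    rw [norm_mul, Complex.norm_real, Real.norm_of_nonneg (Real.sqrt_nonneg _), mul_pow,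
      Real.sq_sqrt hR.le, Complex.real_smul]
  simp_rw [h1]
  have h2 : ball (0 : ℂ) r = (fun x : ℂ => R • x) ⁻¹' (ball 0 (R * r)) := by
    ext x
    simp only [mem_ball, dist_zero_right, mem_preimage]
    rw [norm_smul, Real.norm_of_nonneg hR.le]
    constructor
    · intro h; exact mul_lt_mul_of_pos_left h hR
    · intro h; exact lt_of_mul_lt_mul_left h hR.le
  rw [h2]
  have h3 := Measure.setIntegral_comp_smul (volume : Measure ℂ) (fun y => R * ‖Q.g y‖ ^ 2)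
    ((fun x : ℂ => R • x) ⁻¹' (ball 0 (R * r))) hR.ne'
  rw [h3]
  have h4 : R • ((fun x : ℂ => R • x) ⁻¹' (ball 0 (R * r))) = ball 0 (R * r) := by
    ext y
    constructor
    · rintro ⟨x, hx, rfl⟩
      exact hx
    · intro hy
      refine ⟨R⁻¹ • y, ?_, ?_⟩
      · simp only [mem_preimage]
        rwa [smul_inv_smul₀ hR.ne']
      · simp only
        rw [smul_inv_smul₀ hR.ne']
  rw [h4, integral_const_mul]
  have h5 : Module.finrank ℝ ℂ = 2 := Complex.finrank_real_complex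
  rw [h5, abs_of_pos (by positivity), smul_eq_mul]
  field_simp

theorem b6_sphere_null (a : ℂ) (r : ℝ) : volume (sphere a r) = 0 :=
  Measure.addHaar_sphere _ _ _

/-- the energy of the closed unit disc in terms of `D` and the length -/
theorem b6E_eq {u : ℂ → ℝ} {K : Set ℂ} (h : TGlob u K) :
    b6E (b6of u K) = ENNReal.ofReal (b6D (b6of u K) 1) +
      (μH[1] : Measure ℂ) (K ∩ closedBall 0 1) := by
  have hK := h.toTConf.measurableSet
  rw [b6E_of u K hK, cen]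
  congr 1
  have h1 := b6_ofReal_Dq h.toTConf (a := 0) (r := 1) (subset_univ _)
  change _ = ENNReal.ofReal (Dq (tgr u K) 0 1)
  rw [h1]
  refine le_antisymm ?_ (lintegral_mono_set (sdiff_subset_sdiff_left ball_subset_closedBall))
  have h2 : closedBall (0 : ℂ) 1 \ K ⊆ (ball 0 1 \ K) ∪ sphere 0 1 := by
    intro x hx
    by_cases hx1 : x ∈ ball (0 : ℂ) 1
    · exact Or.inl ⟨hx1, hx.2⟩
    · right
      rw [mem_sphere]
      exact le_antisymm (mem_closedBall.1 hx.1) (not_lt.1 hx1)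
  calc ∫⁻ x in closedBall (0 : ℂ) 1 \ K, ‖cgr u x‖ₑ ^ 2
      ≤ ∫⁻ x in (ball 0 1 \ K) ∪ sphere 0 1, ‖cgr u x‖ₑ ^ 2 := lintegral_mono_set h2
    _ ≤ (∫⁻ x in ball 0 1 \ K, ‖cgr u x‖ₑ ^ 2) + ∫⁻ x in sphere 0 1, ‖cgr u x‖ₑ ^ 2 :=
        lintegral_union_le _ _ _
    _ = ∫⁻ x in ball 0 1 \ K, ‖cgr u x‖ₑ ^ 2 := by
        rw [setLIntegral_measure_zero _ _ (b6_sphere_null 0 1), add_zero]

theorem b6_len_ray {e : ℂ} (he : ‖e‖ = 1) :
    (μH[1] : Measure ℂ) ({z | ∃ t : ℝ, 0 ≤ t ∧ z = t * e} ∩ closedBall 0 1) ≤ 1 := by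
  have h1 : {z : ℂ | ∃ t : ℝ, 0 ≤ t ∧ z = t * e} ∩ closedBall 0 1 ⊆ segment ℝ (0 : ℂ) e := by
    rintro z ⟨⟨t, ht, rfl⟩, hz⟩
    rw [mem_closedBall, dist_zero_right, norm_mul, he, Complex.norm_real,
      Real.norm_of_nonneg ht, mul_one] at hz
    refine ⟨1 - t, t, by linarith, ht, by ring, ?_⟩
    rw [smul_zero, zero_add, Complex.real_smul]
  refine (measure_mono h1).trans ?_
  rw [hausdorffMeasure_segment, edist_dist, dist_zero_left, he]
  simp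

theorem b6_len_line {K : Set ℂ} (h : B6Line K) : (μH[1] : Measure ℂ) (K ∩ closedBall 0 1) ≤ 2 := by
  obtain ⟨e, he, rfl⟩ := h
  have h1 : {z : ℂ | ∃ t : ℝ, z = t * e} ∩ closedBall 0 1 ⊆
      ({z | ∃ t : ℝ, 0 ≤ t ∧ z = t * e} ∩ closedBall 0 1) ∪
        ({z | ∃ t : ℝ, 0 ≤ t ∧ z = t * (-e)} ∩ closedBall 0 1) := by
    rintro z ⟨⟨t, rfl⟩, hz⟩
    rcases le_total 0 t with ht | ht
    · exact Or.inl ⟨⟨t, ht, rfl⟩, hz⟩
    · exact Or.inr ⟨⟨-t, by linarith, by push_cast; ring⟩, hz⟩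
  refine (measure_mono h1).trans ((measure_union_le _ _).trans ?_)
  have h2 := b6_len_ray he
  have h3 := b6_len_ray (e := -e) (by rw [norm_neg, he])
  calc _ ≤ (1 : ℝ≥0∞) + 1 := add_le_add h2 h3
    _ = 2 := one_add_one_eq_two

theorem b6_len_tri {K : Set ℂ} (h : B6Tri K 0) : (μH[1] : Measure ℂ) (K ∩ closedBall 0 1) ≤ 3 := by
  obtain ⟨e, he, rfl⟩ := h
  have h1 : {z : ℂ | ∃ (i : Fin 3) (t : ℝ), 0 ≤ t ∧ z = 0 + t * (om3 ^ (i : ℕ) * e)} ∩
      closedBall 0 1 ⊆ ⋃ i : Fin 3, ({z | ∃ t : ℝ, 0 ≤ t ∧ z = t * (om3 ^ (i : ℕ) * e)} ∩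
        closedBall 0 1) := by
    rintro z ⟨⟨i, t, ht, rfl⟩, hz⟩
    refine mem_iUnion.2 ⟨i, ⟨t, ht, by rw [zero_add]⟩, hz⟩
  refine (measure_mono h1).trans ((measure_iUnion_fintype_le _ _).trans ?_)
  calc _ ≤ ∑ i : Fin 3, (1 : ℝ≥0∞) := Finset.sum_le_sum fun i _ =>
        b6_len_ray (by rw [norm_mul, b6_om3_pow_norm, he, one_mul])
    _ = 3 := by simp

theorem b6_zero_D {Q : B6El} (hQ : Q ∈ b6G) (hz : B6Zero Q) (r : ℝ) : b6D Q r = 0 := by
  obtain ⟨u, K, h, rfl⟩ := hQ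
  unfold b6D Dq
  have : ∀ x : ℂ, ‖(b6of u K).g x‖ ^ 2 = 0 := by
    intro x
    by_cases hx : x ∈ K
    · simp [b6of, tgr_of_mem hx]
    · rw [hz x hx]; simp
  simp_rw [this]
  simp

theorem b6_eline {Q : B6El} (hQ : Q ∈ b6G) (hl : B6Line Q.K) (hz : B6Zero Q) : b6e Q ≤ 2 := by
  have h1 := b6_zero_D hQ hz 1
  obtain ⟨u, K, h, rfl⟩ := hQ
  unfold b6e
  rw [b6E_eq h, h1, ENNReal.ofReal_zero, zero_add]
  have h2 : (μH[1] : Measure ℂ) (K ∩ closedBall 0 1) ≤ 2 := b6_len_line hl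
  exact ENNReal.toReal_le_of_le_ofReal (by norm_num) (by simpa using h2)

theorem b6_etri {Q : B6El} (hQ : Q ∈ b6G) (hl : B6Tri Q.K 0) (hz : B6Zero Q) : b6e Q ≤ 3 := by
  have h1 := b6_zero_D hQ hz 1
  obtain ⟨u, K, h, rfl⟩ := hQ
  unfold b6e
  rw [b6E_eq h, h1, ENNReal.ofReal_zero, zero_add]
  have h2 : (μH[1] : Measure ℂ) (K ∩ closedBall 0 1) ≤ 3 := b6_len_tri hl
  exact ENNReal.toReal_le_of_le_ofReal (by norm_num) (by simpa using h2)

theorem b6_etip {Q : B6El} (hQ : Q ∈ b6G) (ht : B6Tip Q) (hD : b6D Q 1 = 1) : b6e Q ≤ 2 := by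
  obtain ⟨e, he, hK, -⟩ := ht
  obtain ⟨u, K, h, rfl⟩ := hQ
  have h2 : (μH[1] : Measure ℂ) (K ∩ closedBall 0 1) ≤ 1 := by
    have : K = {z | ∃ t : ℝ, 0 ≤ t ∧ z = t * e} := hK
    rw [this]
    exact b6_len_ray he
  unfold b6e
  rw [b6E_eq h, hD]
  refine ENNReal.toReal_le_of_le_ofReal (by norm_num) ?_
  calc ENNReal.ofReal 1 + (μH[1] : Measure ℂ) (K ∩ closedBall 0 1)
      ≤ ENNReal.ofReal 1 + 1 := by gcongr
    _ = ENNReal.ofReal 2 := by
        rw [ENNReal.ofReal_one]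
        norm_num

end Pool.Agent.MP099f24
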