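import Mathlib
import Pool.Agent.Lib.MP_099f24_an.B6.Energy
import Pool.Agent.Lib.MP_099f24_an.TM.Upp
import Pool.Agent.Lib.MP_099f24_an.Z.Comp
import Pool.Agent.Lib.MP_099f24_an.ZG.Core

/-!
# MP_099f24, part B6: classification of the homogeneous global elements (zero gradient; crack tip)
-/

set_option autoImplicit false

namespace Pool.Agent.MP099f24

open MeasureTheory Filter Topology Set Metric
open scoped ENNReal ContDiff

/-- zero Dirichlet integral means zero gradient -/
theorem b6_grad_zero {u : ℂ → ℝ} {K : Set ℂ} (h : TGlob u K)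
    (hD : ∀ r : ℝ, 0 < r → b6D (b6of u K) r = 0) : ∀ x, x ∉ K → cgr u x = 0 := by
  have hop : IsOpen Kᶜ := h.toTConf.isClosed.isOpen_compl
  have hcont : ContinuousOn (cgr u) Kᶜ := by
    have := h.toTConf.continuousOn_cgr
    rwa [← compl_eq_univ_sdiff] at this
  have hae : ∀ᵐ x ∂(volume.restrict Kᶜ), cgr u x = 0 := by
    have h1 : ∀ n : ℕ, ∀ᵐ x ∂(volume.restrict (ball (0 : ℂ) (n + 1) \ K)), cgr u x = 0 := by
      intro n
      have h2 := b6_ofReal_Dq h.toTConf (a := 0) (r := (n : ℝ) + 1) (subset_univ _)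
      have h3 : Dq (tgr u K) 0 ((n : ℝ) + 1) = 0 := hD _ (by positivity)
      rw [h3, ENNReal.ofReal_zero] at h2
      have h4 : AEMeasurable (fun x => ‖cgr u x‖ₑ ^ 2) (volume.restrict (ball (0 : ℂ) (n + 1) \ K)) := by
        have h5 : AEStronglyMeasurable (cgr u) (volume.restrict (ball (0 : ℂ) (n + 1) \ K)) :=
          (hcont.mono (fun x hx => hx.2)).aestronglyMeasurable
            (measurableSet_ball.diff h.toTConf.measurableSet)
        exact (h5.enorm).pow_const 2
      have h6 := (lintegral_eq_zero_iff' h4).1 h2.symm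
      filter_upwards [h6] with x hx
      simpa using hx
    have h7 : Kᶜ = ⋃ n : ℕ, (ball (0 : ℂ) (n + 1) \ K) := by
      ext x
      rw [mem_compl_iff, mem_iUnion]
      constructor
      · intro hx
        obtain ⟨n, hn⟩ := exists_nat_gt ‖x‖
        exact ⟨n, by rw [mem_ball, dist_zero_right]; linarith, hx⟩
      · rintro ⟨n, -, hx⟩
        exact hx
    rw [h7, ae_restrict_iUnion_iff]
    exact h1
  intro x hx
  have h8 := Measure.eqOn_open_of_ae_eq (μ := volume) (f := cgr u) (g := fun _ => (0 : ℂ))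
    hae hop hcont continuousOn_const
  exact h8 hx

/-- global elements with zero gradient -/
theorem b6_cls_zero {u : ℂ → ℝ} {K : Set ℂ} (h : TGlob u K) (h0 : (0 : ℂ) ∈ K)
    (hD : ∀ r : ℝ, 0 < r → b6D (b6of u K) r = 0) :
    B6Zero (b6of u K) ∧ (B6Line K ∨ ∃ c, B6Tri K c) := by
  have hg := b6_grad_zero h hD
  refine ⟨?_, ?_⟩
  · intro z hz
    have hz' : z ∉ K := hz
    simp only [b6of]
    rw [tgr_of_notMem hz', hg z hz']
  · have hz := zg_of_tmin h hg
    rcases zg_core hz ⟨0, h0⟩ with ⟨x, e, he, hK⟩ | ⟨x, e, he, hK⟩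
    · left
      rw [hK] at h0
      obtain ⟨s0, hs0⟩ := h0
      refine ⟨e, he, ?_⟩
      rw [hK]
      ext z
      simp only [mem_ofPred_eq]
      constructor
      · rintro ⟨s, rfl⟩
        refine ⟨s - s0, ?_⟩
        push_cast
        linear_combination -hs0
      · rintro ⟨t, rfl⟩
        refine ⟨t + s0, ?_⟩
        push_cast
        linear_combination hs0
    · right
      refine ⟨x, e, he, ?_⟩
      rw [hK]
      have hω : zgω = om3 := by
        rw [b6_om3_eq]
        unfold zgω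
        congr 1
        norm_num
      ext z
      simp only [mem_ofPred_eq, zgTri, Finset.mem_insert, Finset.mem_singleton]
      constructor
      · rintro ⟨f, hf, s, hs, rfl⟩
        rcases hf with rfl | rfl | rfl
        · exact ⟨0, s, hs, by simp⟩
        · exact ⟨1, s, hs, by rw [hω]; simp⟩
        · exact ⟨2, s, hs, by rw [hω]; simp⟩
      · rintro ⟨i, t, ht, rfl⟩
        fin_cases i
        · exact ⟨e, Or.inl rfl, t, ht, by simp⟩
        · exact ⟨zgω * e, Or.inr (Or.inl rfl), t, ht, by rw [hω]; simp⟩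
        · exact ⟨zgω ^ 2 * e, Or.inr (Or.inr rfl), t, ht, by rw [hω]⟩

/-- the Dirichlet integral is at most `2 π r` -/
theorem b6_dbd {Q : B6El} (hQ : Q ∈ b6G) {r : ℝ} (hr : 0 < r) : b6D Q r ≤ 2 * Real.pi * r := by
  obtain ⟨u, K, h, rfl⟩ := hQ
  have h1 := TMin.upper h (a := 0) hr.le (subset_univ _)
  have h2 := b6_ofReal_Dq h.toTConf (a := 0) (r := r) (subset_univ _)
  have h3 : ENNReal.ofReal (Dq (tgr u K) 0 r) ≤ ENNReal.ofReal (2 * Real.pi * r) := by
    rw [h2]
    refine le_trans ?_ h1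
    unfold cen
    exact (lintegral_mono_set (sdiff_subset_sdiff_left ball_subset_closedBall)).trans le_self_add
  exact (ENNReal.ofReal_le_ofReal_iff (by positivity)).1 h3

theorem b6_dresc {Q : B6El} (_hQ : Q ∈ b6G) {R r : ℝ} (hR : 0 < R) (_hr : 0 < r) :
    b6D (Q.resc 0 R) r = b6D Q (R * r) / R := b6_dresc' Q hR

/-! ## The gradient of the crack tip -/

/-- the crack tip function is the imaginary part of a holomorphic function -/
theorem b6_ctip_eq {e z : ℂ} (he : ‖e‖ = 1) (hz : z ≠ 0) :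
    ctip e z = Real.sqrt (2 / Real.pi) * (Complex.exp (Complex.log (z * (starRingEnd ℂ) e) / 2)).im := by
  have hne : z * (starRingEnd ℂ) e ≠ 0 := by
    refine mul_ne_zero hz ?_
    rw [Ne, map_eq_zero]
    intro h
    rw [h, norm_zero] at he
    exact zero_ne_one he
  have hn : ‖z * (starRingEnd ℂ) e‖ = ‖z‖ := by
    rw [norm_mul, RCLike.norm_conj, he, mul_one]
  have hzp : 0 < ‖z‖ := norm_pos_iff.2 hz
  rw [Complex.exp_im]
  have h1 : (Complex.log (z * (starRingEnd ℂ) e) / 2).re = Real.log ‖z‖ / 2 := by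
    rw [show (2 : ℂ) = ((2 : ℝ) : ℂ) by norm_num, Complex.div_ofReal_re, Complex.log_re, hn]
  have h2 : (Complex.log (z * (starRingEnd ℂ) e) / 2).im = (z * (starRingEnd ℂ) e).arg / 2 := by
    rw [show (2 : ℂ) = ((2 : ℝ) : ℂ) by norm_num, Complex.div_ofReal_im, Complex.log_im]
  rw [h1, h2]
  have h3 : Real.exp (Real.log ‖z‖ / 2) = Real.sqrt ‖z‖ := by
    rw [Real.sqrt_eq_rpow, Real.rpow_def_of_pos hzp]
    congr 1
    ring
  rw [h3]
  unfold ctip
  rw [← mul_assoc]
  congr 1
  rw [← Real.sqrt_mul (by positivity)]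
  congr 1
  ring

/-- the modulus of the gradient of the crack tip -/
theorem b6_ctip_grad {e z : ℂ} (he : ‖e‖ = 1) (hz : z * (starRingEnd ℂ) e ∈ Complex.slitPlane) :
    DifferentiableAt ℝ (ctip e) z ∧ ‖cgr (ctip e) z‖ = 1 / Real.sqrt (2 * Real.pi * ‖z‖) := by
  have hne : z * (starRingEnd ℂ) e ≠ 0 := Complex.slitPlane_ne_zero hz
  have hz0 : z ≠ 0 := left_ne_zero_of_mul hne
  have hzp : 0 < ‖z‖ := norm_pos_iff.2 hz0
  have hn : ‖z * (starRingEnd ℂ) e‖ = ‖z‖ := by
    rw [norm_mul, RCLike.norm_conj, he, mul_one]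
  set f : ℂ → ℂ := fun y => Complex.exp (Complex.log (y * (starRingEnd ℂ) e) / 2) with hf
  set f' : ℂ := Complex.exp (Complex.log (z * (starRingEnd ℂ) e) / 2) *
    (((z * (starRingEnd ℂ) e)⁻¹ * (1 * (starRingEnd ℂ) e)) / 2) with hf'
  have hd : HasDerivAt f f' z := by
    have h1 : HasDerivAt (fun y : ℂ => y * (starRingEnd ℂ) e) (1 * (starRingEnd ℂ) e) z :=
      (hasDerivAt_id z).mul_const _
    have h2 := (Complex.hasDerivAt_log hz).comp z h1
    have h3 := (h2.div_const 2).cexp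
    exact h3
  set c : ℝ := Real.sqrt (2 / Real.pi) with hc
  have hw : HasFDerivAt (ctip e) (c • (Complex.imCLM.comp
      ((ContinuousLinearMap.toSpanSingleton ℂ f' : ℂ →L[ℂ] ℂ).restrictScalars ℝ))) z := by
    have h1 : HasFDerivAt f ((ContinuousLinearMap.toSpanSingleton ℂ f' : ℂ →L[ℂ] ℂ).restrictScalars ℝ) z :=
      hd.hasFDerivAt.restrictScalars ℝ
    have h2 : HasFDerivAt (fun y => c * (f y).im) (c • (Complex.imCLM.comp
        ((ContinuousLinearMap.toSpanSingleton ℂ f' : ℂ →L[ℂ] ℂ).restrictScalars ℝ))) z := by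
      have := (Complex.imCLM.hasFDerivAt.comp z h1).const_mul c
      exact this
    refine h2.congr_of_eventuallyEq ?_
    filter_upwards [isOpen_compl_singleton.mem_nhds hz0] with y hy
    exact b6_ctip_eq he hy
  refine ⟨hw.differentiableAt, ?_⟩
  rw [cgr_of hw]
  have h4 : cgrL (c • (Complex.imCLM.comp
      ((ContinuousLinearMap.toSpanSingleton ℂ f' : ℂ →L[ℂ] ℂ).restrictScalars ℝ)))
      = c * (Complex.I * (starRingEnd ℂ) f') := by
    unfold cgrL
    apply Complex.ext
    · simp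
    · simp
  rw [h4, norm_mul, norm_mul, Complex.norm_I, one_mul, RCLike.norm_conj, Complex.norm_real,
    Real.norm_of_nonneg (Real.sqrt_nonneg _), hf', norm_mul, norm_div, norm_mul, norm_inv, hn, one_mul,
    RCLike.norm_conj, he, Complex.norm_exp]
  have h1 : (Complex.log (z * (starRingEnd ℂ) e) / 2).re = Real.log ‖z‖ / 2 := by
    rw [show (2 : ℂ) = ((2 : ℝ) : ℂ) by norm_num, Complex.div_ofReal_re, Complex.log_re, hn]
  have h3 : Real.exp (Real.log ‖z‖ / 2) = Real.sqrt ‖z‖ := by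
    rw [Real.sqrt_eq_rpow, Real.rpow_def_of_pos hzp]
    congr 1
    ring
  rw [h1, h3, Complex.norm_ofNat, mul_one, Real.sqrt_div (by norm_num),
    Real.sqrt_mul (by positivity), Real.sqrt_mul (by norm_num)]
  have h5 : Real.sqrt ‖z‖ * Real.sqrt ‖z‖ = ‖z‖ := Real.mul_self_sqrt hzp.le
  have h6 : Real.sqrt 2 * Real.sqrt 2 = 2 := Real.mul_self_sqrt (by norm_num)
  have h7 : 0 < Real.sqrt ‖z‖ := Real.sqrt_pos.2 hzp
  have h8 : 0 < Real.sqrt 2 := Real.sqrt_pos.2 (by norm_num)
  have h9 : 0 < Real.sqrt Real.pi := Real.sqrt_pos.2 Real.pi_pos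
  rw [show ‖z‖⁻¹ = (Real.sqrt ‖z‖ * Real.sqrt ‖z‖)⁻¹ by rw [h5]]
  field_simp
  nlinarith [h6]

/-- the crack tip is a `B6Tip` -/
theorem b6_tip_of {u : ℂ → ℝ} {K : Set ℂ} {e : ℂ} {m ε : ℝ} (hKc : IsClosed K) (he : ‖e‖ = 1)
    (hε : ε = 1 ∨ ε = -1) (hK : K = {z | ∃ t : ℝ, 0 ≤ t ∧ z = -(t * e)})
    (hu : ∀ z, z ∉ K → u z = m + ε * ctip e z) : B6Tip (b6of u K) := by
  refine ⟨-e, by rw [norm_neg, he], ?_, ?_⟩
  · change K = _
    rw [hK]
    ext z
    simp only [mem_ofPred_eq, mul_neg]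
  · intro z hz
    have hz' : z ∉ K := hz
    change ‖tgr u K z‖ = _
    rw [tgr_of_notMem hz']
    have hsl : z * (starRingEnd ℂ) e ∈ Complex.slitPlane := by
      rw [Complex.mem_slitPlane_iff]
      by_contra hcon
      push Not at hcon
      apply hz'
      rw [hK]
      refine ⟨-(z * (starRingEnd ℂ) e).re, by linarith [hcon.1], ?_⟩
      have h1 : z * (starRingEnd ℂ) e = ((z * (starRingEnd ℂ) e).re : ℂ) := by
        apply Complex.ext
        · simp
        · rw [hcon.2]; simp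
      have h2 : (starRingEnd ℂ) e * e = 1 := by
        rw [mul_comm, Complex.mul_conj, Complex.normSq_eq_norm_sq, he]
        norm_num
      calc z = z * ((starRingEnd ℂ) e * e) := by rw [h2, mul_one]
        _ = (z * (starRingEnd ℂ) e) * e := by ring
        _ = ((z * (starRingEnd ℂ) e).re : ℂ) * e := by rw [← h1]
        _ = _ := by push_cast; ring
    obtain ⟨hd, hg⟩ := b6_ctip_grad he hsl
    have h3 : u =ᶠ[𝓝 z] fun y => ε * ctip e y + m := by
      filter_upwards [hKc.isOpen_compl.mem_nhds hz'] with y hy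
      rw [hu y hy]; ring
    rw [cgr_congr h3, cgr_add_const m (fun y => ε * ctip e y) z, cgr_const_mul, norm_mul, hg,
      Complex.norm_real]
    rcases hε with rfl | rfl <;> simp

end Pool.Agent.MP099f24
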