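import Mathlib
import Pool.Agent.Lib.MP_099f24_an.B6.Elem
import Pool.Agent.Lib.MP_099f24_an.TM.Res
import Pool.Agent.Lib.MP_099f24_an.TM.Sca
import Pool.Agent.Lib.MP_099f24_an.TM.Cpt

/-!
# MP_099f24, part B6: compactness of the concrete class
-/

set_option autoImplicit false

namespace Pool.Agent.MP099f24

open MeasureTheory Filter Topology Set Metric
open scoped ENNReal ContDiff

/-- local convergence of the sets and of the gradients gives `B6Conv` -/
theorem b6cpt_conv_aux {un : ℕ → ℂ → ℝ} {Kn : ℕ → Set ℂ} {u : ℂ → ℝ} {K : Set ℂ}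
    (hK : IsClosed K)
    (near : ∀ x ∈ K, ∀ ε : ℝ, 0 < ε → ∀ᶠ n in atTop, (Kn n ∩ ball x ε).Nonempty)
    (far : ∀ C, IsCompact C → Disjoint C K → ∀ᶠ n in atTop, Disjoint C (Kn n))
    (grad : ∀ C, IsCompact C → Disjoint C K → ∀ ε : ℝ, 0 < ε →
      ∀ᶠ n in atTop, ∀ x ∈ C, ‖cgr (un n) x - cgr u x‖ ≤ ε) :
    B6Conv (fun n => b6of (un n) (Kn n)) (b6of u K) := by
  have hCset : ∀ R ε : ℝ, 0 < ε →
      IsCompact (closedBall (0 : ℂ) R ∩ {y | ∀ z ∈ K, ε ≤ ‖y - z‖}) ∧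
        Disjoint (closedBall (0 : ℂ) R ∩ {y | ∀ z ∈ K, ε ≤ ‖y - z‖}) K := by
    intro R ε hε
    constructor
    · refine (isCompact_closedBall 0 R).inter_right ?_
      have h1 : {y : ℂ | ∀ z ∈ K, ε ≤ ‖y - z‖} = ⋂ z ∈ K, {y : ℂ | ε ≤ ‖y - z‖} := by
        ext y
        simp
      rw [h1]
      refine isClosed_biInter fun z _ => ?_
      exact isClosed_le continuous_const (by fun_prop)
    · rw [Set.disjoint_left]
      rintro y ⟨-, hy⟩ hyK
      have h1 := hy y hyK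
      rw [sub_self, norm_zero] at h1
      linarith
  refine ⟨?_, ?_, ?_⟩
  · intro R ε hε
    filter_upwards [far _ (hCset R ε hε).1 (hCset R ε hε).2] with n hn y hy hyR
    by_contra hcon
    push Not at hcon
    exact Set.disjoint_left.1 hn ⟨by rwa [mem_closedBall, dist_zero_right], hcon⟩ hy
  · intro R ε hε
    have hc : IsCompact (K ∩ closedBall (0 : ℂ) R) := (isCompact_closedBall 0 R).inter_left hK
    obtain ⟨t, htK, hcov⟩ := hc.elim_nhds_subcover (fun x => ball x (ε / 2))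
      (fun x _ => ball_mem_nhds x (by positivity))
    have h1 : ∀ᶠ n in atTop, ∀ x ∈ t, (Kn n ∩ ball x (ε / 2)).Nonempty := by
      rw [Filter.eventually_all_finset]
      intro x hx
      exact near x (htK x hx).1 (ε / 2) (by positivity)
    filter_upwards [h1] with n hn z hz hzR
    have hz' : z ∈ ⋃ x ∈ t, ball x (ε / 2) := hcov ⟨hz, by rwa [mem_closedBall, dist_zero_right]⟩
    simp only [mem_iUnion] at hz'
    obtain ⟨x, hx, hzx⟩ := hz'
    obtain ⟨y, hy, hyx⟩ := hn x hx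
    refine ⟨y, hy, ?_⟩
    rw [← dist_eq_norm]
    rw [mem_ball] at hzx hyx
    have h2 := dist_triangle_right y z x
    linarith
  · intro R ε hε
    filter_upwards [far _ (hCset R ε hε).1 (hCset R ε hε).2,
      grad _ (hCset R ε hε).1 (hCset R ε hε).2 ε hε] with n hn1 hn2 y hyR hyK
    have hyC : y ∈ closedBall (0 : ℂ) R ∩ {y | ∀ z ∈ K, ε ≤ ‖y - z‖} :=
      ⟨by rwa [mem_closedBall, dist_zero_right], hyK⟩
    have h1 : y ∉ Kn n := Set.disjoint_left.1 hn1 hyC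
    have h2 : y ∉ K := Set.disjoint_left.1 (hCset R ε hε).2 hyC
    show ‖tgr (un n) (Kn n) y - tgr u K y‖ ≤ ε
    rw [tgr_of_notMem h1, tgr_of_notMem h2]
    exact hn2 y hyC

theorem b6_conv_of_tconv {un : ℕ → ℂ → ℝ} {Kn : ℕ → Set ℂ} {u : ℂ → ℝ} {K : Set ℂ}
    (hK : IsClosed K) (h : TConv un Kn u K) : B6Conv (fun n => b6of (un n) (Kn n)) (b6of u K) :=
  b6cpt_conv_aux hK h.near h.far h.grad

theorem b6_cpt_gen {R : ℕ → ℝ} (hR : Tendsto R atTop atTop) {Ωn : ℕ → Set ℂ} {un : ℕ → ℂ → ℝ}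
    {ln : ℕ → ℂ → Set ℂ} {Kn : ℕ → Set ℂ} (h : ∀ n, TMin (Ωn n) (un n) (ln n) (Kn n))
    (hb : ∀ n, ball 0 (R n) ⊆ Ωn n) (h0 : ∀ n, (0 : ℂ) ∈ Kn n) :
    ∃ φ : ℕ → ℕ, StrictMono φ ∧ ∃ (u : ℂ → ℝ) (K : Set ℂ), TGlob u K ∧ (0 : ℂ) ∈ K ∧
      B6Conv (fun n => b6of (un (φ n)) (Kn (φ n))) (b6of u K) ∧
      ∀ ε : ℝ, 0 < ε → ∀ᶠ n in atTop,
        b6e (b6of (un (φ n)) (Kn (φ n))) ≤ b6e (b6of u K) + ε := by
  obtain ⟨φ, hφ, u, K, hG, hT⟩ := tm_compact hR (un := un) (ln := ln)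
    (Kn := fun n => Kn n ∩ ball 0 (R n)) (fun n => (h n).restrict isOpen_ball (hb n))
  have hK : IsClosed K := hG.toTConf.isClosed
  have hRφ : Tendsto (fun n => R (φ n)) atTop atTop := hR.comp hφ.tendsto_atTop
  have hin : ∀ C : Set ℂ, IsCompact C → ∀ᶠ n in atTop, C ⊆ ball 0 (R (φ n)) := by
    intro C hC
    obtain ⟨M, hM⟩ := hC.isBounded.subset_closedBall (0 : ℂ)
    filter_upwards [hRφ.eventually_gt_atTop M] with n hn
    exact hM.trans (closedBall_subset_ball hn)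
  have far : ∀ C, IsCompact C → Disjoint C K → ∀ᶠ n in atTop, Disjoint C (Kn (φ n)) := by
    intro C hC hCK
    filter_upwards [hin C hC, hT.far C hC hCK] with n hn1 hn2
    rw [Set.disjoint_left] at hn2 ⊢
    intro x hx hxK
    exact hn2 hx ⟨hxK, hn1 hx⟩
  refine ⟨φ, hφ, u, K, hG, ?_, ?_, ?_⟩
  · by_contra h0K
    obtain ⟨ε, hε, hεK⟩ := Metric.isOpen_iff.1 hK.isOpen_compl 0 h0K
    have h1 : Disjoint ({0} : Set ℂ) K := by
      rw [Set.disjoint_singleton_left]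
      exact h0K
    obtain ⟨n, hn⟩ := (far {0} isCompact_singleton h1).exists
    exact Set.disjoint_left.1 hn (mem_singleton 0) (h0 (φ n))
  · refine b6cpt_conv_aux hK ?_ far hT.grad
    intro x hx ε hε
    filter_upwards [hT.near x hx ε hε] with n hn
    exact hn.mono (inter_subset_inter_left _ inter_subset_left)
  · intro ε hε
    have hcfin : cen u K (closedBall 0 1) < ⊤ :=
      hG.toTConf.fin _ (isCompact_closedBall 0 1) (subset_univ _)
    have h1 : limsup (fun n => cen (un (φ n)) (Kn (φ n) ∩ ball 0 (R (φ n))) (closedBall 0 1))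
        atTop < cen u K (closedBall 0 1) + ENNReal.ofReal ε := by
      refine (hT.usc 0 1).trans_lt ?_
      exact ENNReal.lt_add_right hcfin.ne (ENNReal.ofReal_pos.2 hε).ne'
    filter_upwards [eventually_lt_of_limsup_lt h1, hin _ (isCompact_closedBall (0 : ℂ) 1)]
      with n hn1 hn2
    rw [cen_inter _ _ hn2] at hn1
    unfold b6e
    rw [b6E_of _ _ (h (φ n)).toTConf.measurableSet, b6E_of _ _ hG.toTConf.measurableSet]
    have h2 : (cen u K (closedBall 0 1) + ENNReal.ofReal ε).toReal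
        = (cen u K (closedBall 0 1)).toReal + ε := by
      rw [ENNReal.toReal_add hcfin.ne ENNReal.ofReal_ne_top, ENNReal.toReal_ofReal hε.le]
    rw [← h2]
    exact ENNReal.toReal_mono (ENNReal.add_ne_top.2 ⟨hcfin.ne, ENNReal.ofReal_ne_top⟩) hn1.le

theorem b6G_resc0 {Q : B6El} (hQ : Q ∈ b6G) {R : ℝ} (hR : 0 < R) : Q.resc 0 R ∈ b6G := by
  obtain ⟨u, K, hG, rfl⟩ := hQ
  have h1 : TMin univ u (clab K) K := hG
  have h2 := h1.scale 0 hR
  rw [preimage_univ] at h2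
  exact ⟨_, _, h2.toTGlob, b6of_resc u K 0 hR⟩

theorem b6G_cpt (Q : ℕ → B6El) (hQ : ∀ j, Q j ∈ b6G) (h0 : ∀ j, (0 : ℂ) ∈ (Q j).K) :
    ∃ φ : ℕ → ℕ, StrictMono φ ∧ ∃ Q' ∈ b6G, (0 : ℂ) ∈ Q'.K ∧ B6Conv (fun j => Q (φ j)) Q' := by
  choose un Kn hG hQe using hQ
  have h0' : ∀ n, (0 : ℂ) ∈ Kn n := by
    intro n
    have := h0 n
    rw [hQe n] at this
    exact this
  obtain ⟨φ, hφ, u, K, hT, h0K, hc, -⟩ := b6_cpt_gen (R := fun n : ℕ => (n : ℝ))
    tendsto_natCast_atTop_atTop (Ωn := fun _ => univ) (un := un) (ln := fun n => clab (Kn n))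
    (Kn := Kn) hG (fun n => subset_univ _) h0'
  refine ⟨φ, hφ, b6of u K, ⟨u, K, hT, rfl⟩, h0K, ?_⟩
  have h1 : (fun j => Q (φ j)) = fun n => b6of (un (φ n)) (Kn (φ n)) := by
    funext j
    exact hQe (φ j)
  rw [h1]
  exact hc

/-- local compactness of the blow-ups -/
theorem b6_loc {u : ℂ → ℝ} {l : ℂ → Set ℂ} {K : Set ℂ} {x₀ : ℂ} {ρ : ℝ} (hρ : 0 < ρ)
    (h : TMin (ball x₀ ρ) u l K) (hx₀ : x₀ ∈ K) : B6Loc b6G b6e (b6of u K) x₀ := by
  refine ⟨hx₀, ?_⟩
  intro x r hx hxt hr hrt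
  have hR : Tendsto (fun j => (ρ - dist (x j) x₀) * (r j)⁻¹) atTop atTop := by
    have h1 : Tendsto (fun j => ρ - dist (x j) x₀) atTop (𝓝 ρ) := by
      have h2 : Tendsto (fun j => dist (x j) x₀) atTop (𝓝 0) := tendsto_iff_dist_tendsto_zero.1 hxt
      have h3 := (tendsto_const_nhds (x := ρ)).sub h2
      rwa [sub_zero] at h3
    have h4 : Tendsto (fun j => (r j)⁻¹) atTop atTop := by
      refine Tendsto.inv_tendsto_nhdsGT_zero ?_
      exact tendsto_nhdsWithin_iff.2 ⟨hrt, Eventually.of_forall fun j => hr j⟩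
    exact h1.pos_mul_atTop hρ h4
  have hsc : ∀ j, TMin ((fun y : ℂ => x j + r j • y) ⁻¹' ball x₀ ρ)
      (fun y => u (x j + r j • y) / Real.sqrt (r j)) (fun y => l (x j + r j • y))
      ((fun y : ℂ => x j + r j • y) ⁻¹' K) := fun j => h.scale (x j) (hr j)
  obtain ⟨φ, hφ, v, K', hG, h0, hc, he⟩ := b6_cpt_gen hR hsc (by
    intro j y hy
    rw [mem_ball, dist_zero_right] at hy
    have hrj := hr j
    rw [← div_eq_mul_inv, lt_div_iff₀ hrj] at hy
    rw [mem_preimage, mem_ball, dist_eq_norm]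
    have h1 : x j + r j • y - x₀ = (x j - x₀) + r j • y := by ring
    rw [h1]
    refine (norm_add_le _ _).trans_lt ?_
    rw [norm_smul, Real.norm_of_nonneg hrj.le, ← dist_eq_norm]
    linarith) (by
    intro j
    rw [mem_preimage, smul_zero, add_zero]
    exact hx j)
  have heq : ∀ j, (b6of u K).resc (x j) (r j) =
      b6of (fun y => u (x j + r j • y) / Real.sqrt (r j)) ((fun y : ℂ => x j + r j • y) ⁻¹' K) :=
    fun j => b6of_resc u K (x j) (hr j)
  refine ⟨φ, hφ, b6of v K', ⟨v, K', hG, rfl⟩, h0, ?_, ?_⟩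
  · have h1 : (fun j => (b6of u K).resc (x (φ j)) (r (φ j))) = fun j =>
        b6of (fun y => u (x (φ j) + r (φ j) • y) / Real.sqrt (r (φ j)))
          ((fun y : ℂ => x (φ j) + r (φ j) • y) ⁻¹' K) := by
      funext j
      exact heq (φ j)
    rw [h1]
    exact hc
  · intro ε hε
    filter_upwards [he ε hε] with j hj
    rw [heq (φ j)]
    exact hj

end Pool.Agent.MP099f24
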