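import Mathlib
import Pool.Agent.Lib.MP_099f24_an.B6.Elem
import Pool.Agent.Lib.MP_099f24_an.SC.CJDefs

/-!
# MP_099f24, part B6: continuity of the Dirichlet integral under convergence of global elements

The conjugate functions are equi-Hölder and vanish on the closed sets; every limit of them along an
ultrafilter has the same gradient as the conjugate function of the limit and vanishes on the limit
set, so that it is equal to the conjugate function of the limit.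
-/

set_option autoImplicit false

namespace Pool.Agent.MP099f24

open MeasureTheory Filter Topology Set Metric
open scoped ENNReal ContDiff

theorem b6dc_cont {f : ℂ → ℝ} {C₀ : ℝ}
    (h : ∀ x x', |f x - f x'| ≤ C₀ * Real.sqrt (dist x x')) : Continuous f := by
  rw [continuous_iff_continuousAt]
  intro x
  rw [ContinuousAt, tendsto_iff_dist_tendsto_zero]
  have h1 : Tendsto (fun y => C₀ * Real.sqrt (dist y x)) (𝓝 x) (𝓝 (C₀ * Real.sqrt (dist x x))) := by
    have h2 : Continuous fun y : ℂ => C₀ * Real.sqrt (dist y x) := by fun_prop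
    exact h2.tendsto x
  rw [dist_self, Real.sqrt_zero, mul_zero] at h1
  exact squeeze_zero (fun _ => dist_nonneg) (fun y => by rw [Real.dist_eq]; exact h y x) h1

/-- equi-Hölder functions which converge pointwise converge locally uniformly -/
theorem b6dc_locunif {v : ℕ → ℂ → ℝ} {v₀ : ℂ → ℝ} {C₀ : ℝ}
    (hH : ∀ j x x', |v j x - v j x'| ≤ C₀ * Real.sqrt (dist x x'))
    (hH0 : ∀ x x', |v₀ x - v₀ x'| ≤ C₀ * Real.sqrt (dist x x'))
    (hp : ∀ x, Tendsto (fun j => v j x) atTop (𝓝 (v₀ x))) :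
    TendstoLocallyUniformlyOn v v₀ atTop univ := by
  rw [Metric.tendstoLocallyUniformlyOn_iff]
  intro ε hε x _
  have h1 : ∀ᶠ y in 𝓝 x, C₀ * Real.sqrt (dist y x) < ε / 3 := by
    have h2 : Continuous fun y : ℂ => C₀ * Real.sqrt (dist y x) := by fun_prop
    refine (h2.tendsto x).eventually (gt_mem_nhds ?_)
    rw [dist_self, Real.sqrt_zero, mul_zero]
    positivity
  refine ⟨{y | C₀ * Real.sqrt (dist y x) < ε / 3}, mem_nhdsWithin_of_mem_nhds h1, ?_⟩
  have h2 : ∀ᶠ n in atTop, |v n x - v₀ x| < ε / 3 := by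
    have h3 := Metric.tendsto_nhds.1 (hp x) (ε / 3) (by positivity)
    simpa only [Real.dist_eq] using h3
  filter_upwards [h2] with n hn y hy
  rw [Real.dist_eq]
  have hy' : C₀ * Real.sqrt (dist y x) < ε / 3 := hy
  have a1 := hH n y x
  have a2 := hH0 y x
  have a3 : v₀ y - v n y = (v₀ y - v₀ x) - (v n y - v n x) - (v n x - v₀ x) := by ring
  rw [a3]
  calc |(v₀ y - v₀ x) - (v n y - v n x) - (v n x - v₀ x)|
      ≤ |(v₀ y - v₀ x) - (v n y - v n x)| + |v n x - v₀ x| := abs_sub _ _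
    _ ≤ |v₀ y - v₀ x| + |v n y - v n x| + |v n x - v₀ x| := by
        have := abs_sub (v₀ y - v₀ x) (v n y - v n x)
        linarith
    _ < ε := by linarith

theorem ilin_sub (a b : ℂ) : ilin a - ilin b = ilin (a - b) := by
  unfold ilin
  rw [map_sub]

theorem norm_ilin (a : ℂ) : ‖ilin a‖ = ‖a‖ := by
  unfold ilin
  exact innerSL_apply_norm ℝ a

theorem CJ.isClosed_K {K : Set ℂ} {v : ℂ → ℝ} {g : ℂ → ℂ} (h : CJ univ K v g) : IsClosed K := by
  have h1 := h.open_compl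
  rw [← compl_eq_univ_sdiff] at h1
  exact isOpen_compl_iff.1 h1

theorem b6dc_far {K : Set ℂ} (hK : IsClosed K) {y : ℂ} (hy : y ∉ K) :
    ∃ ρ : ℝ, 0 < ρ ∧ ∀ k ∈ K, ρ ≤ ‖y - k‖ := by
  obtain ⟨ρ, hρ, h1⟩ := Metric.isOpen_iff.1 hK.isOpen_compl y hy
  refine ⟨ρ, hρ, fun k hk => ?_⟩
  by_contra h2
  rw [not_le] at h2
  refine h1 ?_ hk
  rw [mem_ball, dist_comm, dist_eq_norm]
  exact h2

/-- convergence of the fields off the limit set -/
theorem B6Conv.tendsto_g {Q : ℕ → B6El} {Q' : B6El} (hc : B6Conv Q Q') (hK : IsClosed Q'.K) {x : ℂ}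
    (hx : x ∉ Q'.K) : Tendsto (fun n => (Q n).g x) atTop (𝓝 (Q'.g x)) := by
  obtain ⟨ρ, hρ, h1⟩ := b6dc_far hK hx
  rw [Metric.tendsto_nhds]
  intro ε hε
  have h2 := hc.g ‖x‖ (min (ε / 2) ρ) (lt_min (by positivity) hρ)
  filter_upwards [h2] with n hn
  rw [dist_eq_norm]
  have h3 := hn x le_rfl fun z hz => (min_le_right _ _).trans (h1 z hz)
  have h4 := h3.trans (min_le_left _ _)
  linarith

/-- the conjugate functions converge pointwise -/
theorem b6dc_pointwise {Q : ℕ → B6El} {Q' : B6El} {v : ℕ → ℂ → ℝ} {v₀ : ℂ → ℝ} {C₀ : ℝ}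
    (hC₀ : 0 ≤ C₀) (hCJ : ∀ j, CJ univ (Q j).K (v j) (Q j).g) (hCJ0 : CJ univ Q'.K v₀ Q'.g)
    (hH : ∀ j x x', |v j x - v j x'| ≤ C₀ * Real.sqrt (dist x x'))
    (hH0 : ∀ x x', |v₀ x - v₀ x'| ≤ C₀ * Real.sqrt (dist x x'))
    (h0 : ∀ j, (0 : ℂ) ∈ (Q j).K) (h0' : (0 : ℂ) ∈ Q'.K) (hc : B6Conv Q Q') (x : ℂ) :
    Tendsto (fun j => v j x) atTop (𝓝 (v₀ x)) := by
  rw [tendsto_iff_ultrafilter]
  intro 𝒰 h𝒰
  have hlim : ∀ y, ∃ c, Tendsto (fun j => v j y) 𝒰 (𝓝 c) := by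
    intro y
    have hb : ∀ j, v j y ∈ Icc (-(C₀ * Real.sqrt (dist y 0))) (C₀ * Real.sqrt (dist y 0)) := by
      intro j
      have h1 := hH j y 0
      rw [(hCJ j).zero 0 ⟨mem_univ _, h0 j⟩, sub_zero] at h1
      exact abs_le.1 h1
    obtain ⟨c, -, h2⟩ := isCompact_Icc.ultrafilter_le_nhds (𝒰.map fun j => v j y)
      (le_principal_iff.2 (Filter.mem_map.2 (Filter.univ_mem' hb)))
    exact ⟨c, h2⟩
  choose w hw using hlim
  have hwH : ∀ y y', |w y - w y'| ≤ C₀ * Real.sqrt (dist y y') := fun y y' =>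
    le_of_tendsto ((hw y).sub (hw y')).abs (Eventually.of_forall fun j => hH j y y')
  have hKc : IsClosed Q'.K := hCJ0.isClosed_K
  -- the limit vanishes on the limit set
  have hw0 : ∀ y ∈ Q'.K, w y = 0 := by
    intro y hy
    have h1 : ∀ ε : ℝ, 0 < ε → |w y| ≤ C₀ * Real.sqrt ε := by
      intro ε hε
      have h2 := h𝒰 (hc.u2 ‖y‖ ε hε)
      refine le_of_tendsto (hw y).abs ?_
      filter_upwards [h2] with j hj
      obtain ⟨y', hy', h3⟩ := hj y hy le_rfl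
      have h4 := hH j y y'
      rw [(hCJ j).zero y' ⟨mem_univ _, hy'⟩, sub_zero] at h4
      refine h4.trans (mul_le_mul_of_nonneg_left (Real.sqrt_le_sqrt ?_) hC₀)
      rw [dist_comm, dist_eq_norm]
      exact h3.le
    have h5 : Tendsto (fun ε : ℝ => C₀ * Real.sqrt ε) (𝓝[>] 0) (𝓝 0) := by
      have h6 : Continuous fun ε : ℝ => C₀ * Real.sqrt ε := by fun_prop
      have h7 := h6.tendsto 0
      rw [Real.sqrt_zero, mul_zero] at h7
      exact h7.mono_left nhdsWithin_le_nhds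
    have h8 : |w y| ≤ 0 := by
      refine ge_of_tendsto h5 ?_
      filter_upwards [self_mem_nhdsWithin] with ε hε
      exact h1 ε hε
    exact abs_nonpos_iff.1 h8
  -- off the limit set the difference is locally constant
  have hloc : ∀ y, y ∉ Q'.K → ∀ᶠ z in 𝓝 y, w z - v₀ z = w y - v₀ y := by
    intro y hy
    obtain ⟨ρ', hρ', h1⟩ := b6dc_far hKc hy
    obtain ⟨ρ, hρ, hρρ⟩ : ∃ ρ : ℝ, 0 < ρ ∧ 3 * ρ = ρ' := ⟨ρ' / 3, by positivity, by ring⟩
    filter_upwards [ball_mem_nhds y hρ] with z hz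
    have key : ∀ ε : ℝ, 0 < ε → ε ≤ ρ → |(w z - v₀ z) - (w y - v₀ y)| ≤ ε * ρ := by
      intro ε hε hερ
      have e1 := h𝒰 (hc.u1 (‖y‖ + ρ) ρ hρ)
      have e2 := h𝒰 (hc.g (‖y‖ + ρ) ε hε)
      have hnorm : ∀ t ∈ ball y ρ, ‖t‖ ≤ ‖y‖ + ρ := by
        intro t ht
        rw [mem_ball, dist_eq_norm] at ht
        have := norm_add_le y (t - y)
        rw [add_sub_cancel] at this
        linarith
      refine le_of_tendsto (((hw z).sub_const (v₀ z)).sub ((hw y).sub_const (v₀ y))).abs ?_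
      filter_upwards [e1, e2] with j hj1 hj2
      have hdK : ∀ t ∈ ball y ρ, t ∉ (Q j).K := by
        intro t ht htK
        obtain ⟨k, hk, h2⟩ := hj1 t htK (hnorm t ht)
        have h3 := h1 k hk
        rw [mem_ball, dist_eq_norm] at ht
        have h4 : ‖y - k‖ ≤ ‖t - y‖ + ‖t - k‖ := by
          rw [norm_sub_rev t y]
          have := norm_add_le (y - t) (t - k)
          rwa [sub_add_sub_cancel] at this
        linarith
      have hd0 : ∀ t ∈ ball y ρ, ∀ k ∈ Q'.K, 2 * ρ ≤ ‖t - k‖ := by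
        intro t ht k hk
        have h3 := h1 k hk
        rw [mem_ball, dist_eq_norm] at ht
        have h4 : ‖y - k‖ ≤ ‖t - y‖ + ‖t - k‖ := by
          rw [norm_sub_rev t y]
          have := norm_add_le (y - t) (t - k)
          rwa [sub_add_sub_cancel] at this
        linarith
      have hd : ∀ t ∈ ball y ρ, HasFDerivWithinAt (fun s => v j s - v₀ s)
          (ilin (Complex.I * (Q j).g t) - ilin (Complex.I * Q'.g t)) (ball y ρ) t := by
        intro t ht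
        have h5 := (hCJ j).grad t ⟨mem_univ _, hdK t ht⟩
        have h6 := hCJ0.grad t ⟨mem_univ _, fun hk => by
          have := hd0 t ht t hk
          rw [sub_self, norm_zero] at this
          linarith⟩
        exact (h5.sub h6).hasFDerivWithinAt
      have hbd : ∀ t ∈ ball y ρ,
          ‖ilin (Complex.I * (Q j).g t) - ilin (Complex.I * Q'.g t)‖ ≤ ε := by
        intro t ht
        rw [ilin_sub, norm_ilin, ← mul_sub, norm_mul, Complex.norm_I, one_mul]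
        exact hj2 t (hnorm t ht) fun k hk => by
          have := hd0 t ht k hk
          linarith
      have h7 := (convex_ball y ρ).norm_image_sub_le_of_norm_hasFDerivWithin_le hd hbd
        (mem_ball_self hρ) hz
      rw [Real.norm_eq_abs] at h7
      refine h7.trans (mul_le_mul_of_nonneg_left ?_ hε.le)
      rw [mem_ball, dist_eq_norm] at hz
      exact hz.le
    have h8 : Tendsto (fun ε : ℝ => ε * ρ) (𝓝[>] 0) (𝓝 0) := by
      have h9 : Continuous fun ε : ℝ => ε * ρ := by fun_prop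
      have h10 := h9.tendsto 0
      rw [zero_mul] at h10
      exact h10.mono_left nhdsWithin_le_nhds
    have h11 : |(w z - v₀ z) - (w y - v₀ y)| ≤ 0 := by
      refine ge_of_tendsto h8 ?_
      filter_upwards [Ioc_mem_nhdsGT hρ] with ε hε
      exact key ε hε.1 hε.2
    exact sub_eq_zero.1 (abs_nonpos_iff.1 h11)
  -- the difference is zero
  have hd0 : w x - v₀ x = 0 := by
    by_contra hne
    have hcl : IsClosed {y | w y - v₀ y = w x - v₀ x} :=
      isClosed_eq ((b6dc_cont hwH).sub (b6dc_cont hH0)) continuous_const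
    have hop : IsOpen {y | w y - v₀ y = w x - v₀ x} := by
      rw [isOpen_iff_mem_nhds]
      intro y hy
      have hy' : w y - v₀ y = w x - v₀ x := hy
      have hyK : y ∉ Q'.K := by
        intro hk
        apply hne
        rw [← hy', hw0 y hk, hCJ0.zero y ⟨mem_univ _, hk⟩, sub_zero]
      filter_upwards [hloc y hyK] with z hz
      show w z - v₀ z = w x - v₀ x
      rw [hz, hy']
    have huniv := IsClopen.eq_univ ⟨hcl, hop⟩ ⟨x, rfl⟩
    have h12 : (0 : ℂ) ∈ {y | w y - v₀ y = w x - v₀ x} := by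
      rw [huniv]
      exact mem_univ _
    have h13 : w 0 - v₀ 0 = w x - v₀ x := h12
    rw [hw0 0 h0', hCJ0.zero 0 ⟨mem_univ _, h0'⟩, sub_zero] at h13
    exact hne h13.symm
  have h14 : w x = v₀ x := sub_eq_zero.1 hd0
  rw [← h14]
  exact hw x

/-- the conjugate functions converge locally uniformly -/
theorem b6dc_tendsto {Q : ℕ → B6El} {Q' : B6El} {v : ℕ → ℂ → ℝ} {v₀ : ℂ → ℝ} {C₀ : ℝ}
    (hC₀ : 0 ≤ C₀) (hCJ : ∀ j, CJ univ (Q j).K (v j) (Q j).g) (hCJ0 : CJ univ Q'.K v₀ Q'.g)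
    (hH : ∀ j x x', |v j x - v j x'| ≤ C₀ * Real.sqrt (dist x x'))
    (hH0 : ∀ x x', |v₀ x - v₀ x'| ≤ C₀ * Real.sqrt (dist x x'))
    (h0 : ∀ j, (0 : ℂ) ∈ (Q j).K) (h0' : (0 : ℂ) ∈ Q'.K) (hc : B6Conv Q Q') :
    TendstoLocallyUniformlyOn v v₀ atTop univ :=
  b6dc_locunif hH hH0 (b6dc_pointwise hC₀ hCJ hCJ0 hH hH0 h0 h0' hc)

/-- `D` is continuous under convergence of global elements, given the conjugate functions (`hX`),
the continuity of `D` under convergence of conjugate functions (`hconv`) and the upper bound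
(`hbd`). -/
theorem b6_dcont_of
    (hX : ∃ C₀ : ℝ, 0 < C₀ ∧ ∀ (u : ℂ → ℝ) (K : Set ℂ), TGlob u K → K.Nonempty →
      ∃ v : ℂ → ℝ, CJ univ K v (tgr u K) ∧ ∀ x x', |v x - v x'| ≤ C₀ * Real.sqrt (dist x x'))
    (hconv : ∀ {U : Set ℂ} {K : ℕ → Set ℂ} {v : ℕ → ℂ → ℝ} {g : ℕ → ℂ → ℂ} {K₀ : Set ℂ}
      {v₀ : ℂ → ℝ} {g₀ : ℂ → ℂ}, (∀ n, CJ U (K n) (v n) (g n)) → CJ U K₀ v₀ g₀ →
      TendstoLocallyUniformlyOn v v₀ atTop U →
      (∀ᵐ x ∂(volume.restrict U), Tendsto (fun n => g n x) atTop (𝓝 (g₀ x))) →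
      ∀ {a : ℂ} {R : ℝ}, closedBall a R ⊆ U → ∀ {M : ℝ}, (∀ n, Dq (g n) a R ≤ M) → ∀ {r : ℝ},
      r < R → Tendsto (fun n => Dq (g n) a r) atTop (𝓝 (Dq g₀ a r)))
    (hbd : ∀ {Q : B6El}, Q ∈ b6G → ∀ {r : ℝ}, 0 < r → b6D Q r ≤ 2 * Real.pi * r)
    (Q : ℕ → B6El) (Q' : B6El) (hQ : ∀ j, Q j ∈ b6G) (h0 : ∀ j, (0 : ℂ) ∈ (Q j).K)
    (hQ' : Q' ∈ b6G) (h0' : (0 : ℂ) ∈ Q'.K) (hc : B6Conv Q Q') {r : ℝ} (hr : 0 < r) :
    Tendsto (fun j => b6D (Q j) r) atTop (𝓝 (b6D Q' r)) := by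
  obtain ⟨C₀, hC₀, hX⟩ := hX
  have hex : ∀ P ∈ b6G, (0 : ℂ) ∈ P.K → ∃ v : ℂ → ℝ, CJ univ P.K v P.g ∧
      ∀ x x', |v x - v x'| ≤ C₀ * Real.sqrt (dist x x') := by
    rintro P ⟨u, K, hu, rfl⟩ hP0
    exact hX u K hu ⟨0, hP0⟩
  choose v hv hvH using fun j => hex (Q j) (hQ j) (h0 j)
  obtain ⟨v₀, hv₀, hv₀H⟩ := hex Q' hQ' h0'
  have hvol : volume Q'.K = 0 := by
    obtain ⟨u, K, hu, rfl⟩ := hQ'
    exact hu.volume_eq_zero
  have hg : ∀ᵐ x ∂((volume : Measure ℂ).restrict univ),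
      Tendsto (fun n => (Q n).g x) atTop (𝓝 (Q'.g x)) := by
    rw [Measure.restrict_univ]
    have h1 : ∀ᵐ x ∂(volume : Measure ℂ), x ∉ Q'.K := measure_eq_zero_iff_ae_notMem.1 hvol
    filter_upwards [h1] with x hx
    exact hc.tendsto_g hv₀.isClosed_K hx
  exact hconv hv hv₀ (b6dc_tendsto hC₀.le hv hv₀ hvH hv₀H h0 h0' hc) hg
    (a := 0) (R := r + 1) (subset_univ _) (fun n => hbd (hQ n) (by linarith)) (by linarith)

end Pool.Agent.MP099f24
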