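import Mathlib
import Pool.Agent.Lib.MP_099f24_an.TM.Earn
import Pool.Agent.Lib.MP_099f24_an.B6.Elem

/-!
# MP_099f24, part B6: every circle around a point of `K` meets `K`
-/

set_option autoImplicit false

namespace Pool.Agent.MP099f24

open Filter Topology Set Metric

/-- a closed set without compact relatively open pieces meets every circle around its points -/
theorem noPiece_meet {K : Set ℂ} (hK : IsClosed K) (hno : NoPiece K) {a : ℂ} (ha : a ∈ K) {r : ℝ}
    (hr : 0 < r) : (K ∩ sphere a r).Nonempty := by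
  by_contra hcon
  rw [Set.not_nonempty_iff_eq_empty] at hcon
  refine hno (K ∩ closedBall a r) ((isCompact_closedBall a r).inter_left hK)
    ⟨a, ha, mem_closedBall_self hr.le⟩ inter_subset_left ?_
  have h1 : K \ (K ∩ closedBall a r) = K ∩ (ball a r)ᶜ := by
    ext x
    constructor
    · rintro ⟨h1, h2⟩
      exact ⟨h1, fun h3 => h2 ⟨h1, ball_subset_closedBall h3⟩⟩
    · rintro ⟨h1, h2⟩
      refine ⟨h1, fun h3 => ?_⟩
      have h4 : x ∈ K ∩ sphere a r := by
        refine ⟨h1, ?_⟩
        have h5 := mem_closedBall.1 h3.2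
        have h6 : r ≤ dist x a := by
          by_contra h7
          exact h2 (mem_ball.2 (not_le.1 h7))
        exact mem_sphere.2 (le_antisymm h5 h6)
      rw [hcon] at h4
      exact h4
  rw [h1]
  exact hK.inter isOpen_ball.isClosed_compl

/-- every circle around the origin meets `K`, for a global element with `0 ∈ K` -/
theorem b6_meet {Q : B6El} (hQ : Q ∈ b6G) (h0 : (0 : ℂ) ∈ Q.K) {r : ℝ} (hr : 0 < r) :
    (Q.K ∩ sphere 0 r).Nonempty := by
  obtain ⟨u, K, h, rfl⟩ := hQ
  exact noPiece_meet h.toTConf.isClosed (TMin.noPiece h) h0 hr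

end Pool.Agent.MP099f24
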