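import Mathlib
import Pool.Agent.Lib.MP_099f24_an.B6.Elem
import Pool.Agent.Lib.MP_099f24_an.B6.Meet
import Pool.Agent.Lib.MP_099f24_an.SC.Global
import Pool.Agent.Lib.MP_099f24_an.SC.Bonnet

/-!
# MP_099f24, part B6: monotonicity of `D(r) / r` for global elements
-/

set_option autoImplicit false

namespace Pool.Agent.MP099f24

open MeasureTheory Filter Topology Set Metric
open scoped ENNReal ContDiff

/-- Bonnet's monotonicity for global elements -/
theorem b6_dmono {Q : B6El} (hQ : Q ∈ b6G) (h0 : (0 : ℂ) ∈ Q.K) {r s : ℝ} (hr : 0 < r)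
    (hrs : r ≤ s) : b6D Q r / r ≤ b6D Q s / s := by
  have hQ' := hQ
  obtain ⟨u, K, h, rfl⟩ := hQ
  obtain ⟨v, hv, -⟩ := tmin_cj h ⟨0, h0⟩
  exact cj_mono_one hv (R := s + 1) (subset_univ _) hr hrs (by linarith)
    (fun t ht => b6_meet hQ' h0 (hr.trans ht.1))

end Pool.Agent.MP099f24
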