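import Mathlib
import Pool.Agent.Lib.MP_099f24_an.B6.Cls
import Pool.Agent.Lib.MP_099f24_an.B6.Cpt
import Pool.Agent.Lib.MP_099f24_an.B6.Dcont
import Pool.Agent.Lib.MP_099f24_an.B6.Dmono
import Pool.Agent.Lib.MP_099f24_an.B6.Meet
import Pool.Agent.Lib.MP_099f24_an.SC.Global
import Pool.Agent.Lib.MP_099f24_an.SC.Cacc
import Pool.Agent.Lib.MP_099f24_an.TR.Asm

/-!
# MP_099f24, part B6: the class of global elements satisfies the hypotheses of the structure theorem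
-/

set_option autoImplicit false

namespace Pool.Agent.MP099f24

open MeasureTheory Filter Topology Set Metric
open scoped ENNReal ContDiff

theorem b6_dcont (Q : ℕ → B6El) (Q' : B6El) (hQ : ∀ j, Q j ∈ b6G) (h0 : ∀ j, (0 : ℂ) ∈ (Q j).K)
    (hQ' : Q' ∈ b6G) (h0' : (0 : ℂ) ∈ Q'.K) (hc : B6Conv Q Q') {r : ℝ} (hr : 0 < r) :
    Tendsto (fun j => b6D (Q j) r) atTop (𝓝 (b6D Q' r)) :=
  b6_dcont_of tglob_cj cj_conv b6_dbd Q Q' hQ h0 hQ' h0' hc hr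

/-- classification of the homogeneous elements -/
theorem b6_cls {Q : B6El} (hQ : Q ∈ b6G) (h0 : (0 : ℂ) ∈ Q.K) {φ : ℝ}
    (h : ∀ r : ℝ, 0 < r → b6D Q r = φ * r) :
    (φ = 0 ∧ B6Zero Q ∧ (B6Line Q.K ∨ ∃ c, B6Tri Q.K c)) ∨ (φ = 1 ∧ B6Tip Q) := by
  have hmeet : ∀ r : ℝ, 0 < r → (Q.K ∩ sphere 0 r).Nonempty := fun r hr => b6_meet hQ h0 hr
  obtain ⟨u, K, hu, rfl⟩ := hQ
  have hφ0 : 0 ≤ φ := by
    have h1 := h 1 one_pos
    rw [mul_one] at h1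
    rw [← h1]
    exact b6_Dq_nonneg _ _ _
  rcases hφ0.eq_or_lt with h1 | h1
  · left
    refine ⟨h1.symm, b6_cls_zero hu h0 fun r hr => ?_⟩
    rw [h r hr, ← h1, zero_mul]
  · right
    obtain ⟨C₀, -, hC⟩ := tglob_cj
    obtain ⟨v, hv, -⟩ := hC u K hu ⟨0, h0⟩
    obtain ⟨h2, e, he, hK, hg⟩ := tt_tip hu hv h0 hmeet h1 h
    exact ⟨h2, e, he, hK, hg⟩

/-- the class of global elements satisfies the hypotheses of the structure theorem -/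
theorem b6_class : B6Class b6G b6D b6e where
  resc0 := fun _ hQ _ _ hR => b6G_resc0 hQ hR
  cpt := b6G_cpt
  Dresc := fun _ hQ _ _ _ hR hr => b6_dresc hQ hR hr
  Dmono := fun _ hQ h0 _ _ hr hrs => b6_dmono hQ h0 hr hrs
  Dnn := fun _ _ _ _ _ => b6_Dq_nonneg _ _ _
  Dbd := ⟨2 * Real.pi, fun _ hQ _ _ hr => b6_dbd hQ hr⟩
  Dcont := fun Q Q' hQ h0 hQ' h0' hc _ hr => b6_dcont Q Q' hQ h0 hQ' h0' hc hr
  zero := fun _ hQ _ hz r _ => b6_zero_D hQ hz r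
  cls := fun _ hQ h0 _ hφ => b6_cls hQ h0 hφ
  eline := fun _ hQ hl hz => b6_eline hQ hl hz
  etri := fun _ hQ hl hz => b6_etri hQ hl hz
  etip := fun _ hQ ht hD => b6_etip hQ ht hD

end Pool.Agent.MP099f24
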